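import Pool.Agent.Odp3.Eq.Defs

open scoped ContDiff Topology ENNReal NNReal WithZero
open Set MeasureTheory Filter MvPolynomial Pool.Agent.ODP

namespace Pool.Agent.Odp3

theorem ord88_nq_smul {n : ℕ} (t : ℂ) (v : Fin n → ℂ) : nq (t • v) = ‖t‖ ^ 2 * nq v := by
  simp only [nq, Pi.smul_apply, smul_eq_mul, norm_mul, mul_pow, Finset.mul_sum]

theorem ord88_nq_nonneg {n : ℕ} (v : Fin n → ℂ) : 0 ≤ nq v :=
  Finset.sum_nonneg fun _ _ => by positivity

theorem ord88_nq_pos {n : ℕ} {v : Fin n → ℂ} (hv : v ≠ 0) : 0 < nq v := by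
  obtain ⟨j, hj⟩ := Function.ne_iff.1 hv
  have h1 : ‖v j‖ ^ 2 ≤ nq v :=
    Finset.single_le_sum (f := fun j => ‖v j‖ ^ 2) (fun _ _ => by positivity) (Finset.mem_univ j)
  have h2 : 0 < ‖v j‖ := norm_pos_iff.2 hj
  nlinarith

/-- A function which is `O(t^(D+1))` along the ray through `v` and is a polynomial of degree at
most `D` in `t` vanishes. -/
theorem ord88_poly_zero (p : Polynomial ℂ) {D : ℕ} (hD : p.natDegree ≤ D) {C r : ℝ} (hr : 0 < r)
    (h : ∀ t : ℝ, 0 < t → t < r → ‖p.eval (t : ℂ)‖ ≤ C * t ^ (D + 1)) : p = 0 := by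
  by_contra hp
  -- lowest coefficient
  obtain ⟨q, hq⟩ : Polynomial.X ^ p.natTrailingDegree ∣ p := by
    rw [Polynomial.X_pow_dvd_iff]
    intro d hd
    exact Polynomial.coeff_eq_zero_of_lt_natTrailingDegree hd
  set k := p.natTrailingDegree with hk
  have hkD : k ≤ D := (Polynomial.natTrailingDegree_le_natDegree p).trans hD
  have hq0 : q.eval 0 ≠ 0 := by
    have h1 : p.coeff k ≠ 0 := Polynomial.coeff_natTrailingDegree_ne_zero.2 hp
    rw [hq, Polynomial.coeff_X_pow_mul', if_pos le_rfl, Nat.sub_self] at h1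
    rwa [← Polynomial.coeff_zero_eq_eval_zero]
  have hlim : Tendsto (fun t : ℝ => ‖q.eval (t : ℂ)‖) (𝓝[>] 0) (𝓝 ‖q.eval 0‖) := by
    have h1 : Continuous fun t : ℝ => ‖q.eval (t : ℂ)‖ := by
      exact (q.continuous.comp Complex.continuous_ofReal).norm
    have := (h1.tendsto 0).mono_left (nhdsWithin_le_nhds (s := Ioi 0))
    simpa using this
  have hlim2 : Tendsto (fun t : ℝ => C * t ^ (D + 1 - k)) (𝓝[>] 0) (𝓝 0) := by
    have h1 : Continuous fun t : ℝ => C * t ^ (D + 1 - k) := by fun_prop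
    have := (h1.tendsto 0).mono_left (nhdsWithin_le_nhds (s := Ioi 0))
    have h2 : D + 1 - k ≠ 0 := by omega
    simpa [h2] using this
  have hle : ‖q.eval 0‖ ≤ 0 := by
    refine le_of_tendsto_of_tendsto hlim hlim2 ?_
    filter_upwards [Ioo_mem_nhdsGT hr] with t ht
    have h1 := h t ht.1 ht.2
    rw [hq, Polynomial.eval_mul, Polynomial.eval_pow, Polynomial.eval_X, norm_mul, norm_pow,
      Complex.norm_real, Real.norm_eq_abs, abs_of_pos ht.1] at h1
    have h2 : t ^ (D + 1) = t ^ k * t ^ (D + 1 - k) := by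
      rw [← pow_add]; congr 1; omega
    rw [h2] at h1
    have h3 : (0 : ℝ) < t ^ k := pow_pos ht.1 _
    have h4 : t ^ k * ‖q.eval (t : ℂ)‖ ≤ t ^ k * (C * t ^ (D + 1 - k)) := by linarith
    exact le_of_mul_le_mul_left h4 h3
  exact hq0 (norm_le_zero_iff.1 hle)

/-- A nonzero polynomial does not vanish to an order larger than its degree. -/
theorem not_ordGe_poly {n : ℕ} (hn : 1 ≤ n) {a : MvPolynomial (Fin n) ℂ} (ha : a ≠ 0) :
    ¬ OrdGe (fun w => eval w a) (a.totalDegree + 1) := by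
  rintro ⟨C, ρ, hρ, hC⟩
  apply ha
  apply MvPolynomial.funext
  intro v
  rw [map_zero]
  -- the polynomial `t ↦ a (t v)`
  set p : Polynomial ℂ := MvPolynomial.aeval (fun j => Polynomial.C (v j) * Polynomial.X) a with hp
  have hev : ∀ t : ℂ, p.eval t = eval (t • v) a := by
    intro t
    rw [hp, ← Polynomial.coe_evalRingHom, MvPolynomial.aeval_def, MvPolynomial.hom_eval₂]
    rw [MvPolynomial.eval, ← MvPolynomial.coe_eval₂Hom]
    congr 2
    · refine RingHom.ext fun z => ?_
      rw [RingHom.comp_apply, Polynomial.coe_evalRingHom]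
      exact Polynomial.eval_C
    · funext j
      rw [Polynomial.coe_evalRingHom, Polynomial.eval_mul, Polynomial.eval_C, Polynomial.eval_X,
        Pi.smul_apply, smul_eq_mul, mul_comm]
  have hdeg : p.natDegree ≤ a.totalDegree := by
    rw [hp, MvPolynomial.aeval_def, MvPolynomial.eval₂_eq']
    refine Polynomial.natDegree_sum_le_of_forall_le _ _ fun m hm => ?_
    refine (Polynomial.natDegree_mul_le).trans ?_
    have h1 : (∏ i, (Polynomial.C (v i) * Polynomial.X) ^ m i : Polynomial ℂ).natDegree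
        ≤ ∑ i, m i := by
      refine (Polynomial.natDegree_prod_le _ _).trans (Finset.sum_le_sum fun i _ => ?_)
      refine (Polynomial.natDegree_pow_le).trans ?_
      have : (Polynomial.C (v i) * Polynomial.X : Polynomial ℂ).natDegree ≤ 1 :=
        (Polynomial.natDegree_C_mul_le _ _).trans Polynomial.natDegree_X_le
      nlinarith
    have h2 : (algebraMap ℂ (Polynomial ℂ) (coeff m a)).natDegree = 0 := by
      exact Polynomial.natDegree_C _
    rw [h2, zero_add]
    refine h1.trans ?_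
    have h3 := MvPolynomial.le_totalDegree hm
    rwa [Finsupp.sum_fintype _ _ (fun _ => rfl)] at h3
  by_cases hv : v = 0
  · -- evaluate at `0` through the constant term
    have h0 := hC 0 (by simp [nq]; positivity)
    simp [nq] at h0
    rw [hv]
    simpa using h0
  have hnq := ord88_nq_pos hv
  have hsq : 0 < √(nq v) := Real.sqrt_pos.2 hnq
  have hp0 : p = 0 := by
    refine ord88_poly_zero p hdeg (C := C * √(nq v) ^ (a.totalDegree + 1))
      (r := ρ / √(nq v)) (by positivity) fun t ht0 ht1 => ?_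
    rw [hev]
    have h1 : nq ((t : ℂ) • v) = t ^ 2 * nq v := by
      rw [ord88_nq_smul, Complex.norm_real, Real.norm_eq_abs, sq_abs]
    have h2 : t * √(nq v) < ρ := by rwa [lt_div_iff₀ hsq] at ht1
    have h3 : nq ((t : ℂ) • v) < ρ ^ 2 := by
      rw [h1]
      have h4 : (t * √(nq v)) ^ 2 < ρ ^ 2 := by
        exact pow_lt_pow_left₀ h2 (by positivity) two_ne_zero
      rwa [mul_pow, Real.sq_sqrt hnq.le] at h4
    have h5 := hC _ h3
    rw [h1, Real.sqrt_mul (by positivity), Real.sqrt_sq ht0.le, mul_pow] at h5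
    calc ‖eval ((t : ℂ) • v) a‖ ≤ C * (t ^ (a.totalDegree + 1) * √(nq v) ^ (a.totalDegree + 1)) := h5
      _ = _ := by ring
  have := hev 1
  rw [hp0, one_smul] at this
  simpa using this.symm

end Pool.Agent.Odp3
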