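import Pool.Agent.Odp3.Eq.Sym
import Pool.Agent.Odp3.Eq.Ord
import Pool.Agent.Odp3.Lim.Unif
import Pool.Agent.Odp3.Lim.Van

open scoped ContDiff Topology ENNReal NNReal WithZero
open Set MeasureTheory Filter MvPolynomial Pool.Agent.ODP

namespace Pool.Agent.Odp3

section

variable {n d : ℕ} {B : Type} [CommRing B] [Algebra ℂ B] {G : Germ n d B}

/-- the norm is the product of the values -/
theorem nrm_prod {e : ℕ} {g : B} {w : Fin n → ℂ} {σ : ℕ → (Fin n → ℂ) → ℂ} {r : Fin e → Pt B}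
    (h : ∏ j, (Polynomial.X - Polynomial.C (r j g)) =
      ∑ i ∈ Finset.range (e + 1), Polynomial.C ((-1) ^ i * σ i w) * Polynomial.X ^ (e - i)) :
    σ e w = ∏ j, r j g := by
  have h1 := congrArg (Polynomial.eval 0) h
  rw [Polynomial.eval_prod, Polynomial.eval_finsetSum] at h1
  simp only [Polynomial.eval_sub, Polynomial.eval_X, Polynomial.eval_C, zero_sub,
    Polynomial.eval_mul, Polynomial.eval_pow] at h1
  rw [Finset.prod_neg, Finset.card_univ, Fintype.card_fin, Finset.sum_eq_single e] at h1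
  · rw [Nat.sub_self, pow_zero, mul_one] at h1
    have h2 : ((-1 : ℂ) ^ e) ≠ 0 := pow_ne_zero _ (by norm_num)
    exact (mul_left_cancel₀ h2 h1).symm
  · intro i hi hie
    rw [zero_pow, mul_zero]
    have := Finset.mem_range.1 hi
    omega
  · intro h
    exact absurd (Finset.mem_range.2 (Nat.lt_succ_self e)) h

theorem nrm_reindex {sg : B} {ρ : ℝ} {e : ℕ} {w : Fin n → ℂ} {r r' : Fin e → Pt B}
    (hr : Function.Injective r) (h1 : ∀ j, r j ∈ UU G sg ρ ∧ proj G.y (r j) = w)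
    (h2 : ∀ χ ∈ UU G sg ρ, proj G.y χ = w → ∃ j, r' j = χ) (b : B) :
    ∏ j, r j b = ∏ j, r' j b := by
  choose π hπ using fun j => h2 (r j) (h1 j).1 (h1 j).2
  have hinj : Function.Injective π := by
    intro i j hij
    apply hr
    rw [← hπ i, ← hπ j, hij]
  have hbij : Function.Bijective π := Finite.injective_iff_bijective.1 hinj
  rw [← hbij.prod_comp (fun j => r' j b)]
  exact Finset.prod_congr rfl fun j _ => by rw [hπ j]

theorem nrm_prod_sub {ι : Type*} (t : Finset ι) {a b : ι → ℂ} {M δ : ℝ} (hM : 1 ≤ M)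
    (ha : ∀ i, ‖a i‖ ≤ M) (hb : ∀ i, ‖b i‖ ≤ M) (hab : ∀ i, ‖a i - b i‖ ≤ δ) :
    ‖∏ i ∈ t, a i - ∏ i ∈ t, b i‖ ≤ t.card * M ^ t.card * δ := by
  classical
  have hM0 : 0 ≤ M := zero_le_one.trans hM
  induction t using Finset.induction_on with
  | empty => simp
  | insert i t hi ih =>
    have hδ : 0 ≤ δ := (norm_nonneg _).trans (hab i)
    rw [Finset.prod_insert hi, Finset.prod_insert hi, Finset.card_insert_of_notMem hi]
    have h1 : a i * ∏ x ∈ t, a x - b i * ∏ x ∈ t, b x =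
        a i * (∏ x ∈ t, a x - ∏ x ∈ t, b x) + (a i - b i) * ∏ x ∈ t, b x := by ring
    rw [h1]
    have h2 : ‖∏ x ∈ t, b x‖ ≤ M ^ t.card := by
      rw [norm_prod, ← Finset.prod_const]
      exact Finset.prod_le_prod (fun _ _ => norm_nonneg _) fun j _ => hb j
    have h3 : M ^ t.card ≤ M ^ (t.card + 1) := pow_le_pow_right₀ hM (Nat.le_succ _)
    calc ‖a i * (∏ x ∈ t, a x - ∏ x ∈ t, b x) + (a i - b i) * ∏ x ∈ t, b x‖
        ≤ ‖a i‖ * ‖∏ x ∈ t, a x - ∏ x ∈ t, b x‖ + ‖a i - b i‖ * ‖∏ x ∈ t, b x‖ := by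
          refine (norm_add_le _ _).trans ?_
          rw [norm_mul, norm_mul]
      _ ≤ M * (t.card * M ^ t.card * δ) + δ * M ^ t.card := by
          refine add_le_add (mul_le_mul (ha i) ih (norm_nonneg _) hM0)
            (mul_le_mul (hab i) h2 (norm_nonneg _) hδ)
      _ ≤ (t.card : ℝ) * M ^ (t.card + 1) * δ + δ * M ^ (t.card + 1) := by
          refine add_le_add (le_of_eq (by ring)) (mul_le_mul_of_nonneg_left h3 hδ)
      _ = ((t.card + 1 : ℕ) : ℝ) * M ^ (t.card + 1) * δ := by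
          push_cast
          ring

end

variable {n d : ℕ} {B : Type} [CommRing B] [IsDomain B] [Algebra ℂ B] {G : Germ n d B} {x : Pt B}
  {h : B} {s κ : ℝ} {sg : B} {m : ℕ} {ρ₁ : ℝ}

theorem nrm_bound {V : Set (Pt B)} {Ω : Set (Fin n → ℂ)} {s : (Fin n → ℂ) → Pt B}
    (hs : IsSec G V Ω s) {q : Fin n → ℂ} (hq : q ∈ Ω) {k : ℕ} {F : B}
    (hF : VanAt G (one n) k (s q) F) : ∃ C t : ℝ, 0 ≤ C ∧ 0 < t ∧ ∀ w, ‖w - q‖ < t →
      w ∈ Ω ∧ ‖s w F‖ ≤ C * ‖w - q‖ ^ k := by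
  rcases Nat.eq_zero_or_pos k with hk | hk
  · subst hk
    have hc : ContinuousAt (fun w => s w F) q :=
      ((hs.holo F).differentiableAt (hs.isOpen.mem_nhds hq)).continuousAt
    have h1 : ∀ᶠ w in 𝓝 q, w ∈ Ω ∧ ‖s w F‖ < ‖s q F‖ + 1 :=
      (hs.isOpen.eventually_mem hq).and
        (hc.norm.eventually_lt continuousAt_const (by simp))
    obtain ⟨t, ht, hball⟩ := Metric.eventually_nhds_iff.1 h1
    refine ⟨‖s q F‖ + 1, t, by positivity, ht, fun w hw => ?_⟩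
    have h2 := hball (y := w) (by rwa [dist_eq_norm])
    exact ⟨h2.1, by rw [pow_zero, mul_one]; exact h2.2.le⟩
  · obtain ⟨C, t, hC, ht, hb⟩ := VanAt.bound (fun j => le_refl (one n j)) hk hs hq hF
    refine ⟨C * n + 1, t, by positivity, ht, fun w hw => ?_⟩
    have h1 := hb w fun j => lt_of_le_of_lt (norm_le_pi_norm (w - q) j) hw
    refine ⟨h1.1, ?_⟩
    have h2 : ∀ j, ‖w j - q j‖ ^ (2 * (k : ℝ) / (one n j : ℕ)) ≤ (‖w - q‖ ^ k) ^ 2 := by
      intro j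
      have h3 : (2 * (k : ℝ) / (one n j : ℕ)) = ((k * 2 : ℕ) : ℝ) := by
        simp [one]
        ring
      rw [h3, Real.rpow_natCast, ← pow_mul]
      exact pow_le_pow_left₀ (norm_nonneg _) (norm_le_pi_norm (w - q) j) _
    have h3 : ‖s w F‖ ^ 2 ≤ C * n * (‖w - q‖ ^ k) ^ 2 := by
      refine h1.2.trans ?_
      rw [mul_assoc]
      refine mul_le_mul_of_nonneg_left ?_ hC.le
      refine (Finset.sum_le_sum fun j _ => h2 j).trans (le_of_eq ?_)
      simp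
    have h4 : 0 ≤ C * n := by positivity
    have h5 : ‖s w F‖ ^ 2 ≤ ((C * n + 1) * ‖w - q‖ ^ k) ^ 2 := by
      refine h3.trans ?_
      rw [mul_pow]
      refine mul_le_mul_of_nonneg_right ?_ (by positivity)
      nlinarith
    exact le_of_sq_le_sq h5 (by positivity)

theorem nrm_ord {ρ : ℝ} {e k : ℕ} {F : B} {τ : ℕ → (Fin n → ℂ) → ℂ} (hτ : IsSym G sg e ρ F τ)
    {q : Fin n → ℂ} (hq : q ∈ bal n ρ) (hD : eval q G.D ≠ 0) {χ₀ χ₁ : Pt B}
    (h₀ : proj G.y χ₀ = q) (h₁ : proj G.y χ₁ = q) (hne : χ₀ ≠ χ₁) (hs₀ : ‖χ₀ sg - 1‖ < 1 / 2)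
    (hs₁ : ‖χ₁ sg - 1‖ < 1 / 2) (hv₀ : VanAt G (one n) k χ₀ F) (hv₁ : VanAt G (one n) k χ₁ F) :
    ∃ C t : ℝ, 0 < t ∧ ∀ w, ‖w - q‖ < t → ‖τ e w‖ ≤ C * ‖w - q‖ ^ (2 * k) := by
  classical
  obtain ⟨Ω, hΩ, hqΩ, s, hs, hinj, hall⟩ := G.exists_sections hD
  obtain ⟨i₀, rfl⟩ := hall q hqΩ χ₀ h₀
  obtain ⟨i₁, rfl⟩ := hall q hqΩ χ₁ h₁
  have hi : i₀ ≠ i₁ := fun h => hne (by rw [h])
  obtain ⟨C₀, t₀, hC₀, ht₀, hb₀⟩ := nrm_bound (hs i₀) hqΩ hv₀
  obtain ⟨C₁, t₁, hC₁, ht₁, hb₁⟩ := nrm_bound (hs i₁) hqΩ hv₁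
  have hcont : ∀ i, ContinuousAt (fun w => s i w sg) q := fun i =>
    (((hs i).holo sg).differentiableAt (hΩ.mem_nhds hqΩ)).continuousAt
  have hev : ∀ᶠ w in 𝓝 q, (w ∈ bal n ρ ∧ eval w G.D ≠ 0) ∧ ‖s i₀ w sg - 1‖ < 1 / 2 ∧
      ‖s i₁ w sg - 1‖ < 1 / 2 := by
    refine (((sym_isOpen_bal n ρ).eventually_mem hq).and
      ((sym_diff_eval G.D).continuous.continuousAt.eventually_ne hD)).and (Eventually.and ?_ ?_)
    · exact (((hcont i₀).sub continuousAt_const).norm).eventually_lt_const hs₀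
    · exact (((hcont i₁).sub continuousAt_const).norm).eventually_lt_const hs₁
  obtain ⟨t₂, ht₂, hball⟩ := Metric.eventually_nhds_iff.1 hev
  obtain ⟨M, hM⟩ := G.bdd F (ρ ^ 2)
  refine ⟨C₀ * C₁ * (|M| + 1) ^ e, min t₀ (min t₁ t₂), lt_min ht₀ (lt_min ht₁ ht₂), fun w hw => ?_⟩
  have hw0 : ‖w - q‖ < t₀ := lt_of_lt_of_le hw (min_le_left _ _)
  have hw1 : ‖w - q‖ < t₁ := lt_of_lt_of_le hw ((min_le_right _ _).trans (min_le_left _ _))
  have hw2 : ‖w - q‖ < t₂ := lt_of_lt_of_le hw ((min_le_right _ _).trans (min_le_right _ _))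
  obtain ⟨⟨hwb, hwD⟩, hsg₀, hsg₁⟩ := hball (y := w) (by rwa [dist_eq_norm])
  obtain ⟨hwΩ, hF₀⟩ := hb₀ w hw0
  obtain ⟨-, hF₁⟩ := hb₁ w hw1
  obtain ⟨r, hr1, hr2, hr3, hr4⟩ := hτ.spec w hwb hwD
  have hp : ∀ i, proj G.y (s i w) = w := fun i => (hs i).proj w hwΩ
  obtain ⟨j₀, hj₀⟩ := hr3 (s i₀ w) ⟨by rw [hp]; exact hwb, hsg₀⟩ (hp _)
  obtain ⟨j₁, hj₁⟩ := hr3 (s i₁ w) ⟨by rw [hp]; exact hwb, hsg₁⟩ (hp _)
  have hj : j₁ ≠ j₀ := by
    intro h
    rw [h, hj₀] at hj₁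
    exact hi (hinj w hwΩ hj₁)
  rw [nrm_prod hr4, norm_prod]
  rw [← Finset.mul_prod_erase Finset.univ _ (Finset.mem_univ j₀),
    ← Finset.mul_prod_erase (Finset.univ.erase j₀) _
      (Finset.mem_erase.2 ⟨hj, Finset.mem_univ j₁⟩), hj₀, hj₁]
  have h2 : ∏ j ∈ (Finset.univ.erase j₀).erase j₁, ‖r j F‖ ≤ (|M| + 1) ^ e := by
    have h3 : ∏ j ∈ (Finset.univ.erase j₀).erase j₁, ‖r j F‖ ≤
        ∏ _j ∈ (Finset.univ.erase j₀).erase j₁, (|M| + 1) := by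
      refine Finset.prod_le_prod (fun _ _ => norm_nonneg _) fun j _ => ?_
      have h4 := hM (r j) (by rw [(hr2 j).2]; exact le_of_lt hwb)
      have := le_abs_self M
      linarith
    refine h3.trans ?_
    rw [Finset.prod_const]
    refine pow_le_pow_right₀ (by have := abs_nonneg M; linarith) ?_
    refine (Finset.card_le_card (Finset.subset_univ _)).trans (le_of_eq ?_)
    rw [Finset.card_univ, Fintype.card_fin]
  have h3 : 0 ≤ ∏ j ∈ (Finset.univ.erase j₀).erase j₁, ‖r j F‖ :=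
    Finset.prod_nonneg fun _ _ => norm_nonneg _
  calc ‖s i₀ w F‖ * (‖s i₁ w F‖ * ∏ j ∈ (Finset.univ.erase j₀).erase j₁, ‖r j F‖)
      ≤ (C₀ * ‖w - q‖ ^ k) * ((C₁ * ‖w - q‖ ^ k) * (|M| + 1) ^ e) := by
        refine mul_le_mul hF₀ (mul_le_mul hF₁ h2 h3 (by positivity)) (by positivity) (by positivity)
    _ = C₀ * C₁ * (|M| + 1) ^ e * ‖w - q‖ ^ (2 * k) := by
        rw [two_mul, pow_add]
        ring

/-- The norm of an element of `J_k` vanishes to the order `2 k` at `0`. -/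
theorem norm_ordGe (H : Std G x h s κ sg m ρ₁) (p : Pts G x) {e : ℕ} (he : IsNum G sg e) :
    ∃ ρ₂ : ℝ, 0 < ρ₂ ∧
    ∀ ρ : ℝ, 0 < ρ → ρ ≤ ρ₂ → ∀ (g : B) (σ : ℕ → (Fin n → ℂ) → ℂ) (k : ℕ),
      IsSym G sg e ρ g σ → g ∈ JI p (one n) k → OrdGe (σ e) (2 * k) := by
  classical
  obtain ⟨ρ₂, hρ₂, hex⟩ := exists_sym H he
  refine ⟨ρ₂, hρ₂, fun ρ hρ hρle g σ k hσ hg => ?_⟩
  rw [mem_JI] at hg
  obtain ⟨F, hF, hFg⟩ := hg
  choose τ hτ using fun ν => hex ρ hρ hρle (F ν)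
  have hq := pts_tendsto_q_hyper p
  have hqb : ∀ᶠ ν in (hyperfilter ℕ : Filter ℕ), p.q ν ∈ bal n ρ := by
    refine hq.eventually ((sym_isOpen_bal n ρ).eventually_mem ?_)
    show nq (0 : Fin n → ℂ) < ρ ^ 2
    have : nq (0 : Fin n → ℂ) = 0 := by simp [nq]
    rw [this]
    positivity
  have hsg : ∀ i, ∀ᶠ ν in (hyperfilter ℕ : Filter ℕ), ‖p.p i ν sg - 1‖ < 1 / 2 := by
    intro i
    have h1 := pts_tendsto_hyper p i sg
    rw [H.sep.x_sg] at h1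
    have h2 : Tendsto (fun ν => ‖p.p i ν sg - 1‖) (hyperfilter ℕ : Filter ℕ) (𝓝 ‖(1 : ℂ) - 1‖) :=
      (h1.sub_const 1).norm
    rw [sub_self, norm_zero] at h2
    exact h2.eventually_lt_const (by norm_num)
  obtain ⟨Cg, hCg⟩ := G.bdd g (ρ ^ 2)
  set M : ℝ := |Cg| + 1 with hM
  have hM1 : 1 ≤ M := by have := abs_nonneg Cg; linarith
  have hDρ : ∃ w ∈ bal n ρ, eval w G.D ≠ 0 := sym_exists_ne G.D_ne hρ
  have hDh : DifferentiableOn ℂ (fun w => eval w G.D) (bal n ρ) := fun w _ =>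
    (sym_diff_eval G.D w).differentiableWithinAt
  refine ordGe_of_tendsto hρ (l := (hyperfilter ℕ : Filter ℕ)) (F := fun ν => τ ν e)
    (Eventually.of_forall fun ν => (hτ ν).holo e) (hσ.holo e) ?_ hq ?_
  · rw [Metric.tendstoUniformlyOn_iff]
    intro ε hε
    set δ : ℝ := min 1 (ε / (2 * (e + 1) * M ^ e)) with hδ
    have hMe : 0 < M ^ e := by positivity
    have hδ0 : 0 < δ := lt_min one_pos (by positivity)
    filter_upwards [TendsB.unif hFg (ρ ^ 2) hδ0] with ν hν w hw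
    rw [dist_eq_norm]
    have hkey : ∀ w ∈ bal n ρ, eval w G.D ≠ 0 → ‖σ e w - τ ν e w‖ ≤ ε / 2 := by
      intro w hw hD
      obtain ⟨r, hr1, hr2, hr3, hr4⟩ := hσ.spec w hw hD
      obtain ⟨r', hr1', hr2', hr3', hr4'⟩ := (hτ ν).spec w hw hD
      rw [nrm_prod hr4, nrm_prod hr4', ← nrm_reindex hr1 hr2 hr3' (F ν)]
      have hle : ∀ j, nq (proj G.y (r j)) ≤ ρ ^ 2 := fun j => by
        rw [(hr2 j).2]
        exact le_of_lt hw
      have h1 : ∀ j, ‖r j g‖ ≤ M := fun j => by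
        have := hCg (r j) (hle j)
        have := le_abs_self Cg
        linarith
      have h2 : ∀ j, ‖r j g - r j (F ν)‖ ≤ δ := fun j => by
        rw [norm_sub_rev]
        exact hν (r j) (hle j)
      have h3 : ∀ j, ‖r j (F ν)‖ ≤ M := fun j => by
        have h4 := hCg (r j) (hle j)
        have h5 := le_abs_self Cg
        have h6 : ‖r j (F ν)‖ ≤ ‖r j g‖ + ‖r j g - r j (F ν)‖ := by
          calc ‖r j (F ν)‖ = ‖r j g - (r j g - r j (F ν))‖ := by rw [sub_sub_cancel]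
            _ ≤ _ := norm_sub_le _ _
        have h7 : δ ≤ 1 := min_le_left _ _
        have h8 := h2 j
        linarith
      have h4 := nrm_prod_sub (Finset.univ : Finset (Fin e)) hM1 h1 h3 h2
      rw [Finset.card_univ, Fintype.card_fin] at h4
      refine h4.trans ?_
      have h5 : δ ≤ ε / (2 * (e + 1) * M ^ e) := min_le_right _ _
      calc (e : ℝ) * M ^ e * δ ≤ (e + 1) * M ^ e * (ε / (2 * (e + 1) * M ^ e)) := by
            refine mul_le_mul ?_ h5 hδ0.le (by positivity)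
            refine mul_le_mul_of_nonneg_right ?_ hMe.le
            linarith
        _ = ε / 2 := by field_simp
    have hnb : (𝓝[{w | w ∈ bal n ρ ∧ eval w G.D ≠ 0}] w).NeBot := ext_dense hDh hDρ hw
    have hc1 : ContinuousAt (σ e) w :=
      ((hσ.holo e).differentiableAt ((sym_isOpen_bal n ρ).mem_nhds hw)).continuousAt
    have hc2 : ContinuousAt (τ ν e) w :=
      (((hτ ν).holo e).differentiableAt ((sym_isOpen_bal n ρ).mem_nhds hw)).continuousAt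
    have h1 : ‖σ e w - τ ν e w‖ ≤ ε / 2 := by
      have h2 : Tendsto (fun z => ‖σ e z - τ ν e z‖)
          (𝓝[{w | w ∈ bal n ρ ∧ eval w G.D ≠ 0}] w) (𝓝 ‖σ e w - τ ν e w‖) :=
        ((hc1.sub hc2).norm).tendsto.mono_left nhdsWithin_le_nhds
      refine le_of_tendsto h2 ?_
      filter_upwards [self_mem_nhdsWithin (a := w)] with z hz
      exact hkey z hz.1 hz.2
    linarith
  · filter_upwards [hF, hqb, hsg 0, hsg 1] with ν h1 h2 h3 h4
    exact nrm_ord (hτ ν) h2 (p.D_ne ν) (p.proj_p 0 ν) (p.proj_p 1 ν) (p.ne ν) h3 h4 (h1 0) (h1 1)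

end Pool.Agent.Odp3
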