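import Pool.Agent.Odp3.Eq.Idem
import Pool.Agent.Odp3.Eq.Delta
import Pool.Agent.Odp3.Eq.Norm
import Pool.Agent.Odp3.Eq.T5Aux

open scoped ContDiff Topology ENNReal NNReal WithZero
open Set MeasureTheory Filter MvPolynomial Pool.Agent.ODP

namespace Pool.Agent.Odp3

/-- The choice of `j`. -/
theorem t5_choice {e : ℕ} {P : ℕ → ℕ → Prop} (hmono : ∀ i k l, P i k → l ≤ k → P i l)
    {R N₀ : ℕ} (hR : 1 ≤ R) (hN₀ : 1 ≤ N₀) {i₀ : ℕ} (hi₀ : 1 ≤ i₀) (hi₀e : i₀ ≤ e)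
    (h0 : ¬ P i₀ N₀) (he : P e (R ^ e * N₀ + 1)) :
    ∃ j τ, 1 ≤ j ∧ j < e ∧ 1 ≤ τ ∧ ¬ P j (τ + 1) ∧ ∀ i, j + 1 ≤ i → i ≤ e → P i (R * τ) := by
  classical
  set Q : ℕ → Prop := fun i => 1 ≤ i ∧ ¬ P i (R ^ i * N₀ + 1) with hQ
  have hpow : ∀ i, 1 ≤ R ^ i := fun i => Nat.one_le_pow _ _ hR
  have hQ0 : Q i₀ := ⟨hi₀, fun h => h0 (hmono _ _ _ h (by nlinarith [hpow i₀]))⟩
  have hj := Nat.findGreatest_spec hi₀e hQ0
  set j := Nat.findGreatest Q e with hjdef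
  refine ⟨j, R ^ j * N₀, hj.1, ?_, by nlinarith [hpow j], hj.2, fun i hi hie => ?_⟩
  · refine lt_of_le_of_ne (Nat.findGreatest_le e) fun h => hj.2 ?_
    rw [h]
    exact he
  · have h1 : ¬ Q i := Nat.findGreatest_is_greatest (by omega) hie
    have h2 : P i (R ^ i * N₀ + 1) := by
      by_contra h3
      exact h1 ⟨by omega, h3⟩
    refine hmono _ _ _ h2 ?_
    have h3 : R ^ (j + 1) ≤ R ^ i := Nat.pow_le_pow_right hR hi
    calc R * (R ^ j * N₀) = R ^ (j + 1) * N₀ := by ring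
      _ ≤ R ^ i * N₀ := by gcongr
      _ ≤ _ := Nat.le_succ _

theorem t5_not_ordGe_pow {n : ℕ} (hn : 1 ≤ n) {ρ : ℝ} (hρ : 0 < ρ) {f : (Fin n → ℂ) → ℂ}
    (hf : DifferentiableOn ℂ f (bal n ρ)) {τ : ℕ} (h : ¬ OrdGe f (τ + 1)) (N : ℕ) :
    ¬ OrdGe (fun w => f w ^ N) (N * τ + 1) := by
  induction N with
  | zero =>
    rintro ⟨C, r, hr, hC⟩
    have h1 := hC 0 (by
      have : nq (0 : Fin n → ℂ) = 0 := by simp [nq]
      rw [this]; positivity)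
    have h2 : nq (0 : Fin n → ℂ) = 0 := by simp [nq]
    rw [h2] at h1
    norm_num at h1
  | succ N ih =>
    have h1 := not_ordGe_mul hn hρ (hf.pow N) hf ih h
    rw [show (N + 1) * τ + 1 = N * τ + τ + 1 by ring]
    simpa only [pow_succ, Pi.pow_apply] using h1

theorem t5_unif {n : ℕ} {f : ℕ → (Fin n → ℂ) → ℂ} {M : ℕ} (T : Finset ℕ)
    (h : ∀ i ∈ T, OrdGe (f i) M) : ∃ C r : ℝ, 0 ≤ C ∧ 0 < r ∧ ∀ i ∈ T, ∀ w, nq w < r ^ 2 →
      ‖f i w‖ ≤ C * √(nq w) ^ M := by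
  classical
  induction T using Finset.induction_on with
  | empty => exact ⟨0, 1, le_rfl, one_pos, fun i hi => absurd hi (Finset.notMem_empty i)⟩
  | insert a T ha ih =>
    obtain ⟨C, r, hC, hr, hCr⟩ := ih fun i hi => h i (Finset.mem_insert_of_mem hi)
    obtain ⟨C₁, r₁, hr₁, h₁⟩ := h a (Finset.mem_insert_self a T)
    refine ⟨max C C₁, min r r₁, le_max_of_le_left hC, by positivity, fun i hi w hw => ?_⟩
    have hmr : min r r₁ ≤ r := min_le_left _ _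
    have hmr₁ : min r r₁ ≤ r₁ := min_le_right _ _
    have hm0 : 0 < min r r₁ := by positivity
    rcases Finset.mem_insert.1 hi with rfl | hi
    · refine (h₁ w (hw.trans_le (by gcongr))).trans ?_
      gcongr
      exact le_max_right _ _
    · refine (hCr i hi w (hw.trans_le (by gcongr))).trans ?_
      gcongr
      exact le_max_left _ _

theorem t5_isCompact {n : ℕ} (r : ℝ) : IsCompact {w : Fin n → ℂ | nq w ≤ r ^ 2} := by
  refine Metric.isCompact_of_isClosed_isBounded (isClosed_le (by unfold nq; fun_prop)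
    continuous_const) ?_
  refine (Metric.isBounded_closedBall (x := (0 : Fin n → ℂ)) (r := |r|)).subset fun w hw => ?_
  rw [mem_closedBall_zero_iff]
  refine (ordt_norm_le w).trans (Real.sqrt_le_iff.2 ⟨abs_nonneg r, ?_⟩)
  rw [sq_abs]
  exact hw

theorem t5_bdd {n : ℕ} {ρ r : ℝ} (hr : 0 < r) (hrρ : r < ρ) {f : ℕ → (Fin n → ℂ) → ℂ}
    (hf : ∀ i, DifferentiableOn ℂ (f i) (bal n ρ)) (e : ℕ) :
    ∃ C : ℝ, 1 ≤ C ∧ ∀ i ≤ e, ∀ w ∈ bal n r, ‖f i w‖ ≤ C := by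
  have hsub : {w : Fin n → ℂ | nq w ≤ r ^ 2} ⊆ bal n ρ := fun w hw => by
    have h1 : nq w ≤ r ^ 2 := hw
    exact h1.trans_lt (by gcongr)
  have h1 : ∀ i, ∃ C : ℝ, ∀ w ∈ {w : Fin n → ℂ | nq w ≤ r ^ 2}, ‖f i w‖ ≤ C := fun i =>
    (t5_isCompact r).exists_bound_of_continuousOn ((hf i).continuousOn.mono hsub)
  choose C hC using h1
  refine ⟨1 + ∑ i ∈ Finset.range (e + 1), |C i|, ?_, fun i hi w hw => ?_⟩
  · have : 0 ≤ ∑ i ∈ Finset.range (e + 1), |C i| := Finset.sum_nonneg fun _ _ => abs_nonneg _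
    linarith
  · have h2 : |C i| ≤ ∑ i ∈ Finset.range (e + 1), |C i| :=
      Finset.single_le_sum (f := fun i => |C i|) (fun _ _ => abs_nonneg _)
        (Finset.mem_range.2 (Nat.lt_succ_of_le hi))
    have h3 := hC i w (le_of_lt hw : nq w ≤ r ^ 2)
    have h4 := le_abs_self (C i)
    linarith

variable {n d : ℕ} {B : Type} [CommRing B] [IsDomain B] [Algebra ℂ B] {G : Germ n d B} {x : Pt B}
  {h : B} {s κ : ℝ} {sg : B} {m : ℕ} {ρ₁ : ℝ}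

omit [IsDomain B] in
/-- The contradiction from a gap in the orders of the symmetric functions. -/
theorem t5_main (hn : 1 ≤ n) {C' ρ₂ : ℝ}
    (hidem : ∀ ρ : ℝ, 0 < ρ → ρ ≤ ρ₂ →
      ∀ (A : (Fin n → ℂ) → ℂ) (o : ℕ) (f₁ f₂ : Pt B → ℂ) (M : ℕ),
      IsPair G sg ρ A o f₁ f₂ M → C' * o ≤ M →
      ∀ (θ : Fin n → ℂ) (ε t₀ : ℝ), 0 < ε → ε < ‖θ‖ / 2 → 0 < t₀ → cone θ ε t₀ ⊆ bal n ρ →
      ¬ ((∀ w ∈ cone θ ε t₀, eval w G.D ≠ 0 → ∃ χ ∈ UU G sg ρ, proj G.y χ = w ∧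
            2 * ‖f₂ χ‖ ≤ ‖f₁ χ‖) ∧
          ∀ w ∈ cone θ ε t₀, eval w G.D ≠ 0 → ∃ χ ∈ UU G sg ρ, proj G.y χ = w ∧
            2 * ‖f₁ χ‖ ≤ ‖f₂ χ‖))
    {e : ℕ} {ρ : ℝ} (hρ : 0 < ρ) (hρ2 : ρ ≤ ρ₂) {g : B} {σ : ℕ → (Fin n → ℂ) → ℂ}
    (hσ : IsSym G sg e ρ g σ) {j N τ M : ℕ} (hj : 1 ≤ j) (hN : 1 ≤ N) (he : e = j + N)
    (hτ : 1 ≤ τ) (hM : 2 * (j + N) * τ + 1 ≤ M) (hCM : C' * (N * τ : ℕ) ≤ M)
    (h1 : ¬ OrdGe (σ j) (τ + 1)) (h2 : ∀ i, j + 1 ≤ i → i ≤ e → OrdGe (σ i) M) : False := by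
  subst he
  obtain ⟨C₂, r₂, hC₂, hr₂, h₂⟩ := t5_unif (f := σ) (M := M) (Finset.Icc (j + 1) (j + N))
    fun i hi => h2 i (Finset.mem_Icc.1 hi).1 (Finset.mem_Icc.1 hi).2
  set ρ' : ℝ := min (ρ / 2) r₂ with hρ'
  have hρ'0 : 0 < ρ' := by positivity
  have hρ'ρ : ρ' < ρ := lt_of_le_of_lt (min_le_left _ _) (by linarith)
  have hρ'r : ρ' ≤ r₂ := min_le_right _ _
  have hbal : bal n ρ' ⊆ bal n ρ := fun w hw => by
    have h3 : nq w < ρ' ^ 2 := hw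
    exact h3.trans (by gcongr)
  obtain ⟨C₁, hC₁, h₁⟩ := t5_bdd hρ'0 hρ'ρ hσ.holo (j + N)
  have he1 : (1 : ℝ) ≤ ((j + N : ℕ) : ℝ) := by exact_mod_cast (by omega : 1 ≤ j + N)
  set C : ℝ := 1 + (j + N : ℕ) * C₁ + C₂ with hC
  have hC1 : 1 ≤ C := by
    have : 0 ≤ ((j + N : ℕ) : ℝ) * C₁ := by positivity
    linarith
  have hC₁C : C₁ ≤ C := by nlinarith
  have hC₂C : C₂ ≤ C := by
    have : 0 ≤ ((j + N : ℕ) : ℝ) * C₁ := by positivity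
    linarith
  -- the values of the symmetric functions
  have hsC : ∀ w ∈ bal n ρ', ∀ i ≤ j + N, ‖σ i w‖ ≤ C := fun w hw i hi =>
    (h₁ i hi w hw).trans hC₁C
  have hsM : ∀ w ∈ bal n ρ', ∀ i, j + 1 ≤ i → i ≤ j + N → ‖σ i w‖ ≤ C * √(nq w) ^ M :=
    fun w hw i hi hi' => by
      refine (h₂ i (Finset.mem_Icc.2 ⟨hi, hi'⟩) w ?_).trans (by gcongr)
      have h3 : nq w < ρ' ^ 2 := hw
      exact h3.trans_le (by gcongr)
  have hgC : ∀ (w : Fin n → ℂ) (r : Fin (j + N) → ℂ), w ∈ bal n ρ' →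
      ∏ i, (Polynomial.X - Polynomial.C (r i)) = ∑ i ∈ Finset.range (j + N + 1),
        Polynomial.C ((-1) ^ i * σ i w) * Polynomial.X ^ (j + N - i) → ∀ i, ‖r i‖ ≤ C := by
    intro w r hw hprod i
    have h3 := t5_root_le (s := fun i => σ i w) (C := C₁) (by omega : 1 ≤ j + N)
      (hσ.zero w (hbal hw)) (fun i hi => h₁ i hi w hw)
      (t5_root_of_prod (s := fun i => σ i w) hprod i)
    linarith
  obtain ⟨K, hK1, hK⟩ := t5_bounds j N hj hN hC1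
  -- the functions
  set A : (Fin n → ℂ) → ℂ := fun w => t5S (fun i => σ i w) j ^ N with hA
  set f₁ : Pt B → ℂ := fun χ => t5f (fun i => σ i (proj G.y χ)) j N (χ g) with hf₁
  set f₂ : Pt B → ℂ := fun χ => t5g (fun i => σ i (proj G.y χ)) j N (χ g) with hf₂
  have hVV : ∀ χ ∈ VV G sg (fun w => eval w G.D) ρ',
      ‖f₁ χ‖ ≤ K ∧ ‖f₂ χ‖ ≤ K ∧ ‖f₁ χ * f₂ χ‖ ≤ K * (C * √(nq (proj G.y χ)) ^ M) := by
    intro χ hχ
    obtain ⟨hχ1, hχ2, hχ3⟩ := hχ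
    have hw : proj G.y χ ∈ bal n ρ' := hχ1
    obtain ⟨r, -, -, hr3, hr4⟩ := hσ.spec _ (hbal hw) hχ2
    have hχU : χ ∈ UU G sg ρ := ⟨hbal hw, hχ3⟩
    obtain ⟨i₀, hi₀⟩ := hr3 χ hχU rfl
    have h3 := hgC _ (fun i => r i g) hw hr4 i₀
    have h4 := t5_root_of_prod (s := fun i => σ i (proj G.y χ)) hr4 i₀
    rw [hi₀] at h3 h4
    have h5 := hK (fun i => σ i (proj G.y χ)) (χ g) (C * √(nq (proj G.y χ)) ^ M) (by positivity)
      (hsC _ hw) h3 (hsM _ hw) h4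
    exact ⟨h5.2.1, h5.2.2.1, h5.2.2.2.2.2⟩
  have hSdiff : DifferentiableOn ℂ (fun w => t5S (fun i => σ i w) j) (bal n ρ) := by
    unfold t5S
    exact (hσ.holo j).const_mul _
  have hHol : ∀ Ω (sec : (Fin n → ℂ) → Pt B), IsSec G (VV G sg (fun w => eval w G.D) ρ') Ω sec →
      DifferentiableOn ℂ (fun w => f₁ (sec w)) Ω := by
    intro Ω sec hsec
    have hΩ : Ω ⊆ bal n ρ := fun w hw => by
      have h3 := (hsec.mem w hw).1
      rw [hsec.proj w hw] at h3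
      exact hbal h3
    have h3 : ∀ i, DifferentiableOn ℂ (σ i) Ω := fun i => (hσ.holo i).mono hΩ
    have h4 := hsec.holo g
    have h5 : DifferentiableOn ℂ (fun w => t5f (fun i => σ i w) j N (sec w g)) Ω := by
      unfold t5f t5H
      refine ((h4.mul (DifferentiableOn.fun_sum fun i _ => ?_)).neg).pow N
      exact (((h3 i).const_mul _).mul (h4.pow _))
    refine h5.congr fun w hw => ?_
    simp only [hf₁, hsec.proj w hw]
  have hpair : IsPair G sg ρ' A (N * τ) f₁ f₂ M :=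
    { A_holo := (hSdiff.mono hbal).pow N
      o_pos := Nat.one_le_iff_ne_zero.2 (Nat.mul_ne_zero (by omega) (by omega))
      A_ord := by
        refine t5_not_ordGe_pow hn hρ hSdiff ?_ N
        rintro ⟨C₃, r₃, hr₃, h₃⟩
        refine h1 ⟨C₃, r₃, hr₃, fun w hw => ?_⟩
        have h4 : ‖t5S (fun i => σ i w) j‖ ≤ C₃ * √(nq w) ^ (τ + 1) := h₃ w hw
        rwa [t5S, norm_mul, norm_pow, norm_neg, norm_one, one_pow, one_mul] at h4
      holo₁ := hHol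
      holo₂ := by
        intro Ω sec hsec
        have hΩ : Ω ⊆ bal n ρ := fun w hw => by
          have h3 := (hsec.mem w hw).1
          rw [hsec.proj w hw] at h3
          exact hbal h3
        have h3 : DifferentiableOn ℂ (fun w => A w - f₁ (sec w)) Ω :=
          ((hSdiff.mono hΩ).pow N).sub (hHol Ω sec hsec)
        refine h3.congr fun w hw => ?_
        simp only [hf₂, hf₁, hA, t5g, hsec.proj w hw]
      bdd := ⟨K, fun χ hχ => ⟨(hVV χ hχ).1, (hVV χ hχ).2.1⟩⟩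
      sum := fun χ _ => by simp only [hf₂, hf₁, hA, t5g]; ring
      mul := ⟨K * C, fun χ hχ => by
        rw [mul_assoc]
        exact (hVV χ hχ).2.2⟩ }
  -- the cone
  obtain ⟨θ, ε, t₀, c, hε, hεθ, ht₀, hc, hcone, hlow⟩ := exists_cone hn hρ'0 ({()} : Finset Unit)
    (fun _ => σ j) (fun _ => τ) (fun _ _ => (hσ.holo j).mono hbal) (fun _ _ => h1)
  obtain ⟨r₀, hr₀, hkinds⟩ := t5_kinds j N M τ hj hN hM hC1 hc
  set t₁ : ℝ := min t₀ (r₀ / ((n + 1) * (‖θ‖ + ε))) with ht₁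
  have hθ : 0 < ‖θ‖ := by linarith
  have ht₁0 : 0 < t₁ := by positivity
  have hsub : cone θ ε t₁ ⊆ cone θ ε t₀ := by
    rintro w ⟨t, v, ht, ht', hv, rfl⟩
    exact ⟨t, v, ht, ht'.trans_le (min_le_left _ _), hv, rfl⟩
  have hsmall : ∀ w ∈ cone θ ε t₁, 0 < √(nq w) ∧ √(nq w) ≤ r₀ := by
    rintro w ⟨t, v, ht, ht', hv, rfl⟩
    have hv0 : v ≠ 0 := by
      rintro rfl
      rw [zero_sub, norm_neg] at hv
      linarith
    constructor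
    · have h3 := ordt_norm_le ((t : ℂ) • v)
      have h4 : 0 < ‖(t : ℂ) • v‖ := norm_pos_iff.2 (smul_ne_zero (by exact_mod_cast ht.ne') hv0)
      linarith
    · have h3 := ordt_nq_le ((t : ℂ) • v)
      have h4 : ‖(t : ℂ) • v‖ = t * ‖v‖ := by
        rw [norm_smul, Complex.norm_real, Real.norm_of_nonneg ht.le]
      have h5 : ‖v‖ ≤ ‖θ‖ + ε := by
        calc ‖v‖ = ‖(v - θ) + θ‖ := by rw [sub_add_cancel]
          _ ≤ ‖v - θ‖ + ‖θ‖ := norm_add_le _ _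
          _ ≤ _ := by linarith
      have h6 : t * ((n + 1) * (‖θ‖ + ε)) ≤ r₀ := by
        have := ht'.le.trans (min_le_right _ _)
        rwa [le_div_iff₀ (by positivity)] at this
      rw [Real.sqrt_le_iff]
      refine ⟨hr₀.le, h3.trans ?_⟩
      rw [h4]
      have h7 : (n : ℝ) ≤ (n + 1) ^ 2 := by nlinarith [(Nat.cast_nonneg n : (0 : ℝ) ≤ n)]
      calc (n : ℝ) * (t * ‖v‖) ^ 2 ≤ (n + 1) ^ 2 * (t * (‖θ‖ + ε)) ^ 2 := by gcongr
        _ = (t * ((n + 1) * (‖θ‖ + ε))) ^ 2 := by ring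
        _ ≤ r₀ ^ 2 := by gcongr
  have hboth : ∀ w ∈ cone θ ε t₁, eval w G.D ≠ 0 →
      (∃ χ ∈ UU G sg ρ', proj G.y χ = w ∧ 2 * ‖f₂ χ‖ ≤ ‖f₁ χ‖) ∧
        ∃ χ ∈ UU G sg ρ', proj G.y χ = w ∧ 2 * ‖f₁ χ‖ ≤ ‖f₂ χ‖ := by
    intro w hw hD
    have hwb : w ∈ bal n ρ' := hcone (hsub hw)
    obtain ⟨r, -, hr2, -, hr4⟩ := hσ.spec w (hbal hwb) hD
    have h3 := hkinds (√(nq w)) (fun i => σ i w) (fun i => r i g) (hsmall w hw).1 (hsmall w hw).2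
      (hsC w hwb) (hgC w _ hwb hr4) (hsM w hwb) (hlow w (hsub hw) () (Finset.mem_singleton_self _))
      hr4
    obtain ⟨⟨i₁, hi₁⟩, i₂, hi₂⟩ := h3
    have hmem : ∀ i, r i ∈ UU G sg ρ' := fun i => by
      refine ⟨?_, (hr2 i).1.2⟩
      rw [(hr2 i).2]
      exact hwb
    refine ⟨⟨r i₁, hmem i₁, (hr2 i₁).2, ?_⟩, r i₂, hmem i₂, (hr2 i₂).2, ?_⟩
    · simp only [hf₁, hf₂, (hr2 i₁).2]
      exact hi₁
    · simp only [hf₁, hf₂, (hr2 i₂).2]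
      exact hi₂
  exact hidem ρ' hρ'0 (hρ'ρ.le.trans hρ2) A (N * τ) f₁ f₂ M hpair hCM θ ε t₁ hε hεθ ht₁0
    (hsub.trans hcone) ⟨fun w hw hD => (hboth w hw hD).1, fun w hw hD => (hboth w hw hD).2⟩

/-- T5: with at least three sheets small elements do not exist. -/
theorem no_small (H : Std G x h s κ sg m ρ₁) (p : Pts G x) {e : ℕ} (he : IsNum G sg e)
    (h3 : 3 ≤ e) {z : B} (hz : x z = 0) (hz1 : z ∉ JI p (one n) 1) :
    ∃ (b : B) (ε : ℝ) (k₀ : ℕ), 0 < ε ∧ ∀ k, k₀ ≤ k →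
      ∀ a₂ a₁ a₀ : MvPolynomial (Fin n) ℂ, a₂ ≠ 0 → (a₂.totalDegree : ℝ) ≤ ε * k →
        aeval G.y a₂ * b - aeval G.y a₁ * z - aeval G.y a₀ ∉ JI p (one n) k := by
  obtain ⟨C', ρa, hC', hρa, hidem⟩ := idem H
  obtain ⟨ρb, hρb, hdelta⟩ := exists_delta H p he h3 hz hz1
  obtain ⟨ρc, hρc, hnorm⟩ := norm_ordGe H p he
  obtain ⟨ρd, hρd, hsym⟩ := exists_sym H he
  set ρ : ℝ := min (min ρa ρb) (min ρc ρd) with hρ
  have hρ0 : 0 < ρ := by positivity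
  have h1 : ρ ≤ ρa := (min_le_left _ _).trans (min_le_left _ _)
  have h2 : ρ ≤ ρb := (min_le_left _ _).trans (min_le_right _ _)
  have h3' : ρ ≤ ρc := (min_le_right _ _).trans (min_le_left _ _)
  have h4 : ρ ≤ ρd := (min_le_right _ _).trans (min_le_right _ _)
  obtain ⟨b, c₀, hb⟩ := hdelta ρ hρ0 h2
  replace hnorm := hnorm ρ hρ0 h3'
  replace hsym := hsym ρ hρ0 h4
  set R : ℕ := ⌈C' * e⌉₊ + 2 * e + 1 with hR
  have hR1 : 1 ≤ R := by omega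
  have he0 : (0 : ℝ) < e := by exact_mod_cast (by omega : 0 < e)
  have hR0 : (0 : ℝ) < R := by exact_mod_cast hR1
  refine ⟨b, 1 / (R ^ e * e), R ^ e * (e * c₀ + 1) + 1, by positivity, ?_⟩
  intro k hk a₂ a₁ a₀ ha₂ hdeg hmem
  obtain ⟨σ, hσ⟩ := hsym (aeval G.y a₂ * b - aeval G.y a₁ * z - aeval G.y a₀)
  have hσe := hnorm _ σ k hσ hmem
  have hdeg' : R ^ e * e * a₂.totalDegree ≤ k := by
    have h5 : (R : ℝ) ^ e * e * a₂.totalDegree ≤ k := by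
      calc (R : ℝ) ^ e * e * a₂.totalDegree ≤ R ^ e * e * (1 / (R ^ e * e) * k) := by gcongr
        _ = k := by field_simp
    exact_mod_cast h5
  have hex : ∃ i₀, 1 ≤ i₀ ∧ i₀ ≤ e ∧ ¬ OrdGe (σ i₀) (e * (a₂.totalDegree + c₀) + 1) := by
    by_contra hcon
    push Not at hcon
    have := hb a₂ a₁ a₀ σ _ ha₂ hσ hcon
    omega
  obtain ⟨i₀, hi₀, hi₀e, hi₀n⟩ := hex
  obtain ⟨j, τ, hj, hje, hτ, hjn, hji⟩ := t5_choice (P := fun i k => OrdGe (σ i) k)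
    (fun i k l hik hl => hik.mono hl) hR1 (Nat.le_add_left 1 _) hi₀ hi₀e hi₀n
    (hσe.mono (by
      calc R ^ e * (e * (a₂.totalDegree + c₀) + 1) + 1
          = R ^ e * e * a₂.totalDegree + (R ^ e * (e * c₀ + 1) + 1) := by ring
        _ ≤ k + k := by omega
        _ = 2 * k := by ring))
  refine t5_main (C' := C') (ρ₂ := ρa) (by have := H.hn; omega) hidem hρ0 h1 hσ hj
    (N := e - j) (by omega) (by omega) hτ (M := R * τ) ?_ ?_ hjn hji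
  · rw [show j + (e - j) = e by omega]
    calc 2 * e * τ + 1 ≤ 2 * e * τ + τ := by omega
      _ = (2 * e + 1) * τ := by ring
      _ ≤ R * τ := Nat.mul_le_mul_right _ (by omega)
  · push_cast
    rw [← mul_assoc]
    refine mul_le_mul_of_nonneg_right ?_ (Nat.cast_nonneg τ)
    calc C' * ((e - j : ℕ) : ℝ) ≤ C' * e := by
          gcongr
          exact_mod_cast Nat.sub_le e j
      _ ≤ ⌈C' * e⌉₊ := Nat.le_ceil _
      _ ≤ R := by exact_mod_cast (by omega)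

end Pool.Agent.Odp3
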