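import Pool.Agent.Odp3.Defs
import Pool.Agent.Odp3.Alg.Sep
import Pool.Agent.Odp3.Alg.Cf
import Pool.Agent.Odp3.Alg.ARees
import Pool.Agent.Odp3.An.Taylor
import Pool.Agent.Odp3.Pt.Bdd
import Pool.Agent.Odp2.An.Ext

open scoped ContDiff Topology ENNReal NNReal WithZero
open Set MeasureTheory Filter MvPolynomial Pool.Agent.ODP

namespace Pool.Agent.Odp3

theorem lemZ_diff {n : ℕ} (D : MvPolynomial (Fin n) ℂ) :
    Differentiable ℂ fun w : Fin n → ℂ => eval w D := by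
  induction D using MvPolynomial.induction_on with
  | C a => simp
  | add p q hp hq =>
    simp only [map_add]
    exact hp.add hq
  | mul_X p i hp =>
    simp only [map_mul, eval_X]
    exact hp.mul (differentiable_apply i)

theorem lemZ_ne {n : ℕ} {D : MvPolynomial (Fin n) ℂ} (hD : D ≠ 0) {ρ : ℝ} (hρ : 0 < ρ) :
    ∃ w ∈ bal n ρ, eval w D ≠ 0 := by
  by_contra! hcon
  apply hD
  have hinf : ∀ _ : Fin n, (Metric.ball (0 : ℂ) (ρ / (n + 1))).Infinite := fun _ => by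
    have hpos : 0 < ρ / (n + 1) := by positivity
    exact infinite_of_mem_nhds (0 : ℂ) (Metric.ball_mem_nhds _ hpos)
  refine MvPolynomial.funext_set (fun _ : Fin n => Metric.ball (0 : ℂ) (ρ / (n + 1))) hinf ?_
  intro w hw
  rw [map_zero]
  apply hcon
  have h3 : nq w ≤ ∑ _j : Fin n, (ρ / (n + 1)) ^ 2 :=
    Finset.sum_le_sum fun j _ => by
      have := hw j (Set.mem_univ _)
      rw [mem_ball_zero_iff] at this
      have := this.le
      gcongr
  rw [Finset.sum_const, Finset.card_univ, Fintype.card_fin, nsmul_eq_mul] at h3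
  refine h3.trans_lt ?_
  have hn : (0:ℝ) < n + 1 := by positivity
  rw [div_pow, ← mul_div_assoc, div_lt_iff₀ (by positivity)]
  nlinarith [sq_pos_of_pos hρ, sq_nonneg (n:ℝ)]

/-- A bound on the points over `{D ≠ 0}` gives a bound of the coordinates. -/
theorem lemZ_cf {n d : ℕ} {B : Type} [CommRing B] [Algebra ℂ B] (G : Germ n d B) {g : B}
    {C r : ℝ} {K : ℕ} (hr : 0 < r) (hr1 : r ≤ 1)
    (hg : ∀ χ : Pt B, nq (proj G.y χ) < r ^ 2 → eval (proj G.y χ) G.D ≠ 0 →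
      ‖χ g‖ ≤ C * √(nq (proj G.y χ)) ^ K) (i : Fin d) :
    G.cf g i ∈ idealOfVars (Fin n) ℂ ^ K := by
  have hd : 0 < d := i.pos
  obtain ⟨Cu, hCu⟩ := G.bdd (G.du i) 1
  have hr2 : r ^ 2 ≤ 1 := by nlinarith
  -- where `D` does not vanish
  have key : ∀ w : Fin n → ℂ, nq w < r ^ 2 → eval w G.D ≠ 0 →
      ‖eval w (G.cf g i)‖ ≤ d * (|Cu| * |C|) * √(nq w) ^ K := by
    intro w hw hD
    have hfin := G.finite_fibre hD hd
    have hS : ∀ χ, χ ∈ hfin.toFinset ↔ proj G.y χ = w := fun χ => hfin.mem_toFinset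
    rw [← G.cf_pt hD hfin.toFinset hS g i]
    have hcard : hfin.toFinset.card = d := by
      rw [← Set.ncard_eq_toFinset_card _ hfin, G.card w hD]
    refine (norm_sum_le _ _).trans ?_
    calc ∑ χ ∈ hfin.toFinset, ‖χ (G.du i) * χ g‖
        ≤ ∑ _χ ∈ hfin.toFinset, |Cu| * (|C| * √(nq w) ^ K) := by
          refine Finset.sum_le_sum fun χ hχ => ?_
          have hχw : proj G.y χ = w := (hS χ).1 hχ
          rw [norm_mul]
          have h1 : ‖χ (G.du i)‖ ≤ |Cu| :=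
            (hCu χ (by rw [hχw]; exact hw.le.trans hr2)).trans (le_abs_self _)
          have h2 : ‖χ g‖ ≤ |C| * √(nq w) ^ K := by
            have h3 := hg χ (by rw [hχw]; exact hw) (by rw [hχw]; exact hD)
            rw [hχw] at h3
            exact h3.trans (mul_le_mul_of_nonneg_right (le_abs_self _) (by positivity))
          exact mul_le_mul h1 h2 (norm_nonneg _) (abs_nonneg _)
      _ = _ := by
          rw [Finset.sum_const, hcard, nsmul_eq_mul]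
          ring
  refine mem_pow_of_le (C := d * (|Cu| * |C|)) hr fun w hw => ?_
  have hwb : w ∈ bal n r := hw
  have hnb : (𝓝[{w | w ∈ bal n r ∧ eval w G.D ≠ 0}] w).NeBot :=
    Odp2.ext_dense (Q := fun w => eval w G.D) (lemZ_diff G.D).differentiableOn
      (lemZ_ne G.D_ne hr) hwb
  have c1 : Continuous fun w : Fin n → ℂ => ‖eval w (G.cf g i)‖ :=
    (MvPolynomial.continuous_eval _).norm
  have c2 : Continuous fun w : Fin n → ℂ => d * (|Cu| * |C|) * √(nq w) ^ K := by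
    have := Odp2.ext_nq_cont (n := n)
    fun_prop
  have t1 := (c1.tendsto w).mono_left
    (nhdsWithin_le_nhds (s := {w | w ∈ bal n r ∧ eval w G.D ≠ 0}))
  have t2 := (c2.tendsto w).mono_left
    (nhdsWithin_le_nhds (s := {w | w ∈ bal n r ∧ eval w G.D ≠ 0}))
  refine le_of_tendsto_of_tendsto t1 t2 ?_
  filter_upwards [self_mem_nhdsWithin] with w' hw'
  exact key w' hw'.1 hw'.2

/-- Lemma Z: an element of `B` which is `O(|y|^(M + c₁))` on the sheets near `x` lies in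
`(y)^M B_x`. -/
theorem lemZ {n d : ℕ} {B : Type} [CommRing B] [IsDomain B] [IsIntegrallyClosed B] [Algebra ℂ B]
    {G : Germ n d B} {x : Pt B} {sg : B} {m : ℕ} (hm : 1 ≤ m) (hsg : IsSep G x m sg) :
    ∃ c₁ : ℕ, ∀ (M : ℕ) (f : B),
      (∃ C ρ : ℝ, 0 < ρ ∧ ∀ χ ∈ UU G sg ρ, eval (proj G.y χ) G.D ≠ 0 →
        ‖χ f‖ ≤ C * √(nq (proj G.y χ)) ^ (M + c₁)) →
      ∃ t : B, x t ≠ 0 ∧ t * f ∈ Ideal.span (Set.range G.y) ^ M := by
  classical
  have _ := hm
  let _ : Algebra (MvPolynomial (Fin n) ℂ) B :=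
    (aeval G.y : MvPolynomial (Fin n) ℂ →ₐ[ℂ] B).toRingHom.toAlgebra
  have hal : ∀ p, algebraMap (MvPolynomial (Fin n) ℂ) B p = aeval G.y p := fun _ => rfl
  let A : B →ₗ[MvPolynomial (Fin n) ℂ] (Fin d → MvPolynomial (Fin n) ℂ) :=
    { toFun := G.cf
      map_add' := G.cf_add
      map_smul' := fun p b => by
        funext i
        rw [Algebra.smul_def, hal, G.cf_aeval_mul]
        rfl }
  obtain ⟨c₁, hc₁⟩ := artinRees_lift (idealOfVars (Fin n) ℂ) A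
  refine ⟨c₁, fun M f ⟨C, ρ, hρ, hf⟩ => ?_⟩
  obtain ⟨s', hs'⟩ := G.exists_sep x hsg.x_y (M + c₁ + 1)
  refine ⟨s', by rw [hs'.x_sg]; exact one_ne_zero, ?_⟩
  obtain ⟨ρ₀, C₀, hρ₀, hdich⟩ := hs'.dich (by omega)
  obtain ⟨ρ₂, hρ₂, hten⟩ := hs'.tends (by omega) sg (ε := 1 / 2) (by norm_num)
  obtain ⟨Cf, hCf⟩ := G.bdd f 1
  obtain ⟨r, hr, hr1, hrρ, hrρ₀, hrρ₂⟩ : ∃ r : ℝ, 0 < r ∧ r ≤ 1 ∧ r ≤ ρ ∧ r ≤ ρ₀ ∧ r ≤ ρ₂ := by
    refine ⟨min 1 (min ρ (min ρ₀ ρ₂)), by positivity, ?_, ?_, ?_, ?_⟩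
    all_goals simp
  have hsq : ∀ a : ℝ, r ≤ a → r ^ 2 ≤ a ^ 2 := fun a ha => by gcongr
  have hall : ∀ χ : Pt B, nq (proj G.y χ) < r ^ 2 → eval (proj G.y χ) G.D ≠ 0 →
      ‖χ (s' * f)‖ ≤ (2 * |C| + |C₀| * |Cf|) * √(nq (proj G.y χ)) ^ (M + c₁) := by
    intro χ hχ hD
    have hq0 : 0 ≤ √(nq (proj G.y χ)) := Real.sqrt_nonneg _
    have hq1 : √(nq (proj G.y χ)) ≤ 1 := by
      rw [Real.sqrt_le_one]
      have := hsq 1 hr1
      linarith
    have hpow : 0 ≤ √(nq (proj G.y χ)) ^ (M + c₁) := by positivity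
    have hnq1 : nq (proj G.y χ) ≤ 1 := by
      have := hsq 1 hr1
      linarith
    rw [map_mul, norm_mul]
    rcases hdich χ (hχ.trans_le (hsq ρ₀ hrρ₀)) with ⟨h1, -⟩ | ⟨-, h2⟩
    · have h3 : χ ∈ UU G s' ρ₂ := ⟨hχ.trans_le (hsq ρ₂ hrρ₂), h1.trans (by norm_num)⟩
      have h4 := hten χ h3
      rw [hsg.x_sg] at h4
      have h5 := hf χ ⟨hχ.trans_le (hsq ρ hrρ), h4⟩ hD
      have h6 : ‖χ s'‖ ≤ 2 := by
        calc ‖χ s'‖ = ‖(χ s' - 1) + 1‖ := by rw [sub_add_cancel]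
          _ ≤ ‖χ s' - 1‖ + ‖(1 : ℂ)‖ := norm_add_le _ _
          _ ≤ 2 := by rw [norm_one]; linarith
      calc ‖χ s'‖ * ‖χ f‖ ≤ 2 * (|C| * √(nq (proj G.y χ)) ^ (M + c₁)) := by
            refine mul_le_mul h6 (h5.trans ?_) (norm_nonneg _) (by norm_num)
            exact mul_le_mul_of_nonneg_right (le_abs_self _) hpow
        _ ≤ _ := by
            have : 0 ≤ |C₀| * |Cf| * √(nq (proj G.y χ)) ^ (M + c₁) := by positivity
            linarith
    · have h3 : ‖χ f‖ ≤ |Cf| := (hCf χ hnq1).trans (le_abs_self _)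
      have h4 : ‖χ s'‖ ≤ |C₀| * √(nq (proj G.y χ)) ^ (M + c₁) := by
        refine h2.trans ?_
        rw [pow_succ, ← mul_assoc]
        calc C₀ * √(nq (proj G.y χ)) ^ (M + c₁) * √(nq (proj G.y χ))
            ≤ |C₀| * √(nq (proj G.y χ)) ^ (M + c₁) * √(nq (proj G.y χ)) := by
              gcongr
              exact le_abs_self _
          _ ≤ |C₀| * √(nq (proj G.y χ)) ^ (M + c₁) * 1 := by gcongr
          _ = _ := mul_one _
      calc ‖χ s'‖ * ‖χ f‖ ≤ (|C₀| * √(nq (proj G.y χ)) ^ (M + c₁)) * |Cf| :=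
            mul_le_mul h4 h3 (norm_nonneg _) (by positivity)
        _ ≤ _ := by
            have : 0 ≤ |C| * √(nq (proj G.y χ)) ^ (M + c₁) := by positivity
            linarith
  obtain ⟨g, hg, hgf⟩ := hc₁ M (s' * f) ((mem_smul_top_pi_iff _ _).2 fun i =>
    lemZ_cf G hr hr1 hall i)
  have hgf' : g = s' * f := by
    rw [← sub_eq_zero]
    refine G.cf_inj fun i => ?_
    have h1 : A (g - s' * f) = 0 := by rw [map_sub, hgf, sub_self]
    exact congrFun h1 i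
  rw [hgf'] at hg
  rw [Ideal.smul_top_eq_map] at hg
  have h2 : s' * f ∈ Ideal.map (algebraMap (MvPolynomial (Fin n) ℂ) B)
      (idealOfVars (Fin n) ℂ ^ M) := hg
  rw [Ideal.map_pow] at h2
  have h3 : Ideal.map (algebraMap (MvPolynomial (Fin n) ℂ) B) (idealOfVars (Fin n) ℂ) =
      Ideal.span (Set.range G.y) := by
    rw [idealOfVars, Ideal.map_span, ← Set.range_comp]
    congr 2
    funext i
    exact aeval_X G.y i
  rwa [h3] at h2

end Pool.Agent.Odp3
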