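import Pool.Agent.Odp3.Eq.T7
import Pool.Agent.Odp3.Eq.T5
import Pool.Agent.Odp3.Eq.T4
import Pool.Agent.Odp3.Main.Setup
import Pool.Agent.Odp3.Main.SetupB
import Pool.Agent.Odp3.Pt.Sheets

open scoped ContDiff Topology ENNReal NNReal WithZero
open Set MeasureTheory Filter MvPolynomial Pool.Agent.ODP

namespace Pool.Agent.Odp3

/-- The equality case, from the standing hypotheses. -/
theorem Std.strict {n d : ℕ} {B : Type} [CommRing B] [IsDomain B] [Algebra ℂ B]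
    {G : Germ n d B} {x : Pt B} {h : B} {s κ : ℝ} {sg : B} {m : ℕ} {ρ₁ : ℝ}
    (H : Std G x h s κ sg m ρ₁) {e : ℕ} (he : IsNum G sg e) (h2 : 2 ≤ e)
    (hnode : ¬ IsNodeAt n (RingHom.ker x)) : Strict G x h s := by
  obtain ⟨p⟩ := exists_pts G x H.sep.x_y H.hm H.sep he h2
  obtain ⟨z, hz, hz1⟩ := exists_z p
  by_contra hns
  rcases h2.eq_or_lt with he2 | he3
  · subst he2
    exact hnode (node_of_two H p he rfl hns)
  · obtain ⟨b, ε, k₀, hε, hb⟩ := no_small H p he he3 hz hz1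
    obtain ⟨k, hk, a₂, a₁, a₀, ha, hdeg, hmem⟩ := exists_small H p hns hz hz1 b hε k₀
    exact hb k hk a₂ a₁ a₀ ha hdeg hmem

/-- The equality case. -/
theorem nvol_lt_two_mul {n : ℕ} (hn : 2 ≤ n) {B K : Type} [CommRing B] [IsDomain B]
    [IsIntegrallyClosed B] [Algebra ℂ B] [Field K] [Algebra B K] [IsFractionRing B K]
    [Algebra ℂ K] [IsScalarTower ℂ B K] (y : Fin n → B)
    (hfin : (aeval y : MvPolynomial (Fin n) ℂ →ₐ[ℂ] B).toRingHom.Finite)
    (hy : AlgebraicIndependent ℂ y) (x : Pt B)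
    (hx : proj y x = 0) (hred : IsReductionAt (RingHom.ker x) y) (r : ℕ) (hr : 0 < r) (h : B)
    (hK : IsRCanonicalAt ℂ (RingHom.ker x) (fun i => algebraMap B K (y i)) r (algebraMap B K h))
    (hklt : IsKltAt y h (1 / (r : ℝ)) x) (hsing : n < embDim (RingHom.ker x))
    (hnode : ¬ IsNodeAt n (RingHom.ker x)) :
    nvol y h (1 / (r : ℝ)) x < ENNReal.ofReal (2 * ((n : ℝ) - 1) ^ n) := by
  obtain ⟨d, G, m, sg, κ, ρ₁, rfl, H⟩ := exists_std hn y hfin hy x hx hred r hr h hK hklt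
  obtain ⟨e, he⟩ := H.sep.sheets H.hm
  exact H.strict he (two_le_num H.hm H.sep he (exists_sym H he) hsing) hnode

end Pool.Agent.Odp3
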