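import Pool.Agent.Odp3.Eq.Defs
import Pool.Agent.Odp3.Lim.Ideal

open scoped ContDiff Topology ENNReal NNReal WithZero
open Set MeasureTheory Filter MvPolynomial Pool.Agent.ODP

namespace Pool.Agent.Odp3

variable {n d : ℕ} {B : Type} [CommRing B] [IsDomain B] [Algebra ℂ B] {G : Germ n d B} {x : Pt B}
  {h : B} {s κ : ℝ} {sg : B} {m : ℕ} {ρ₁ : ℝ}

/-! ### Auxiliary facts on `JI` -/

theorem gt_JI_zero (p : Pts G x) (a : Fin n → ℕ) : JI p a 0 = ⊤ := by
  rw [Ideal.eq_top_iff_one]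
  have h1 := mono_mem_JI p a (N := 0) (m := fun _ => 0) (Nat.zero_le _)
  simpa using h1

theorem gt_pow_mem (p : Pts G x) (a : Fin n → ℕ) {N : ℕ} {f : B} (hf : f ∈ JI p a N) (k : ℕ) :
    f ^ k ∈ JI p a (N * k) := by
  induction k with
  | zero => rw [Nat.mul_zero, gt_JI_zero]; trivial
  | succ k ih =>
    rw [pow_succ, Nat.mul_succ]
    exact JI_mul p a _ _ (Ideal.mul_mem_mul ih hf)

theorem gt_pow_floor (p : Pts G x) (a : Fin n → ℕ) {N P : ℕ} {f : B} (hf : f ^ P ∈ JI p a N)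
    (i : ℕ) : f ^ i ∈ JI p a (N * (i / P)) := by
  have h1 : f ^ i = (f ^ P) ^ (i / P) * f ^ (i % P) := by
    rw [← pow_mul, ← pow_add, Nat.div_add_mod]
  rw [h1]
  exact Ideal.mul_mem_right _ _ (gt_pow_mem p a hf _)

/-- `(y)^M ≤ J_M`. -/
theorem gt_span_pow_le (p : Pts G x) (M : ℕ) :
    Ideal.span (range G.y) ^ M ≤ JI p (one n) M := by
  induction M with
  | zero => rw [gt_JI_zero]; exact le_top
  | succ M ih =>
    have h1 : Ideal.span (range G.y) ≤ JI p (one n) 1 := by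
      rw [Ideal.span_le]
      rintro _ ⟨j, rfl⟩
      have h2 := mono_mem_JI p (one n) (N := 1) (m := Pi.single j 1) (by simp [one])
      rwa [Finset.prod_eq_single j (fun i _ hi => by rw [Pi.single_eq_of_ne hi, pow_zero])
        (fun hi => absurd (Finset.mem_univ j) hi), Pi.single_eq_same, pow_one] at h2
    rw [pow_succ]
    exact (Ideal.mul_mono ih h1).trans (JI_mul p _ _ _)

/-- `J_N` is primary: elements not vanishing at `x` are units modulo `J_N`. -/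
theorem gt_unit (p : Pts G x) (M : ℕ) {t : B} (ht : x t ≠ 0) {f : B}
    (hf : t * f ∈ JI p (one n) M) : f ∈ JI p (one n) M := by
  set c : B := algebraMap ℂ B (x t)⁻¹ with hc
  have h1 : x (1 - c * t) = 0 := by
    rw [map_sub, map_one, map_mul, hc, AlgHom.commutes]
    change 1 - (x t)⁻¹ * x t = 0
    rw [inv_mul_cancel₀ ht, sub_self]
  have h2 : (1 - c * t) ^ (2 * M) ∈ JI p (one n) M := pow_mem_JI p (fun _ => le_rfl) M h1
  obtain ⟨u, hu⟩ : c * t ∣ 1 - (1 - c * t) ^ (2 * M) := by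
    have := sub_dvd_pow_sub_pow (1 : B) (1 - c * t) (2 * M)
    rwa [one_pow, sub_sub_cancel] at this
  have h3 : f = (1 - c * t) ^ (2 * M) * f + (c * u) * (t * f) := by
    have h4 : (1 - c * t) ^ (2 * M) = 1 - c * t * u := by rw [← hu]; ring
    rw [h4]
    ring
  rw [h3]
  exact Ideal.add_mem _ (Ideal.mul_mem_right _ _ h2) (Ideal.mul_mem_left _ _ hf)

/-! ### The statements -/

theorem ker_pow_le_JI (H : Std G x h s κ sg m ρ₁) (p : Pts G x) :
    ∃ k₀ : ℕ, ∀ M : ℕ, RingHom.ker x ^ (M + k₀) ≤ JI p (one n) M := by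
  obtain ⟨k₀, hk⟩ := H.red
  refine ⟨k₀, fun M => ?_⟩
  set 𝔪 := IsLocalRing.maximalIdeal (Localization.AtPrime (RingHom.ker x)) with h𝔪
  have h1 : ∀ M : ℕ, 𝔪 ^ (M + k₀) ≤ paramIdeal (RingHom.ker x) G.y ^ M := by
    have h2 : ∀ M : ℕ, 𝔪 ^ (M + k₀) ≤ paramIdeal (RingHom.ker x) G.y ^ M * 𝔪 ^ k₀ := by
      intro M
      induction M with
      | zero => rw [pow_zero, Ideal.one_eq_top, Ideal.top_mul, zero_add]
      | succ M ih =>
        calc 𝔪 ^ (M + 1 + k₀) = 𝔪 ^ (M + k₀) * 𝔪 := by rw [← pow_succ]; congr 1; omega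
          _ ≤ paramIdeal (RingHom.ker x) G.y ^ M * 𝔪 ^ k₀ * 𝔪 := Ideal.mul_mono_left ih
          _ = paramIdeal (RingHom.ker x) G.y ^ M * 𝔪 ^ (k₀ + 1) := by rw [mul_assoc, ← pow_succ]
          _ ≤ paramIdeal (RingHom.ker x) G.y ^ M *
              (paramIdeal (RingHom.ker x) G.y * 𝔪 ^ k₀) := Ideal.mul_mono_right hk
          _ = _ := by rw [← mul_assoc, ← pow_succ]
    exact fun M => (h2 M).trans Ideal.mul_le_left
  intro f hf
  have h3 : algebraMap B (Localization.AtPrime (RingHom.ker x)) f ∈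
      (Ideal.span (range G.y) ^ M).map
        (algebraMap B (Localization.AtPrime (RingHom.ker x))) := by
    rw [Ideal.map_pow]
    refine h1 M ?_
    rw [h𝔪, ← Localization.AtPrime.map_eq_maximalIdeal, ← Ideal.map_pow]
    exact Ideal.mem_map_of_mem _ hf
  rw [IsLocalization.algebraMap_mem_map_algebraMap_iff (RingHom.ker x).primeCompl] at h3
  obtain ⟨t, ht, hm⟩ := h3
  exact gt_unit p M (t := t) ht (gt_span_pow_le p M hm)

theorem GT_add {p : Pts G x} {t : ℕ} {f g : B} (hf : f ∈ GT p t) (hg : g ∈ GT p t) :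
    f + g ∈ GT p t := by
  obtain ⟨M, N, hM, hN, hf⟩ := hf
  obtain ⟨M', N', hM', hN', hg⟩ := hg
  set P := M * M' with hP
  have hP1 : 1 ≤ P := Nat.mul_pos hM hM'
  have hf' : f ^ P ∈ JI p (one n) (P * t + 1) := by
    rw [hP, pow_mul]
    refine JI_anti p _ ?_ (gt_pow_mem p _ hf M')
    calc M * M' * t + 1 ≤ M * M' * t + M' := by omega
      _ = (M * t + 1) * M' := by ring
      _ ≤ N * M' := Nat.mul_le_mul_right _ hN
  have hg' : g ^ P ∈ JI p (one n) (P * t + 1) := by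
    rw [hP, mul_comm M M', pow_mul]
    refine JI_anti p _ ?_ (gt_pow_mem p _ hg M)
    calc M' * M * t + 1 ≤ M' * M * t + M := by omega
      _ = (M' * t + 1) * M := by ring
      _ ≤ N' * M := Nat.mul_le_mul_right _ hN'
  set c := P * t + 2 with hc
  refine ⟨P * c, (P * t + 1) * (c - 1), Nat.mul_pos hP1 (by omega), ?_, ?_⟩
  · have h1 : c - 1 = P * t + 1 := by omega
    rw [h1, hc]
    nlinarith
  · rw [add_pow]
    refine Ideal.sum_mem _ fun i hi => Ideal.mul_mem_right _ _ ?_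
    have hi' : i ≤ P * c := by
      have := Finset.mem_range.1 hi
      omega
    have h2 := JI_mul p (one n) _ _ (Ideal.mul_mem_mul (gt_pow_floor p _ hf' i)
      (gt_pow_floor p _ hg' (P * c - i)))
    refine JI_anti p _ ?_ h2
    rw [← Nat.mul_add]
    refine Nat.mul_le_mul_left _ ?_
    have h3 : P * (i / P) + i % P = i := Nat.div_add_mod i P
    have h4 : P * ((P * c - i) / P) + (P * c - i) % P = P * c - i := Nat.div_add_mod _ P
    have h5 : i % P < P := Nat.mod_lt _ hP1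
    have h6 : (P * c - i) % P < P := Nat.mod_lt _ hP1
    have h7 : P * c < P * (i / P + (P * c - i) / P + 2) := by
      have : P * (i / P + (P * c - i) / P + 2) = P * (i / P) + P * ((P * c - i) / P) + 2 * P := by
        ring
      omega
    have h8 := Nat.lt_of_mul_lt_mul_left h7
    omega

theorem GT_mul {p : Pts G x} {t : ℕ} {f : B} (b : B) (hf : f ∈ GT p t) : b * f ∈ GT p t := by
  obtain ⟨M, N, hM, hN, hf⟩ := hf
  exact ⟨M, N, hM, hN, by rw [mul_pow]; exact Ideal.mul_mem_left _ _ hf⟩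

theorem gt_ker_pow (H : Std G x h s κ sg m ρ₁) (p : Pts G x) :
    ∃ k₀ : ℕ, ∀ k : ℕ, RingHom.ker x ^ k ≤ JI p (one n) (k - k₀) := by
  obtain ⟨k₀, hk⟩ := ker_pow_le_JI H p
  refine ⟨k₀, fun k => ?_⟩
  rcases le_total k₀ k with h1 | h1
  · have := hk (k - k₀)
    rwa [Nat.sub_add_cancel h1] at this
  · rw [Nat.sub_eq_zero_of_le h1, gt_JI_zero]
    exact le_top

theorem GT_mul_pow (H : Std G x h s κ sg m ρ₁) {p : Pts G x} {t j : ℕ} {f g : B}
    (hf : f ∈ GT p t) (hg : g ∈ RingHom.ker x ^ j) : f * g ∈ GT p (t + j) := by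
  obtain ⟨M, N, hM, hN, hf⟩ := hf
  obtain ⟨k₀, hk⟩ := gt_ker_pow H p
  refine ⟨M * (k₀ + 1), N * (k₀ + 1) + (j * (M * (k₀ + 1)) - k₀), Nat.mul_pos hM (by omega),
    ?_, ?_⟩
  · have h1 : (M * t + 1) * (k₀ + 1) ≤ N * (k₀ + 1) := Nat.mul_le_mul_right _ hN
    have h2 : M * (k₀ + 1) * (t + j) = M * t * (k₀ + 1) + j * (M * (k₀ + 1)) := by ring
    have h3 : (M * t + 1) * (k₀ + 1) = M * t * (k₀ + 1) + (k₀ + 1) := by ring
    omega
  · rw [mul_pow]
    refine JI_mul p _ _ _ (Ideal.mul_mem_mul ?_ (hk _ ?_))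
    · rw [pow_mul]
      exact gt_pow_mem p _ hf _
    · rw [pow_mul]
      exact Ideal.pow_mem_pow hg _

theorem ker_pow_le_GT (H : Std G x h s κ sg m ρ₁) {p : Pts G x} {j : ℕ} {f : B}
    (hf : f ∈ RingHom.ker x ^ (j + 1)) : f ∈ GT p j := by
  obtain ⟨k₀, hk⟩ := gt_ker_pow H p
  refine ⟨k₀ + 1, (j + 1) * (k₀ + 1) - k₀, by omega, ?_, hk _ ?_⟩
  · have h1 : (j + 1) * (k₀ + 1) = (k₀ + 1) * j + (k₀ + 1) := by ring
    omega
  · rw [pow_mul]
    exact Ideal.pow_mem_pow hf _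

theorem GT_of_pow {p : Pts G x} {t L : ℕ} (hL : 1 ≤ L) {f : B} (hf : f ^ L ∈ GT p (L * t)) :
    f ∈ GT p t := by
  obtain ⟨M, N, hM, hN, hf⟩ := hf
  refine ⟨L * M, N, Nat.mul_pos hL hM, ?_, by rwa [pow_mul]⟩
  calc L * M * t = M * (L * t) := by ring
    _ < N := hN

theorem GT_anti {p : Pts G x} : Antitone (GT p) := by
  rintro t t' htt f ⟨M, N, hM, hN, hf⟩
  exact ⟨M, N, hM, (Nat.mul_le_mul_left _ htt).trans_lt hN, hf⟩

theorem JI_subset_GT {p : Pts G x} {t N : ℕ} (h : t < N) {f : B} (hf : f ∈ JI p (one n) N) :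
    f ∈ GT p t := ⟨1, N, le_rfl, by rwa [one_mul], by rwa [pow_one]⟩

theorem one_not_mem_GT {p : Pts G x} {t : ℕ} : (1 : B) ∉ GT p t := by
  rintro ⟨M, N, hM, hN, hf⟩
  rw [one_pow] at hf
  have h1 := JI_le_ker p (a := one n) (N := N) (by omega) hf
  rw [RingHom.mem_ker, map_one] at h1
  exact one_ne_zero h1

end Pool.Agent.Odp3
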