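import Pool.Agent.Odp3.Eq.IdemDefs
import Pool.Agent.Odp3.Horm.Dual
import Pool.Agent.Odp3.Horm.Cut

/-!
# Measurability and additivity of the fibre integrals
-/

open scoped ContDiff Topology ENNReal NNReal WithZero
open Set MeasureTheory Filter MvPolynomial Pool.Agent.ODP

namespace Pool.Agent.Odp3

section

variable {n d : ℕ} {B : Type} [CommRing B] [Algebra ℂ B]

/-- The fibre sums of a function which is continuous along the sections are continuous outside the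
zeros of `Q`. -/
theorem idemh_cont_fib {G : Germ n d B} {sg : B} {ρ₀ : ℝ}
    (hd : ∀ χ : Pt B, nq (proj G.y χ) < ρ₀ ^ 2 → ‖χ sg - 1‖ < 1 / 4 ∨ ‖χ sg‖ < 1 / 4)
    {Q : (Fin n → ℂ) → ℂ} {ρ : ℝ} (hρ : ρ ≤ ρ₀) (hQ : IsQ G Q ρ) {F : Pt B → ℝ≥0∞}
    (hF : ∀ Ω s, IsSec G (VV G sg Q ρ) Ω s → ContinuousOn (fun w => F (s w)) Ω) :
    ContinuousOn (fun w => ∑' χ : {χ : Pt B // χ ∈ VV G sg Q ρ ∧ proj G.y χ = w}, F χ)
      {w | w ∈ bal n ρ ∧ Q w ≠ 0} := by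
  classical
  intro w₀ hw₀
  have hA : IsOpen {w | w ∈ bal n ρ ∧ Q w ≠ 0} := dual_isOpen_Q hQ.holo
  have hD : eval w₀ G.D ≠ 0 := hQ.D_ne w₀ hw₀.1 hw₀.2
  obtain ⟨Ω, hΩ, hwΩ, s, hs, hinj, hsurj⟩ := G.exists_sections hD
  have hc : ∀ k, ContinuousOn (fun w => s k w sg) Ω := fun k => ((hs k).holo sg).continuousOn
  have hca : ∀ k, ContinuousAt (fun w => s k w sg) w₀ := fun k =>
    (hc k).continuousAt (hΩ.mem_nhds hwΩ)
  have hmem : ∀ k, ∀ w ∈ Ω, w ∈ bal n ρ → Q w ≠ 0 → (s k w ∈ VV G sg Q ρ ↔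
      ‖s k w sg - 1‖ < 1 / 2) := by
    intro k w hw hb hq
    have hp := (hs k).proj w hw
    simp only [VV, Set.mem_setOf_eq, hp]
    exact ⟨fun h => h.2.2, fun h => ⟨hb, hq, h⟩⟩
  have hloc : ∀ k, ∀ᶠ w in 𝓝 w₀, (s k w ∈ VV G sg Q ρ ↔ s k w₀ ∈ VV G sg Q ρ) := by
    intro k
    have hev := (hΩ.inter hA).mem_nhds ⟨hwΩ, hw₀⟩
    have hn : nq (proj G.y (s k w₀)) < ρ₀ ^ 2 := by
      rw [(hs k).proj w₀ hwΩ]
      have := hQ.pos
      exact lt_of_lt_of_le hw₀.1 (by gcongr)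
    rcases hd _ hn with h1 | h1
    · have h2 : ∀ᶠ w in 𝓝 w₀, ‖s k w sg - 1‖ < 1 / 2 :=
        ((hca k).sub continuousAt_const).norm.eventually_lt continuousAt_const
          (lt_trans h1 (by norm_num))
      filter_upwards [hev, h2] with w hw h3
      rw [hmem k w hw.1 hw.2.1 hw.2.2, hmem k w₀ hwΩ hw₀.1 hw₀.2]
      exact ⟨fun _ => lt_trans h1 (by norm_num), fun _ => h3⟩
    · have h2 : ∀ᶠ w in 𝓝 w₀, ‖s k w sg‖ < 1 / 4 :=
        (hca k).norm.eventually_lt continuousAt_const h1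
      have h4 : ∀ c : ℂ, ‖c‖ < 1 / 4 → ¬ ‖c - 1‖ < 1 / 2 := by
        intro c hc1 hc2
        have h5 : (1 : ℝ) ≤ ‖c‖ + ‖c - 1‖ := by
          have := norm_sub_le c (c - 1)
          simpa using this
        linarith
      filter_upwards [hev, h2] with w hw h3
      rw [hmem k w hw.1 hw.2.1 hw.2.2, hmem k w₀ hwΩ hw₀.1 hw₀.2]
      exact ⟨fun h => absurd h (h4 _ h3), fun h => absurd h (h4 _ h1)⟩
  have hloc' : ∀ᶠ w in 𝓝 w₀, ∀ k, (s k w ∈ VV G sg Q ρ ↔ s k w₀ ∈ VV G sg Q ρ) :=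
    Filter.eventually_all.2 hloc
  set K : Finset (Fin d) := Finset.univ.filter fun k => s k w₀ ∈ VV G sg Q ρ with hK
  have hev := (hΩ.inter hA).mem_nhds ⟨hwΩ, hw₀⟩
  have heq : (fun w => ∑' χ : {χ : Pt B // χ ∈ VV G sg Q ρ ∧ proj G.y χ = w}, F χ) =ᶠ[𝓝 w₀]
      fun w => ∑ k ∈ K, F (s k w) := by
    filter_upwards [hev, hloc'] with w hw hk
    have hset : {χ : Pt B | χ ∈ VV G sg Q ρ ∧ proj G.y χ = w} =
        ((K.image fun k => s k w : Finset (Pt B)) : Set (Pt B)) := by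
      ext χ
      simp only [Set.mem_setOf_eq, Finset.coe_image, Set.mem_image, hK, Finset.coe_filter,
        Finset.mem_univ, true_and]
      constructor
      · rintro ⟨h1, h2⟩
        obtain ⟨k, rfl⟩ := hsurj w hw.1 χ h2
        exact ⟨k, (hk k).1 h1, rfl⟩
      · rintro ⟨k, h1, rfl⟩
        exact ⟨(hk k).2 h1, (hs k).proj w hw.1⟩
    have h1 : (∑' χ : {χ : Pt B // χ ∈ VV G sg Q ρ ∧ proj G.y χ = w}, F χ) =
        ∑' χ : ((K.image fun k => s k w : Finset (Pt B)) : Set (Pt B)), F χ :=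
      tsum_congr_set_coe F hset
    rw [h1, Finset.tsum_subtype' (K.image fun k => s k w) F,
      Finset.sum_image fun a _ b _ hab => hinj w hw.1 hab]
  refine ContinuousAt.continuousWithinAt ?_
  refine ContinuousAt.congr ?_ heq.symm
  refine tendsto_finset_sum _ fun k hk => ?_
  have hk' : s k w₀ ∈ VV G sg Q ρ := by simpa [hK] using hk
  have hO : IsOpen ((Ω ∩ {w | w ∈ bal n ρ ∧ Q w ≠ 0}) ∩
      (fun w => s k w sg) ⁻¹' {c | ‖c - 1‖ < 1 / 2}) := by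
    refine ((hc k).mono Set.inter_subset_left).isOpen_inter_preimage (hΩ.inter hA) ?_
    exact isOpen_lt (by fun_prop) continuous_const
  have hsec : IsSec G (VV G sg Q ρ) ((Ω ∩ {w | w ∈ bal n ρ ∧ Q w ≠ 0}) ∩
      (fun w => s k w sg) ⁻¹' {c | ‖c - 1‖ < 1 / 2}) (s k) := by
    refine ⟨hO, ?_, ?_, ?_⟩
    · rintro w ⟨⟨h1, h2, h3⟩, h4⟩
      exact (hmem k w h1 h2 h3).2 h4
    · rintro w ⟨⟨h1, -⟩, -⟩
      exact (hs k).proj w h1
    · intro b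
      exact ((hs k).holo b).mono fun w hw => hw.1.1
  have hin : w₀ ∈ (Ω ∩ {w | w ∈ bal n ρ ∧ Q w ≠ 0}) ∩
      (fun w => s k w sg) ⁻¹' {c | ‖c - 1‖ < 1 / 2} :=
    ⟨⟨hwΩ, hw₀⟩, ((hmem k w₀ hwΩ hw₀.1 hw₀.2).1 hk')⟩
  exact (hF _ _ hsec).continuousAt (hO.mem_nhds hin)

theorem idemh_aemeas {G : Germ n d B} {sg : B} {ρ₀ : ℝ}
    (hd : ∀ χ : Pt B, nq (proj G.y χ) < ρ₀ ^ 2 → ‖χ sg - 1‖ < 1 / 4 ∨ ‖χ sg‖ < 1 / 4)
    {Q : (Fin n → ℂ) → ℂ} {ρ : ℝ} (hρ : ρ ≤ ρ₀) (hQ : IsQ G Q ρ) {F : Pt B → ℝ≥0∞}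
    (hF : ∀ Ω s, IsSec G (VV G sg Q ρ) Ω s → ContinuousOn (fun w => F (s w)) Ω) :
    AEMeasurable (fun w => ∑' χ : {χ : Pt B // χ ∈ VV G sg Q ρ ∧ proj G.y χ = w}, F χ)
      volume := by
  have hA : IsOpen {w | w ∈ bal n ρ ∧ Q w ≠ 0} := dual_isOpen_Q hQ.holo
  have h1 := (idemh_cont_fib hd hρ hQ hF).aemeasurable hA.measurableSet (μ := volume)
  have h2 : (fun w => ∑' χ : {χ : Pt B // χ ∈ VV G sg Q ρ ∧ proj G.y χ = w}, F χ) =
      ({w | w ∈ bal n ρ ∧ Q w ≠ 0} : Set (Fin n → ℂ)).indicator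
        (fun w => ∑' χ : {χ : Pt B // χ ∈ VV G sg Q ρ ∧ proj G.y χ = w}, F χ) := by
    funext w
    by_cases hw : w ∈ {w | w ∈ bal n ρ ∧ Q w ≠ 0}
    · rw [indicator_of_mem hw]
    · rw [indicator_of_notMem hw]
      have : IsEmpty {χ : Pt B // χ ∈ VV G sg Q ρ ∧ proj G.y χ = w} := by
        refine ⟨fun χ => hw ?_⟩
        obtain ⟨χ, h3, h4⟩ := χ
        rw [← h4]
        exact ⟨h3.1, h3.2.1⟩
      exact tsum_empty
  rw [h2]
  exact (aemeasurable_indicator_iff hA.measurableSet).2 h1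

theorem idemh_sumI_add {G : Germ n d B} {sg : B} {ρ₀ : ℝ}
    (hd : ∀ χ : Pt B, nq (proj G.y χ) < ρ₀ ^ 2 → ‖χ sg - 1‖ < 1 / 4 ∨ ‖χ sg‖ < 1 / 4)
    {Q : (Fin n → ℂ) → ℂ} {ρ : ℝ} (hρ : ρ ≤ ρ₀) (hQ : IsQ G Q ρ) {F : Pt B → ℝ≥0∞}
    (hF : ∀ Ω s, IsSec G (VV G sg Q ρ) Ω s → ContinuousOn (fun w => F (s w)) Ω)
    (F' : Pt B → ℝ≥0∞) :
    sumI G (VV G sg Q ρ) (fun χ => F χ + F' χ) =
      sumI G (VV G sg Q ρ) F + sumI G (VV G sg Q ρ) F' := by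
  unfold sumI
  rw [← lintegral_add_left' (idemh_aemeas hd hρ hQ hF)]
  refine lintegral_congr fun w => ?_
  exact ENNReal.tsum_add

/-- functions of the base point -/
theorem idemh_sumI_proj {G : Germ n d B} {sg : B} {Q : (Fin n → ℂ) → ℂ} {ρ : ℝ}
    (hQ : IsQ G Q ρ) (φ : (Fin n → ℂ) → ℝ≥0∞) :
    sumI G (VV G sg Q ρ) (fun χ => φ (proj G.y χ)) ≤ d * ∫⁻ w in bal n ρ, φ w := by
  classical
  rw [← lintegral_const_mul' _ _ (by finiteness),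
    ← lintegral_indicator (dual_isOpen_bal n ρ).measurableSet]
  unfold sumI
  refine lintegral_mono fun w => ?_
  by_cases hw : w ∈ bal n ρ ∧ Q w ≠ 0
  · rw [indicator_of_mem hw.1]
    have hD := hQ.D_ne w hw.1 hw.2
    have : Fintype {χ : Pt B // χ ∈ VV G sg Q ρ ∧ proj G.y χ = w} :=
      (dualFib_finite G (sg := sg) (Q := Q) (ρ := ρ) hD).fintype
    have h1 : ∀ χ : {χ : Pt B // χ ∈ VV G sg Q ρ ∧ proj G.y χ = w},
        φ (proj G.y (χ : Pt B)) = φ w := fun χ => by rw [χ.2.2]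
    simp only [h1]
    rw [tsum_fintype, Finset.sum_const, nsmul_eq_mul]
    gcongr
    have h2 := dualFib_ncard_le (G := G) (sg := sg) (Q := Q) (ρ := ρ) hD
    rw [← Set.ncard_eq_toFinset_card _ (dualFib_finite G hD)] at h2
    rw [Finset.card_univ, ← Nat.card_eq_fintype_card]
    exact h2
  · have : IsEmpty {χ : Pt B // χ ∈ VV G sg Q ρ ∧ proj G.y χ = w} := by
      refine ⟨fun χ => hw ?_⟩
      obtain ⟨χ, h3, h4⟩ := χ
      rw [← h4]
      exact ⟨h3.1, h3.2.1⟩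
    rw [tsum_empty]
    exact zero_le

/-- a nonzero polynomial does not vanish on a ball -/
theorem idemh_poly_ne {p : MvPolynomial (Fin n) ℂ} (hp : p ≠ 0) {ρ : ℝ} (hρ : 0 < ρ) :
    ∃ w ∈ bal n ρ, eval w p ≠ 0 := by
  by_contra hcon
  push Not at hcon
  have hopen : IsOpen (bal n ρ) := dual_isOpen_bal n ρ
  have h0 : (0 : Fin n → ℂ) ∈ bal n ρ := by
    simp only [bal, nq, Set.mem_setOf_eq, Pi.zero_apply, norm_zero]
    rw [Finset.sum_eq_zero fun _ _ => by norm_num]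
    positivity
  obtain ⟨ε, hε, hball⟩ := Metric.isOpen_iff.1 hopen 0 h0
  refine hp (MvPolynomial.funext_set (fun _ => Metric.ball (0 : ℂ) ε) (fun _ => ?_) fun w hw => ?_)
  · exact infinite_of_mem_nhds (0 : ℂ) (Metric.ball_mem_nhds 0 hε)
  · rw [map_zero]
    refine hcon w (hball ?_)
    rw [Metric.mem_ball, dist_zero_right, pi_norm_lt_iff hε]
    intro i
    have := hw i (mem_univ i)
    rwa [Metric.mem_ball, dist_zero_right] at this

theorem idemh_isQ {G : Germ n d B} {A : (Fin n → ℂ) → ℂ} {ρ : ℝ} (hρ : 0 < ρ)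
    (hA : DifferentiableOn ℂ A (bal n ρ)) (hne : ∃ w ∈ bal n ρ, A w ≠ 0) :
    IsQ G (fun w => eval w G.D * A w) ρ := by
  refine ⟨hρ, (dual_differentiable_eval G.D).differentiableOn.fun_mul hA, ?_, fun w _ h h' => ?_⟩
  · by_contra hcon
    push Not at hcon
    have h1 := null_zeros hA hne
    have h2 := null_zeros (dual_differentiable_eval G.D).differentiableOn
      (idemh_poly_ne G.D_ne hρ)
    have h3 : bal n ρ ⊆ {w | w ∈ bal n ρ ∧ eval w G.D = 0} ∪ {w | w ∈ bal n ρ ∧ A w = 0} := by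
      intro w hw
      rcases mul_eq_zero.1 (hcon w hw) with h | h
      · exact Or.inl ⟨hw, h⟩
      · exact Or.inr ⟨hw, h⟩
    have h4 : volume (bal n ρ) = 0 := measure_mono_null h3 (measure_union_null h2 h1)
    have h5 : 0 < volume (bal n ρ) := (dual_isOpen_bal n ρ).measure_pos volume
      (hne.imp fun w hw => hw.1)
    exact h5.ne' h4
  · exact h (by rw [h', zero_mul])

end

end Pool.Agent.Odp3
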