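import Pool.Agent.Odp3.Eq.Defs
import Pool.Agent.Odp3.Eq.OrdA
import Pool.Agent.Odp3.Horm.Approx
import Pool.Agent.Odp3.Pt.Red
import Pool.Agent.Odp3.Pt.Bdd

/-!
# Square integrable holomorphic functions on the sheets are almost constant at `x`
-/

open scoped ContDiff Topology ENNReal NNReal WithZero
open Set MeasureTheory Filter MvPolynomial Pool.Agent.ODP

namespace Pool.Agent.Odp3

theorem idemL_enorm {z : ℂ} {C : ℝ≥0} (h : ‖z‖ₑ ^ 2 ≤ (C : ℝ≥0∞)) : ‖z‖ ≤ √(C : ℝ) := by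
  apply Real.le_sqrt_of_sq_le
  have h2 : ‖z‖ₑ ^ 2 = ((‖z‖₊ ^ 2 : ℝ≥0) : ℝ≥0∞) := by
    rw [ENNReal.coe_pow]
    rfl
  rw [h2, ENNReal.coe_le_coe] at h
  exact_mod_cast h

variable {n d : ℕ} {B : Type} [CommRing B] [IsDomain B] [Algebra ℂ B] {G : Germ n d B} {x : Pt B}
  {h : B} {s κ : ℝ} {sg : B} {m : ℕ} {ρ₁ : ℝ}

omit [IsDomain B] in
theorem idemL_VV_sub {Q : (Fin n → ℂ) → ℂ} {ρ ρ' : ℝ} (h0 : 0 ≤ ρ) (h1 : ρ ≤ ρ') {χ : Pt B}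
    (hχ : χ ∈ VV G sg Q ρ) : χ ∈ UU G sg ρ' :=
  ⟨hχ.1.trans_le (pow_le_pow_left₀ h0 h1 2), hχ.2.2⟩

/-- `L²` holomorphic functions on the sheets are, uniformly, almost constant at `x`. -/
theorem idem_lip (H : Std G x h s κ sg m ρ₁) (M : ℕ) : ∃ ρ₂ : ℝ, 0 < ρ₂ ∧
    ∀ (ρ : ℝ) (Q : (Fin n → ℂ) → ℂ), ρ ≤ ρ₂ → IsQ G Q ρ → ∀ C₁ : ℝ≥0,
      ∃ C₂ ρ' : ℝ, 0 ≤ C₂ ∧ 0 < ρ' ∧ ρ' ≤ ρ ∧ ∀ b : Pt B → ℂ, HolV G (VV G sg Q ρ) b →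
        sumI G (VV G sg Q ρ) (fun χ => ‖b χ‖ₑ ^ 2 * ‖χ h‖ₑ ^ (-(2 * s))) ≤ C₁ →
        ∃ c : ℂ, ∀ χ ∈ VV G sg Q ρ', ‖eval (proj G.y χ) G.D‖ * ‖b χ - c‖ ≤
          C₂ * (‖eval (proj G.y χ) G.D‖ * √(nq (proj G.y χ)) + √(nq (proj G.y χ)) ^ M) := by
  have hnorm : IsIntegrallyClosed B := H.meas.normal
  obtain ⟨k, g, ρ₀, hρ₀, happ⟩ := approx H.hm H.sep (ϖ := fun χ => ‖χ h‖ₑ ^ (-(2 * s)))
    H.meas.pos H.meas.om M
  have hred : ∀ i, ∃ C ρ : ℝ, 0 < ρ ∧ ∀ χ ∈ UU G sg ρ,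
      ‖χ (g i - algebraMap ℂ B (x (g i)))‖ ^ 2 ≤ C * nq (proj G.y χ) := fun i =>
    H.sep.red H.hm H.red (by rw [map_sub, AlgHom.commutes, Algebra.algebraMap_self_apply, sub_self])
  choose Cr ρr hρr hr using hred
  refine ⟨ρ₀, hρ₀, ?_⟩
  intro ρ Q hρ hQ C₁
  have hρp : 0 < ρ := hQ.pos
  obtain ⟨C', hC'⟩ := happ ρ Q hρ hQ (ρ / 2) (half_pos hρp) (half_lt_self hρp)
  set N : ℝ := √((C' * C₁ : ℝ≥0) : ℝ) with hN
  have hN0 : 0 ≤ N := Real.sqrt_nonneg _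
  -- the radius
  obtain ⟨ρm, hρm, hρmle⟩ : ∃ ρm : ℝ, 0 < ρm ∧ ∀ i, ρm ≤ ρr i := by
    by_cases hd : Nonempty (Fin k)
    · obtain ⟨i, hi⟩ := Finite.exists_min ρr
      exact ⟨ρr i, hρr i, hi⟩
    · exact ⟨1, one_pos, fun i => absurd ⟨i⟩ hd⟩
  have hρ2 : 0 < ρ / 2 := half_pos hρp
  have hS0 : 0 ≤ ∑ i, N * √|Cr i| := Finset.sum_nonneg fun i _ =>
    mul_nonneg hN0 (Real.sqrt_nonneg _)
  refine ⟨N + ∑ i, N * √|Cr i|, min (ρ / 2) ρm, add_nonneg hN0 hS0,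
    lt_min hρ2 hρm, (min_le_left _ _).trans (half_le_self hρp.le), ?_⟩
  intro b hb hbC
  obtain ⟨c, hc1, hc2⟩ := hC' b hb (ne_top_of_le_ne_top ENNReal.coe_ne_top hbC)
  have hbd : ∀ i, ‖c i‖ ≤ N := by
    intro i
    apply idemL_enorm
    refine (hc1 i).trans ?_
    rw [ENNReal.coe_mul]
    gcongr
  refine ⟨x (∑ i, algebraMap ℂ B (c i) * g i), ?_⟩
  intro χ hχ
  have hle : ρ / 2 ≤ ρ := half_le_self hρp.le
  have hχ1 : χ ∈ VV G sg Q ρ := ⟨hχ.1.trans_le (pow_le_pow_left₀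
    (lt_min (half_pos hρp) hρm).le ((min_le_left _ _).trans hle) 2), hχ.2⟩
  have hχ2 : nq (proj G.y χ) ≤ (ρ / 2) ^ 2 := (le_of_lt hχ.1).trans (pow_le_pow_left₀
    (lt_min (half_pos hρp) hρm).le (min_le_left _ _) 2)
  set Dv : ℂ := eval (proj G.y χ) G.D with hDv
  set r : ℝ := √(nq (proj G.y χ)) with hr'
  have hr0 : 0 ≤ r := Real.sqrt_nonneg _
  have hr2 : r ^ 2 = nq (proj G.y χ) := Real.sq_sqrt (nq_nonneg _)
  set β : B := ∑ i, algebraMap ℂ B (c i) * g i with hβ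
  -- the approximation
  have h1 : ‖Dv‖ * ‖b χ - χ β‖ ≤ N * r ^ M := by
    have h2 : ‖Dv‖ₑ ^ 2 * ‖b χ - χ β‖ₑ ^ 2 ≤
        ((C' * C₁ * (r ^ M).toNNReal ^ 2 : ℝ≥0) : ℝ≥0∞) := by
      refine (hc2 χ hχ1 hχ2).trans ?_
      have h3 : ENNReal.ofReal (nq (proj G.y χ)) ^ M = (((r ^ M).toNNReal ^ 2 : ℝ≥0) : ℝ≥0∞) := by
        rw [← hr2, ENNReal.coe_pow]
        change ENNReal.ofReal (r ^ 2) ^ M = ENNReal.ofReal (r ^ M) ^ 2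
        rw [ENNReal.ofReal_pow hr0, ENNReal.ofReal_pow hr0, ← pow_mul, ← pow_mul, mul_comm]
      rw [h3]
      push_cast
      calc (C' : ℝ≥0∞) * ((r ^ M).toNNReal : ℝ≥0∞) ^ 2 * sumI G (VV G sg Q ρ)
            (fun χ => ‖b χ‖ₑ ^ 2 * ‖χ h‖ₑ ^ (-(2 * s)))
          ≤ (C' : ℝ≥0∞) * ((r ^ M).toNNReal : ℝ≥0∞) ^ 2 * C₁ := by gcongr
        _ = _ := by ring
    have h4 : ‖Dv * (b χ - χ β)‖ₑ ^ 2 ≤ ((C' * C₁ * (r ^ M).toNNReal ^ 2 : ℝ≥0) : ℝ≥0∞) := by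
      rw [enorm_mul, mul_pow]
      exact h2
    have h5 := idemL_enorm h4
    rw [norm_mul] at h5
    refine h5.trans (le_of_eq ?_)
    have h6 : ((C' * C₁ * (r ^ M).toNNReal ^ 2 : ℝ≥0) : ℝ) =
        ((C' * C₁ : ℝ≥0) : ℝ) * (r ^ M) ^ 2 := by
      push_cast
      rw [Real.coe_toNNReal _ (pow_nonneg hr0 M)]
    rw [h6, Real.sqrt_mul (NNReal.coe_nonneg _), Real.sqrt_sq (pow_nonneg hr0 M)]
  -- the values of the elements of `B`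
  have h2 : ‖χ β - x β‖ ≤ (∑ i, N * √|Cr i|) * r := by
    have e : χ β - x β = ∑ i, c i * χ (g i - algebraMap ℂ B (x (g i))) := by
      rw [hβ, map_sum, map_sum, ← Finset.sum_sub_distrib]
      refine Finset.sum_congr rfl fun i _ => ?_
      rw [map_mul, map_mul, map_sub, AlgHom.commutes, AlgHom.commutes, AlgHom.commutes,
        Algebra.algebraMap_self_apply, Algebra.algebraMap_self_apply]
      ring
    rw [e, Finset.sum_mul]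
    refine (norm_sum_le _ _).trans (Finset.sum_le_sum fun i _ => ?_)
    have h3 : ‖χ (g i - algebraMap ℂ B (x (g i)))‖ ≤ √|Cr i| * r := by
      rw [hr', ← Real.sqrt_mul (abs_nonneg _)]
      apply Real.le_sqrt_of_sq_le
      refine (hr i χ (idemL_VV_sub (lt_min hρ2 hρm).le
        ((min_le_right _ _).trans (hρmle i)) hχ)).trans ?_
      exact mul_le_mul_of_nonneg_right (le_abs_self _) (nq_nonneg _)
    rw [norm_mul]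
    calc ‖c i‖ * ‖χ (g i - algebraMap ℂ B (x (g i)))‖ ≤ N * (√|Cr i| * r) :=
          mul_le_mul (hbd i) h3 (norm_nonneg _) hN0
      _ = N * √|Cr i| * r := by ring
  have h3 : ‖b χ - x β‖ ≤ ‖b χ - χ β‖ + ‖χ β - x β‖ := by
    calc ‖b χ - x β‖ = ‖(b χ - χ β) + (χ β - x β)‖ := by congr 1; ring
      _ ≤ _ := norm_add_le _ _
  have hD0 : 0 ≤ ‖Dv‖ := norm_nonneg _
  have hrM : 0 ≤ r ^ M := pow_nonneg hr0 M
  set S : ℝ := ∑ i, N * √|Cr i| with hS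
  calc ‖Dv‖ * ‖b χ - x β‖ ≤ ‖Dv‖ * (‖b χ - χ β‖ + ‖χ β - x β‖) :=
        mul_le_mul_of_nonneg_left h3 hD0
    _ = ‖Dv‖ * ‖b χ - χ β‖ + ‖Dv‖ * ‖χ β - x β‖ := by ring
    _ ≤ N * r ^ M + ‖Dv‖ * (S * r) := add_le_add h1 (mul_le_mul_of_nonneg_left h2 hD0)
    _ ≤ (N + S) * (‖Dv‖ * r + r ^ M) := by
        have e1 : 0 ≤ N * (‖Dv‖ * r) := by positivity
        have e2 : 0 ≤ S * r ^ M := mul_nonneg hS0 hrM
        nlinarith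

/-- A cone contains a smaller cone on which `f` is bounded below. -/
theorem idem_subcone {n : ℕ} {f : (Fin n → ℂ) → ℂ} {ρ : ℝ} (hρ : 0 < ρ)
    (hf : DifferentiableOn ℂ f (bal n ρ)) {k : ℕ} (hk : OrdGe f k) (hk1 : ¬ OrdGe f (k + 1))
    {θ : Fin n → ℂ} {ε t₀ : ℝ} (hε : 0 < ε) (hθ : ε < ‖θ‖ / 2) (ht₀ : 0 < t₀) :
    ∃ (θ' : Fin n → ℂ) (ε' t₁ c : ℝ), 0 < ε' ∧ ε' < ‖θ'‖ / 2 ∧ 0 < t₁ ∧ 0 < c ∧
      cone θ' ε' t₁ ⊆ cone θ ε t₀ ∧ ∀ w ∈ cone θ' ε' t₁, c * √(nq w) ^ k ≤ ‖f w‖ := by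
  obtain ⟨P, C, hC, hP⟩ := ord57_lead hρ hf hk
  obtain ⟨v₁, hv₁, hPv₁⟩ := ord57_lead_ne hρ hP hk1
  -- the scaling
  set l : ℝ := (√(nq θ) + 1)⁻¹ with hl
  have hs0 : 0 ≤ √(nq θ) := Real.sqrt_nonneg _
  have hl0 : 0 < l := by positivity
  have hlc : (l : ℂ) ≠ 0 := by exact_mod_cast hl0.ne'
  have hθ1 : nq ((l : ℂ) • θ) < 1 := by
    rw [ord57_nq_smul, Complex.norm_real, Real.norm_of_nonneg hl0.le]
    have h1 : nq θ = √(nq θ) ^ 2 := (Real.sq_sqrt (nq_nonneg _)).symm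
    have h2 : l * √(nq θ) < 1 := by
      rw [hl, inv_mul_lt_iff₀ (by positivity)]
      linarith
    have h3 : 0 ≤ l * √(nq θ) := by positivity
    rw [h1, ← mul_pow]
    exact pow_lt_one₀ h3 h2 two_ne_zero
  obtain ⟨θ', h1, h2, h3⟩ := ord57_dense hρ hf hP hv₁ hPv₁ hθ1 (ε := l * ε / 2) (by positivity)
  obtain ⟨ε₂, t₂, c, hε₂, ht₂, hc, h4⟩ := ord57_local hρ hf hC hP h2 h3
  have hlε : 0 < l * ε := by positivity
  have hnθ : ‖(l : ℂ) • θ‖ = l * ‖θ‖ := by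
    rw [norm_smul, Complex.norm_real, Real.norm_of_nonneg hl0.le]
  have hθ' : 3 / 2 * (l * ε) < ‖θ'‖ := by
    have h5 : ‖(l : ℂ) • θ‖ ≤ ‖θ' - (l : ℂ) • θ‖ + ‖θ'‖ := by
      calc ‖(l : ℂ) • θ‖ = ‖θ' - (θ' - (l : ℂ) • θ)‖ := by rw [sub_sub_cancel]
        _ ≤ ‖θ'‖ + ‖θ' - (l : ℂ) • θ‖ := norm_sub_le _ _
        _ = _ := add_comm _ _
    rw [hnθ] at h5
    have h6 : l * (2 * ε) < l * ‖θ‖ := mul_lt_mul_of_pos_left (by linarith) hl0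
    linarith
  refine ⟨θ', min ε₂ (l * ε / 2), min t₂ (t₀ / l), c, by positivity, ?_, by positivity, hc, ?_, ?_⟩
  · have := min_le_right ε₂ (l * ε / 2)
    linarith
  · rintro w ⟨t, v, ht, htt, hv, rfl⟩
    refine ⟨t * l, ((l : ℂ)⁻¹) • v, by positivity, ?_, ?_, ?_⟩
    · have := htt.trans_le (min_le_right _ _)
      rwa [lt_div_iff₀ hl0] at this
    · have h5 : (l : ℂ)⁻¹ • v - θ = (l : ℂ)⁻¹ • (v - (l : ℂ) • θ) := by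
        rw [smul_sub, smul_smul, inv_mul_cancel₀ hlc, one_smul]
      rw [h5, norm_smul, norm_inv, Complex.norm_real, Real.norm_of_nonneg hl0.le,
        inv_mul_lt_iff₀ hl0]
      have h6 : ‖v - (l : ℂ) • θ‖ ≤ ‖v - θ'‖ + ‖θ' - (l : ℂ) • θ‖ := by
        calc ‖v - (l : ℂ) • θ‖ = ‖(v - θ') + (θ' - (l : ℂ) • θ)‖ := by
              congr 1
              abel
          _ ≤ _ := norm_add_le _ _
      have h7 := hv.trans_le (min_le_right _ _)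
      linarith
    · rw [smul_smul]
      congr 1
      push_cast
      rw [mul_assoc, mul_inv_cancel₀ hlc, mul_one]
  · rintro w ⟨t, v, ht, htt, hv, rfl⟩
    obtain ⟨h5, h6⟩ := h4 v (hv.trans_le (min_le_left _ _))
    refine le_trans ?_ (h6 t ht (htt.trans_le (min_le_left _ _)))
    have h7 : √(nq ((t : ℂ) • v)) ≤ t := by
      rw [ord57_sqrt_smul, Complex.norm_real, Real.norm_of_nonneg ht.le]
      have h8 : √(nq v) ≤ 1 := by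
        rw [Real.sqrt_le_one]
        exact h5.le
      nlinarith
    have h9 : √(nq ((t : ℂ) • v)) ^ k ≤ t ^ k := pow_le_pow_left₀ (Real.sqrt_nonneg _) h7 k
    exact mul_le_mul_of_nonneg_left h9 hc.le

end Pool.Agent.Odp3
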