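import Pool.Agent.Odp3.Eq.IdemH
import Pool.Agent.Odp3.Eq.IdemHAux
import Pool.Agent.Odp3.Eq.IdemL
import Pool.Agent.Odp3.Eq.Cone
import Pool.Agent.Odp3.Eq.Ord
import Pool.Agent.Odp3.An.Null

open scoped ContDiff Topology ENNReal NNReal WithZero
open Set MeasureTheory Filter MvPolynomial Pool.Agent.ODP

namespace Pool.Agent.Odp3

theorem idem_cone_isOpen {n : ℕ} (θ : Fin n → ℂ) (ε t₀ : ℝ) : IsOpen (cone θ ε t₀) := by
  have h : cone θ ε t₀ = ⋃ t ∈ Set.Ioo (0 : ℝ) t₀,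
      (fun v : Fin n → ℂ => (t : ℂ) • v) '' Metric.ball θ ε := by
    ext w
    simp only [cone, Set.mem_ofPred_eq, Set.mem_iUnion, Set.mem_image, Metric.mem_ball,
      dist_eq_norm, Set.mem_Ioo, exists_prop]
    constructor
    · rintro ⟨t, v, h1, h2, h3, rfl⟩
      exact ⟨t, ⟨h1, h2⟩, v, h3, rfl⟩
    · rintro ⟨t, ⟨h1, h2⟩, v, h3, rfl⟩
      exact ⟨t, v, h1, h2, h3, rfl⟩
  rw [h]
  refine isOpen_biUnion fun t ht => ?_
  have ht0 : (t : ℂ) ≠ 0 := by exact_mod_cast ht.1.ne'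
  exact (Homeomorph.smulOfNeZero (t : ℂ) ht0).isOpenMap _ Metric.isOpen_ball

theorem idem_cone_mono {n : ℕ} {θ : Fin n → ℂ} {ε t₀ t₁ : ℝ} (h : t₁ ≤ t₀) :
    cone θ ε t₁ ⊆ cone θ ε t₀ := by
  rintro w ⟨t, v, h1, h2, h3⟩
  exact ⟨t, v, h1, h2.trans_le h, h3⟩

theorem idem_cone_small {n : ℕ} (θ : Fin n → ℂ) {ε t₀ σ : ℝ} (hε : 0 < ε) (ht₀ : 0 < t₀)
    (hσ : 0 < σ) : ∃ t₁ : ℝ, 0 < t₁ ∧ t₁ ≤ t₀ ∧ ∀ w ∈ cone θ ε t₁, nq w < σ ^ 2 := by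
  have hL : 0 < ‖θ‖ + ε := add_pos_of_nonneg_of_pos (norm_nonneg _) hε
  refine ⟨min t₀ (σ / ((n + 1) * (‖θ‖ + ε))), by positivity, min_le_left _ _, ?_⟩
  rintro w ⟨t, v, h1, h2, h3, rfl⟩
  have hv : ‖v‖ ≤ ‖θ‖ + ε := by
    have h4 : ‖v‖ ≤ ‖v - θ‖ + ‖θ‖ := by
      calc ‖v‖ = ‖(v - θ) + θ‖ := by rw [sub_add_cancel]
        _ ≤ _ := norm_add_le _ _
    linarith
  have hw : ‖(t : ℂ) • v‖ ≤ σ / (n + 1) := by
    rw [norm_smul, Complex.norm_real, Real.norm_of_nonneg h1.le]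
    have h5 : t ≤ σ / ((n + 1) * (‖θ‖ + ε)) := h2.le.trans (min_le_right _ _)
    calc t * ‖v‖ ≤ σ / ((n + 1) * (‖θ‖ + ε)) * (‖θ‖ + ε) := by gcongr
      _ = σ / (n + 1) := by
        field_simp
  have h6 := cone_nq_le ((t : ℂ) • v)
  have h7 : (n : ℝ) * ‖(t : ℂ) • v‖ ^ 2 ≤ n * (σ / (n + 1)) ^ 2 := by gcongr
  refine (h6.trans h7).trans_lt ?_
  rw [div_pow, ← mul_div_assoc, div_lt_iff₀ (by positivity)]
  nlinarith [sq_pos_of_pos hσ, sq_nonneg (n : ℝ), (Nat.cast_nonneg n : (0 : ℝ) ≤ n)]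

theorem idem_stp_one {a b : ℂ} (h0 : a + b ≠ 0) (h : 2 * ‖b‖ ≤ ‖a‖) : stp (rat a b) = 1 := by
  have ha : a ≠ 0 := by
    rintro rfl
    rw [norm_zero] at h
    have hb : ‖b‖ = 0 := le_antisymm (by linarith) (norm_nonneg _)
    rw [norm_eq_zero] at hb
    rw [hb, add_zero] at h0
    exact h0 rfl
  have hpos : 0 < ‖a‖ := norm_pos_iff.2 ha
  unfold stp
  apply Real.smoothTransition.one_of_one_le
  have h1 : 2 / 3 ≤ rat a b := by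
    unfold rat
    rw [le_div_iff₀ (by positivity)]
    nlinarith [norm_nonneg b]
  linarith

theorem idem_stp_zero {a b : ℂ} (h0 : a + b ≠ 0) (h : 2 * ‖a‖ ≤ ‖b‖) : stp (rat a b) = 0 := by
  have hb : b ≠ 0 := by
    rintro rfl
    rw [norm_zero] at h
    have ha : ‖a‖ = 0 := le_antisymm (by linarith) (norm_nonneg _)
    rw [norm_eq_zero] at ha
    rw [ha, add_zero] at h0
    exact h0 rfl
  have hpos : 0 < ‖b‖ := norm_pos_iff.2 hb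
  unfold stp
  apply Real.smoothTransition.zero_of_nonpos
  have h1 : rat a b ≤ 1 / 3 := by
    unfold rat
    rw [div_le_iff₀ (by positivity)]
    nlinarith [norm_nonneg a]
  linarith

variable {n d : ℕ} {B : Type} [CommRing B] [IsDomain B] [Algebra ℂ B] {G : Germ n d B} {x : Pt B}
  {h : B} {s κ : ℝ} {sg : B} {m : ℕ} {ρ₁ : ℝ}

/-- the lower bound at one point -/
theorem idem_point {v : ℝ} {z c : ℂ} {X : ℝ} (hX : 0 ≤ X) (hv : 1 / 2 ≤ ‖(v : ℂ) - c‖)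
    (hz : ‖z - c‖ ≤ 1 / 4) {K y : ℝ≥0∞} (hK : K ≤ y) :
    K * ENNReal.ofReal (1 / 16) * ENNReal.ofReal X ≤
      ENNReal.ofReal (‖(v : ℂ) - z‖ ^ 2 * X) * y := by
  have h1 : 1 / 4 ≤ ‖(v : ℂ) - z‖ := by
    have h2 : ‖(v : ℂ) - c‖ ≤ ‖(v : ℂ) - z‖ + ‖z - c‖ := by
      calc ‖(v : ℂ) - c‖ = ‖((v : ℂ) - z) + (z - c)‖ := by congr 1; ring
        _ ≤ _ := norm_add_le _ _
    linarith
  have h3 : 1 / 16 * X ≤ ‖(v : ℂ) - z‖ ^ 2 * X := by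
    apply mul_le_mul_of_nonneg_right _ hX
    nlinarith
  calc K * ENNReal.ofReal (1 / 16) * ENNReal.ofReal X
      = ENNReal.ofReal (1 / 16 * X) * K := by
        rw [ENNReal.ofReal_mul (by norm_num)]
        ring
    _ ≤ _ := by gcongr

/-- T6, the idempotent lemma. -/
theorem idem (H : Std G x h s κ sg m ρ₁) : ∃ C' ρ₂ : ℝ, 0 < C' ∧ 0 < ρ₂ ∧
    ∀ ρ : ℝ, 0 < ρ → ρ ≤ ρ₂ → ∀ (A : (Fin n → ℂ) → ℂ) (o : ℕ) (f₁ f₂ : Pt B → ℂ) (M : ℕ),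
      IsPair G sg ρ A o f₁ f₂ M → C' * o ≤ M →
      ∀ (θ : Fin n → ℂ) (ε t₀ : ℝ), 0 < ε → ε < ‖θ‖ / 2 → 0 < t₀ → cone θ ε t₀ ⊆ bal n ρ →
      ¬ ((∀ w ∈ cone θ ε t₀, eval w G.D ≠ 0 → ∃ χ ∈ UU G sg ρ, proj G.y χ = w ∧
            2 * ‖f₂ χ‖ ≤ ‖f₁ χ‖) ∧
          ∀ w ∈ cone θ ε t₀, eval w G.D ≠ 0 → ∃ χ ∈ UU G sg ρ, proj G.y χ = w ∧
            2 * ‖f₁ χ‖ ≤ ‖f₂ χ‖) := by
  obtain ⟨C', ρ₂, hC', hρ₂, hhorm⟩ := idem_horm H
  have hDd : DifferentiableOn ℂ (fun w : Fin n → ℂ => eval w G.D) (bal n 1) :=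
    (dual_differentiable_eval G.D).differentiableOn
  obtain ⟨k₀, hk₀, hk₀'⟩ := exists_ord one_pos hDd (idemh_poly_ne G.D_ne one_pos)
  obtain ⟨ρ₃, hρ₃, hlip⟩ := idem_lip H (k₀ + 1)
  refine ⟨C', min ρ₂ ρ₃, hC', lt_min hρ₂ hρ₃, ?_⟩
  rintro ρ hρ hρ2 A o f₁ f₂ M hP hM θ₀ ε₀ t₀₀ hε₀ hθ₀ ht₀₀ - ⟨hk1₀, hk2₀⟩
  -- a smaller cone on which `|D|` is bounded below by a power of `|w|`
  obtain ⟨θ, ε, t₀, cD, hε, hθ, ht₀, hcD, hsubc, hlow⟩ :=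
    idem_subcone one_pos hDd hk₀ hk₀' hε₀ hθ₀ ht₀₀
  have hk1 : ∀ w ∈ cone θ ε t₀, eval w G.D ≠ 0 → ∃ χ ∈ UU G sg ρ, proj G.y χ = w ∧
      2 * ‖f₂ χ‖ ≤ ‖f₁ χ‖ := fun w hw => hk1₀ w (hsubc hw)
  have hk2 : ∀ w ∈ cone θ ε t₀, eval w G.D ≠ 0 → ∃ χ ∈ UU G sg ρ, proj G.y χ = w ∧
      2 * ‖f₁ χ‖ ≤ ‖f₂ χ‖ := fun w hw => hk2₀ w (hsubc hw)
  obtain ⟨ρ', hρ', hρρ', C₁, hC₁⟩ := hhorm ρ hρ (hρ2.trans (min_le_left _ _)) A o f₁ f₂ M hP hM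
  have hbal : bal n ρ' ⊆ bal n ρ := fun w hw =>
    lt_of_lt_of_le hw (pow_le_pow_left₀ hρ'.le hρρ' 2)
  have hA' : DifferentiableOn ℂ A (bal n ρ') := hP.A_holo.mono hbal
  have hne : ∃ w ∈ bal n ρ', A w ≠ 0 := by
    by_contra hcon
    push Not at hcon
    refine hP.A_ord ⟨0, ρ', hρ', fun w hw => ?_⟩
    rw [hcon w hw]
    simp
  have hQ := idemh_isQ (G := G) hρ' hA' hne
  obtain ⟨C₂', ρ'', hC₂', hρ'', hρρ'', hl⟩ :=
    hlip ρ' _ (hρρ'.trans (hρ2.trans (min_le_right _ _))) hQ C₁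
  set C₂ : ℝ := C₂' * (1 + cD⁻¹) with hC₂
  obtain ⟨Ch, hCh⟩ := G.bdd h 1
  -- the small cone
  set σ : ℝ := min ρ'' (min 1 (1 / (4 * (|C₂| + 1)))) with hσ
  have hσ0 : 0 < σ := by positivity
  obtain ⟨t₁, ht₁, ht₁₀, hsmall⟩ := idem_cone_small θ hε ht₀ hσ0
  -- the constants
  set K : ℝ≥0∞ := ENNReal.ofReal (|Ch| + 1) ^ (-(2 * s)) with hK
  have hs0 := H.meas.s_nonneg
  have hCpos : 0 < |Ch| + 1 := by positivity
  have hK0 : K ≠ 0 := by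
    rw [hK]
    exact (ENNReal.rpow_pos (ENNReal.ofReal_pos.2 hCpos) ENNReal.ofReal_ne_top).ne'
  have hKtop : K ≠ ⊤ := by
    rw [hK]
    exact ENNReal.rpow_ne_top_of_ne_zero (ENNReal.ofReal_pos.2 hCpos).ne' ENNReal.ofReal_ne_top
  have hKle : ∀ χ : Pt B, nq (proj G.y χ) ≤ 1 → K ≤ ‖χ h‖ₑ ^ (-(2 * s)) := by
    intro χ hχ
    rw [hK, ENNReal.rpow_neg, ENNReal.rpow_neg, ENNReal.inv_le_inv]
    apply ENNReal.rpow_le_rpow _ (by linarith)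
    rw [← ofReal_norm]
    apply ENNReal.ofReal_le_ofReal
    have h1 := hCh χ hχ
    have h2 := le_abs_self Ch
    linarith
  set K' : ℝ≥0∞ := K * ENNReal.ofReal (1 / 16) with hK'
  have hK'0 : K' ≠ 0 := mul_ne_zero hK0 (ENNReal.ofReal_pos.2 (by norm_num)).ne'
  have hK'top : K' ≠ ⊤ := ENNReal.mul_ne_top hKtop ENNReal.ofReal_ne_top
  have hn : 1 ≤ n := by
    have := H.hn
    omega
  obtain ⟨η, hη, hη1, hdiv⟩ := cone_div hn hε hθ ht₁ ((C₁ : ℝ≥0∞) / K').toNNReal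
  have hfin : (C₁ : ℝ≥0∞) / K' ≠ ⊤ := ENNReal.div_ne_top ENNReal.coe_ne_top hK'0
  rw [ENNReal.coe_toNNReal hfin] at hdiv
  obtain ⟨b, hb, hb2, hb3⟩ := hC₁ η hη hη1
  obtain ⟨c, hc⟩ := hl b hb hb2
  -- the pointwise estimate
  have key : ∀ᵐ w ∂(volume.restrict (cone θ ε t₁)),
      K' * ENNReal.ofReal ((nq w + η) ^ (-(n : ℝ))) ≤
        ∑' χ : {χ : Pt B // χ ∈ VV G sg (fun w => eval w G.D * A w) ρ' ∧ proj G.y χ = w},
          ENNReal.ofReal (‖(stp (rat (f₁ χ) (f₂ χ)) : ℂ) - b χ‖ ^ 2 *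
            (nq (proj G.y χ) + η) ^ (-(n : ℝ))) * ‖(χ : Pt B) h‖ₑ ^ (-(2 * s)) := by
    have hnull := null_zeros hQ.holo hQ.ne
    filter_upwards [ae_restrict_mem (idem_cone_isOpen θ ε t₁).measurableSet,
      ae_restrict_of_ae (compl_mem_ae_iff.2 hnull)] with w hw hw2
    have hwσ := hsmall w hw
    have hw0 := nq_nonneg w
    have hwρ'' : nq w < ρ'' ^ 2 := hwσ.trans_le (by gcongr; exact min_le_left _ _)
    have hwρ' : nq w < ρ' ^ 2 := hwρ''.trans_le (by gcongr)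
    have hw1 : nq w ≤ 1 := by
      have h1 : nq w < 1 ^ 2 := hwσ.trans_le
        (by gcongr; exact (min_le_right _ _).trans (min_le_left _ _))
      linarith
    have hwC : C₂ * √(nq w) ≤ 1 / 4 := by
      have h1 : √(nq w) ≤ 1 / (4 * (|C₂| + 1)) := by
        apply Real.sqrt_le_iff.2
        refine ⟨by positivity, hwσ.le.trans ?_⟩
        gcongr
        exact (min_le_right _ _).trans (min_le_right _ _)
      have h2 : C₂ * √(nq w) ≤ |C₂| * √(nq w) :=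
        mul_le_mul_of_nonneg_right (le_abs_self _) (Real.sqrt_nonneg _)
      have h3 : |C₂| * √(nq w) ≤ |C₂| * (1 / (4 * (|C₂| + 1))) := by gcongr
      have h4 : |C₂| * (1 / (4 * (|C₂| + 1))) ≤ 1 / 4 := by
        rw [mul_one_div, div_le_iff₀ (by positivity)]
        linarith [abs_nonneg C₂]
      linarith
    have hQw : eval w G.D * A w ≠ 0 := fun h0 => hw2 ⟨hwρ', h0⟩
    have hDw : eval w G.D ≠ 0 := left_ne_zero_of_mul hQw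
    have hAw : A w ≠ 0 := right_ne_zero_of_mul hQw
    have hwc := idem_cone_mono ht₁₀ hw
    -- one point is enough
    have hpt : ∀ χ ∈ UU G sg ρ, proj G.y χ = w → ∀ v : ℝ, stp (rat (f₁ χ) (f₂ χ)) = v →
        1 / 2 ≤ ‖(v : ℂ) - c‖ → K' * ENNReal.ofReal ((nq w + η) ^ (-(n : ℝ))) ≤
        ∑' χ : {χ : Pt B // χ ∈ VV G sg (fun w => eval w G.D * A w) ρ' ∧ proj G.y χ = w},
          ENNReal.ofReal (‖(stp (rat (f₁ χ) (f₂ χ)) : ℂ) - b χ‖ ^ 2 *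
            (nq (proj G.y χ) + η) ^ (-(n : ℝ))) * ‖(χ : Pt B) h‖ₑ ^ (-(2 * s)) := by
      intro χ hχ hχw v hv hvc
      have hmem : χ ∈ VV G sg (fun w => eval w G.D * A w) ρ' := by
        refine ⟨by rw [hχw]; exact hwρ', by rw [hχw]; exact hQw, hχ.2⟩
      have hmem' : χ ∈ VV G sg (fun w => eval w G.D * A w) ρ'' := by
        refine ⟨by rw [hχw]; exact hwρ'', by rw [hχw]; exact hQw, hχ.2⟩
      refine le_trans ?_ (ENNReal.le_tsum ⟨χ, hmem, hχw⟩)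
      show K' * ENNReal.ofReal ((nq w + η) ^ (-(n : ℝ))) ≤
        ENNReal.ofReal (‖(stp (rat (f₁ χ) (f₂ χ)) : ℂ) - b χ‖ ^ 2 *
            (nq (proj G.y χ) + η) ^ (-(n : ℝ))) * ‖χ h‖ₑ ^ (-(2 * s))
      rw [hv, hχw]
      apply idem_point (c := c) (by positivity) hvc
      · have h1 := hc χ hmem'
        rw [hχw] at h1
        have h2 := hlow w hwc
        have hD0 : 0 < ‖eval w G.D‖ := norm_pos_iff.2 hDw
        have hr := Real.sqrt_nonneg (nq w)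
        have h3 : √(nq w) ^ (k₀ + 1) ≤ ‖eval w G.D‖ * √(nq w) * cD⁻¹ := by
          have h4 : √(nq w) ^ k₀ ≤ ‖eval w G.D‖ * cD⁻¹ := by
            rw [← div_eq_mul_inv, le_div_iff₀ hcD, mul_comm]
            exact h2
          calc √(nq w) ^ (k₀ + 1) = √(nq w) ^ k₀ * √(nq w) := pow_succ _ _
            _ ≤ ‖eval w G.D‖ * cD⁻¹ * √(nq w) := mul_le_mul_of_nonneg_right h4 hr
            _ = ‖eval w G.D‖ * √(nq w) * cD⁻¹ := by ring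
        have h5 : ‖eval w G.D‖ * ‖b χ - c‖ ≤ ‖eval w G.D‖ * (C₂ * √(nq w)) := by
          refine h1.trans ?_
          calc C₂' * (‖eval w G.D‖ * √(nq w) + √(nq w) ^ (k₀ + 1))
              ≤ C₂' * (‖eval w G.D‖ * √(nq w) + ‖eval w G.D‖ * √(nq w) * cD⁻¹) := by gcongr
            _ = ‖eval w G.D‖ * (C₂ * √(nq w)) := by rw [hC₂]; ring
        exact (le_of_mul_le_mul_left h5 hD0).trans hwC
      · exact hKle χ (by rw [hχw]; exact hw1)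
    have hsum : ∀ χ ∈ UU G sg ρ, proj G.y χ = w → f₁ χ + f₂ χ ≠ 0 := by
      intro χ hχ hχw
      rw [hP.sum χ ⟨hχ.1, by rw [hχw]; exact hDw, hχ.2⟩, hχw]
      exact hAw
    rcases le_or_gt (1 / 2) ‖(1 : ℂ) - c‖ with h1 | h1
    · obtain ⟨χ, hχ, hχw, h2⟩ := hk1 w hwc hDw
      refine hpt χ hχ hχw 1 (idem_stp_one (hsum χ hχ hχw) h2) ?_
      rw [Complex.ofReal_one]
      exact h1
    · obtain ⟨χ, hχ, hχw, h2⟩ := hk2 w hwc hDw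
      refine hpt χ hχ hχw 0 (idem_stp_zero (hsum χ hχ hχw) h2) ?_
      rw [Complex.ofReal_zero, zero_sub, norm_neg]
      have h3 : (1 : ℝ) ≤ ‖(1 : ℂ) - c‖ + ‖c‖ := by
        calc (1 : ℝ) = ‖((1 : ℂ) - c) + c‖ := by simp
          _ ≤ _ := norm_add_le _ _
      linarith
  have h1 : ∫⁻ w in cone θ ε t₁, K' * ENNReal.ofReal ((nq w + η) ^ (-(n : ℝ))) ≤ C₁ := by
    refine (lintegral_mono_ae key).trans ((setLIntegral_le_lintegral _ _).trans ?_)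
    exact hb3
  rw [lintegral_const_mul' _ _ hK'top] at h1
  have h2 : ∫⁻ w in cone θ ε t₁, ENNReal.ofReal ((nq w + η) ^ (-(n : ℝ))) ≤
      (C₁ : ℝ≥0∞) / K' := by
    rw [ENNReal.le_div_iff_mul_le (Or.inl hK'0) (Or.inl hK'top), mul_comm]
    exact h1
  exact absurd hdiv (not_lt.2 h2)

end Pool.Agent.Odp3
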