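import Pool.Agent.Odp3.Eq.IntB

open scoped ContDiff Topology ENNReal NNReal WithZero
open Set MeasureTheory Filter MvPolynomial Pool.Agent.ODP

namespace Pool.Agent.Odp3

/-- `|A|^(-2t)` is integrable near `0` if `t < 1 / ord A`. -/
theorem int_pow {n : ℕ} (hn : 1 ≤ n) {ρ : ℝ} (hρ : 0 < ρ) {A : (Fin n → ℂ) → ℂ}
    (hA : DifferentiableOn ℂ A (bal n ρ)) {o : ℕ} (ho : ¬ OrdGe A (o + 1)) {t : ℝ} (ht : 0 ≤ t)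
    (hto : t * o < 1) : ∃ ρ' : ℝ, 0 < ρ' ∧ ρ' ≤ ρ ∧
      ∫⁻ w in bal n ρ', ‖A w‖ₑ ^ (-(2 * t)) ≠ ⊤ := int_pow' hn hρ hA ho ht hto

end Pool.Agent.Odp3
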