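import Pool.Agent.Odp3.Eq.IdemC
import Pool.Agent.Odp3.Eq.Sub
import Pool.Agent.Odp3.Eq.IdemHAux
import Pool.Agent.Odp3.Horm.Sheets
import Pool.Agent.Odp3.Pt.Bdd
import Pool.Agent.Odp3.Pt.Sheets

open scoped ContDiff Topology ENNReal NNReal WithZero
open Set MeasureTheory Filter MvPolynomial Pool.Agent.ODP
  Pool.Agent.ToricKRF
  Pool.Agent.ToricKRF.G Pool.Agent.KRFS Pool.Agent.KRFQ

namespace Pool.Agent.Odp3

open Pool.Agent.KRFX Pool.Agent.KRFF.NF Pool.Agent.KRFG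

/-! ### The step function -/

theorem idemh_contDiff_stp : ContDiff ℝ ∞ stp := by
  unfold stp
  exact (Real.smoothTransition.contDiff (n := ⊤)).comp
    ((contDiff_const.mul contDiff_id).sub contDiff_const)

theorem idemh_stp_nonneg (t : ℝ) : 0 ≤ stp t := Real.smoothTransition.nonneg _

theorem idemh_stp_le_one (t : ℝ) : stp t ≤ 1 := Real.smoothTransition.le_one _

theorem idemh_deriv_zero {t : ℝ} (ht : t < 1 / 3 ∨ 2 / 3 < t) : deriv stp t = 0 := by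
  rcases ht with ht | ht
  · have h1 : stp =ᶠ[𝓝 t] fun _ => (0 : ℝ) := by
      filter_upwards [Iio_mem_nhds ht] with x hx
      have hx' : x < 1 / 3 := hx
      exact Real.smoothTransition.zero_of_nonpos (by linarith)
    rw [h1.deriv_eq]
    simp
  · have h1 : stp =ᶠ[𝓝 t] fun _ => (1 : ℝ) := by
      filter_upwards [Ioi_mem_nhds ht] with x hx
      have hx' : 2 / 3 < x := hx
      exact Real.smoothTransition.one_of_one_le (by linarith)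
    rw [h1.deriv_eq]
    simp

theorem idemh_mem {t : ℝ} (ht : deriv stp t ≠ 0) : 1 / 3 ≤ t ∧ t ≤ 2 / 3 := by
  constructor
  · by_contra h
    exact ht (idemh_deriv_zero (Or.inl (not_le.1 h)))
  · by_contra h
    exact ht (idemh_deriv_zero (Or.inr (not_le.1 h)))

theorem idemh_continuous_deriv : Continuous (deriv stp) :=
  idemh_contDiff_stp.continuous_deriv (by simp)

theorem idemh_deriv_bdd : ∃ M : ℝ, 0 < M ∧ ∀ t, deriv stp t ^ 2 ≤ M := by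
  obtain ⟨M, hM⟩ := (isCompact_Icc (a := (1 / 3 : ℝ)) (b := 2 / 3)).exists_bound_of_continuousOn
    (idemh_continuous_deriv.pow 2).continuousOn
  refine ⟨max M 1, lt_of_lt_of_le one_pos (le_max_right _ _), fun t => ?_⟩
  by_cases ht : deriv stp t = 0
  · rw [ht]
    exact (by norm_num : (0 : ℝ) ^ 2 ≤ 1).trans (le_max_right _ _)
  · have h1 := hM t (idemh_mem ht)
    rw [Real.norm_eq_abs, abs_of_nonneg (sq_nonneg _)] at h1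
    exact h1.trans (le_max_left _ _)

/-! ### Real estimates -/

theorem idemh_young {a H P s κ : ℝ} (ha : 0 < a) (hH : 0 < H) (hs : 0 ≤ s) (hκ : 0 < κ)
    (hP : P = (s + κ) / κ) {t : ℝ} :
    a ^ (-(2 * t)) * H ^ (-(2 * s)) ≤ a ^ (-(2 * (t * P))) + H ^ (-(2 * (s + κ))) := by
  have e1 : a ^ (-(2 * (t * P))) = (a ^ (-(2 * t))) ^ P := by
    rw [← Real.rpow_mul ha.le]
    congr 1
    ring
  have e2 : H ^ (-(2 * s)) = (H ^ (-(2 : ℝ))) ^ s := by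
    rw [← Real.rpow_mul hH.le]
    congr 1
    ring
  have e3 : H ^ (-(2 * (s + κ))) = (H ^ (-(2 : ℝ))) ^ (s + κ) := by
    rw [← Real.rpow_mul hH.le]
    congr 1
    ring
  rw [e1, e2, e3]
  have hb : 0 < H ^ (-(2 : ℝ)) := by positivity
  have hc : 0 < a ^ (-(2 * t)) := by positivity
  generalize H ^ (-(2 : ℝ)) = b at hb
  generalize a ^ (-(2 * t)) = c at hc
  rcases le_total c (b ^ κ) with h | h
  · have h1 : c * b ^ s ≤ b ^ (s + κ) := by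
      calc c * b ^ s ≤ b ^ κ * b ^ s := by gcongr
        _ = _ := by rw [← Real.rpow_add hb, add_comm]
    have h2 : 0 ≤ c ^ P := by positivity
    linarith
  · have h3 : b ≤ c ^ (1 / κ) := by
      calc b = (b ^ κ) ^ (1 / κ) := by
            rw [← Real.rpow_mul hb.le, mul_one_div_cancel hκ.ne', Real.rpow_one]
        _ ≤ c ^ (1 / κ) := by gcongr
    have h1 : c * b ^ s ≤ c ^ P := by
      calc c * b ^ s ≤ c * (c ^ (1 / κ)) ^ s := by gcongr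
        _ = c ^ (1 : ℝ) * c ^ (1 / κ * s) := by rw [Real.rpow_one, ← Real.rpow_mul hc.le]
        _ = c ^ P := by
          rw [← Real.rpow_add hc, hP]
          congr 1
          field_simp
          ring
    have h2 : 0 ≤ b ^ (s + κ) := by positivity
    linarith

/-- the bound of the weight in the transition region -/
theorem idemh_region {a N Cm q η ε₁ : ℝ} {M n : ℕ} (ha : 0 < a) (hM : 1 ≤ M) (hCm : 0 < Cm)
    (haN : a ^ 2 ≤ 2 * N) (hN : N ≤ 3 * (Cm * √q ^ M)) (hη : 0 < η) (hε : 0 ≤ ε₁) :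
    (q + η) ^ (-(n : ℝ)) * N ^ (-ε₁) ≤
      (6 * Cm) ^ (2 * (n : ℝ) / M) * 2 ^ ε₁ * a ^ (-(2 * (ε₁ + 2 * n / M))) := by
  have hN0 : 0 < N := by nlinarith [sq_pos_of_pos ha]
  have hM0 : (0 : ℝ) < M := by exact_mod_cast hM
  have hq0 : 0 < √q := by
    rcases (Real.sqrt_nonneg q).eq_or_lt with h | h
    · rw [← h, zero_pow (by omega)] at hN
      linarith
    · exact h
  have hqpos : 0 < q := Real.sqrt_pos.1 hq0
  have h1 : N ^ (-ε₁) ≤ 2 ^ ε₁ * a ^ (-(2 * ε₁)) := by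
    calc N ^ (-ε₁) ≤ (a ^ 2 / 2) ^ (-ε₁) := by
          refine Real.rpow_le_rpow_of_nonpos (by positivity) (by linarith) (by linarith)
      _ = 2 ^ ε₁ * a ^ (-(2 * ε₁)) := by
          rw [Real.div_rpow (by positivity) (by norm_num), Real.rpow_neg (by norm_num : (0:ℝ) ≤ 2),
            div_inv_eq_mul, mul_comm, ← Real.rpow_natCast a 2, ← Real.rpow_mul ha.le]
          congr 2
          push_cast
          ring
  have h2 : (q + η) ^ (-(n : ℝ)) ≤ (6 * Cm) ^ (2 * (n : ℝ) / M) * a ^ (-(2 * (2 * (n : ℝ) / M))) := by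
    have h3 : a ^ 2 / (6 * Cm) ≤ √q ^ M := by
      rw [div_le_iff₀ (by positivity)]
      nlinarith
    calc (q + η) ^ (-(n : ℝ)) ≤ q ^ (-(n : ℝ)) :=
          Real.rpow_le_rpow_of_nonpos hqpos (by linarith) (by simp)
      _ = (√q ^ M) ^ (-(2 * (n : ℝ) / M)) := by
          rw [Real.sqrt_eq_rpow, ← Real.rpow_natCast, ← Real.rpow_mul hqpos.le,
            ← Real.rpow_mul hqpos.le]
          congr 1
          field_simp
      _ ≤ (a ^ 2 / (6 * Cm)) ^ (-(2 * (n : ℝ) / M)) := by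
          refine Real.rpow_le_rpow_of_nonpos (by positivity) h3 ?_
          have : 0 ≤ 2 * (n : ℝ) / M := by positivity
          linarith
      _ = _ := by
          rw [Real.div_rpow (by positivity) (by positivity),
            Real.rpow_neg (by positivity : 0 ≤ 6 * Cm), div_inv_eq_mul, mul_comm,
            ← Real.rpow_natCast a 2, ← Real.rpow_mul ha.le]
          congr 2
          push_cast
          ring
  calc (q + η) ^ (-(n : ℝ)) * N ^ (-ε₁)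
      ≤ ((6 * Cm) ^ (2 * (n : ℝ) / M) * a ^ (-(2 * (2 * (n : ℝ) / M)))) *
        (2 ^ ε₁ * a ^ (-(2 * ε₁))) := by gcongr
    _ = (6 * Cm) ^ (2 * (n : ℝ) / M) * 2 ^ ε₁ *
        (a ^ (-(2 * (2 * (n : ℝ) / M))) * a ^ (-(2 * ε₁))) := by ring
    _ = _ := by
        rw [← Real.rpow_add ha]
        congr 2
        ring

theorem idemh_rat_region {f g : ℂ} (h1 : 1 / 3 ≤ rat f g) (h2 : rat f g ≤ 2 / 3)
    (hN : 0 < ‖f‖ ^ 2 + ‖g‖ ^ 2) : ‖f‖ ^ 2 + ‖g‖ ^ 2 ≤ 3 * ‖f * g‖ := by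
  unfold rat at h1 h2
  rw [le_div_iff₀ hN] at h1
  rw [div_le_iff₀ hN] at h2
  rw [norm_mul]
  have h3 : ((‖f‖ ^ 2 + ‖g‖ ^ 2) / 3) ^ 2 ≤ (‖f‖ * ‖g‖) ^ 2 := by
    have h4 : (‖f‖ ^ 2 + ‖g‖ ^ 2) / 3 ≤ ‖f‖ ^ 2 := by linarith
    have h5 : (‖f‖ ^ 2 + ‖g‖ ^ 2) / 3 ≤ ‖g‖ ^ 2 := by linarith
    rw [pow_two, mul_pow]
    exact mul_le_mul h4 h5 (by positivity) (by positivity)
  have h6 := abs_le_of_sq_le_sq' h3 (by positivity)
  linarith [h6.2]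


theorem idemh_enorm_rpow {z : ℂ} (hz : z ≠ 0) (t : ℝ) :
    ‖z‖ₑ ^ t = ENNReal.ofReal (‖z‖ ^ t) := by
  rw [← ofReal_norm, ENNReal.ofReal_rpow_of_pos (norm_pos_iff.2 hz)]

section

variable {n d : ℕ} {B : Type} [CommRing B] [Algebra ℂ B] {G : Germ n d B}

theorem idemh_sec_mono {V V' : Set (Pt B)} (hV : V ⊆ V') {Ω : Set (Fin n → ℂ)}
    {σ : (Fin n → ℂ) → Pt B} (hσ : IsSec G V Ω σ) : IsSec G V' Ω σ :=
  ⟨hσ.isOpen, fun w hw => hV (hσ.mem w hw), hσ.proj, hσ.holo⟩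

/-- finiteness of the integral of `|A|^(-2t) |h|^(-2s)` -/
theorem idemh_fin {sg : B} {ρb ρ₁ ρ : ℝ}
    (hd : ∀ χ : Pt B, nq (proj G.y χ) < ρb ^ 2 → ‖χ sg - 1‖ < 1 / 4 ∨ ‖χ sg‖ < 1 / 4)
    (hρb : ρ ≤ ρb) (hρ₁ : ρ ≤ ρ₁) {A Q : (Fin n → ℂ) → ℂ} (hA : DifferentiableOn ℂ A (bal n ρ))
    (hQ : IsQ G Q ρ) (hQA : ∀ w, Q w ≠ 0 → A w ≠ 0) {h : B}
    (hh : ∀ χ ∈ VV G sg Q ρ, χ h ≠ 0) {s κ P : ℝ} (hs : 0 ≤ s) (hκ : 0 < κ)
    (hP : P = (s + κ) / κ)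
    (hklt : sumI G (UU G sg ρ₁) (fun χ => ‖χ h‖ₑ ^ (-(2 * (s + κ)))) ≠ ⊤) {t : ℝ}
    (hint : ∫⁻ w in bal n ρ, ‖A w‖ₑ ^ (-(2 * (t * P))) ≠ ⊤) :
    sumI G (VV G sg Q ρ) (fun χ => ENNReal.ofReal (‖A (proj G.y χ)‖ ^ (-(2 * t)) *
      ‖χ h‖ ^ (-(2 * s)))) ≠ ⊤ := by
  have hρ0 := hQ.pos
  have h1 : sumI G (VV G sg Q ρ) (fun χ => ‖A (proj G.y χ)‖ₑ ^ (-(2 * (t * P))) +
      ‖χ h‖ₑ ^ (-(2 * (s + κ)))) ≠ ⊤ := by
    rw [idemh_sumI_add hd hρb hQ (F := fun χ => ‖A (proj G.y χ)‖ₑ ^ (-(2 * (t * P))))]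
    · refine ENNReal.add_ne_top.2 ⟨?_, ?_⟩
      · exact ne_top_of_le_ne_top (ENNReal.mul_ne_top (by finiteness) hint)
          (idemh_sumI_proj hQ fun w => ‖A w‖ₑ ^ (-(2 * (t * P))))
      · have hsub : VV G sg Q ρ ⊆ UU G sg ρ₁ := fun χ hχ => ⟨hχ.1.trans_le (by gcongr), hχ.2.2⟩
        exact ne_top_of_le_ne_top hklt (sumI_mono G hsub _)
    · intro Ω σ hσ
      have h2 : ContinuousOn (fun w => ‖A w‖ₑ ^ (-(2 * (t * P)))) Ω := by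
        have h3 : ContinuousOn A Ω := hA.continuousOn.mono fun w hw => by
          have := (hσ.mem w hw).1
          rwa [hσ.proj w hw] at this
        exact ENNReal.continuous_rpow_const.comp_continuousOn (continuous_enorm.comp_continuousOn h3)
      refine h2.congr fun w hw => ?_
      simp only
      rw [hσ.proj w hw]
  refine ne_top_of_le_ne_top h1 ?_
  have h4 := cut_sumI_le (G := G) (S := VV G sg Q ρ) (S' := VV G sg Q ρ)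
    (F := fun χ => ENNReal.ofReal (‖A (proj G.y χ)‖ ^ (-(2 * t)) * ‖χ h‖ ^ (-(2 * s))))
    (F' := fun χ => ‖A (proj G.y χ)‖ₑ ^ (-(2 * (t * P))) + ‖χ h‖ₑ ^ (-(2 * (s + κ))))
    ENNReal.one_ne_top fun χ hχ => Or.inl ⟨hχ, ?_⟩
  · rwa [one_mul] at h4
  · have hA0 : A (proj G.y χ) ≠ 0 := hQA _ hχ.2.1
    have hh0 := hh χ hχ
    rw [one_mul, idemh_enorm_rpow hA0, idemh_enorm_rpow hh0,
      ← ENNReal.ofReal_add (by positivity) (by positivity)]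
    exact ENNReal.ofReal_le_ofReal (idemh_young (norm_pos_iff.2 hA0) (norm_pos_iff.2 hh0) hs hκ hP)

/-- the weight function of the idempotent lemma -/
noncomputable def idemhPhi (G : Germ n d B) (f₁ f₂ : Pt B → ℂ) (h : B) (η ε₁ s : ℝ)
    (χ : Pt B) : ℝ :=
  n * Real.log (nq (proj G.y χ) + η) + ε₁ * Real.log (‖f₁ χ‖ ^ 2 + ‖f₂ χ‖ ^ 2) +
    s * Real.log (Complex.normSq (χ h))

theorem idemh_exp_phi {f₁ f₂ : Pt B → ℂ} {h : B} {η ε₁ s : ℝ} (hη : 0 < η) {χ : Pt B}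
    (hχ : χ h ≠ 0) (hN : 0 < ‖f₁ χ‖ ^ 2 + ‖f₂ χ‖ ^ 2) :
    Real.exp (-idemhPhi G f₁ f₂ h η ε₁ s χ) = (nq (proj G.y χ) + η) ^ (-(n : ℝ)) *
      (‖f₁ χ‖ ^ 2 + ‖f₂ χ‖ ^ 2) ^ (-ε₁) * ‖χ h‖ ^ (-(2 * s)) := by
  have h2 : 0 < nq (proj G.y χ) + η := by
    have := nq_nonneg (proj G.y χ)
    positivity
  have h3 : 0 < ‖χ h‖ := norm_pos_iff.2 hχ
  unfold idemhPhi
  rw [Real.rpow_def_of_pos h2, Real.rpow_def_of_pos hN, Real.rpow_def_of_pos h3, ← Real.exp_add,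
    ← Real.exp_add, Complex.normSq_eq_norm_sq, Real.log_pow]
  congr 1
  push_cast
  ring

variable {V : Set (Pt B)} {f₁ f₂ : Pt B → ℂ}

theorem idemh_contDiffOn_N {Ω : Set (Fin n → ℂ)} {σ : (Fin n → ℂ) → Pt B} (hσ : IsSec G V Ω σ)
    (hf₁ : HolV G V f₁) (hf₂ : HolV G V f₂) (hN : ∀ χ ∈ V, 0 < ‖f₁ χ‖ ^ 2 + ‖f₂ χ‖ ^ 2) :
    ContDiffOn ℝ ∞ (fun z : Cn n => ‖f₁ (σ (cc z))‖ ^ 2 + ‖f₂ (σ (cc z))‖ ^ 2)
      {z | cc z ∈ Ω} ∧
    ContDiffOn ℝ ∞ (fun z : Cn n => Real.log (‖f₁ (σ (cc z))‖ ^ 2 + ‖f₂ (σ (cc z))‖ ^ 2))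
      {z | cc z ∈ Ω} ∧
    ContDiffOn ℝ ∞ (fun z : Cn n => ((stp (rat (f₁ (σ (cc z))) (f₂ (σ (cc z)))) : ℝ) : ℂ))
      {z | cc z ∈ Ω} := by
  have key : ∀ f : Pt B → ℂ, HolV G V f →
      ContDiffOn ℝ ∞ (fun z : Cn n => ‖f (σ (cc z))‖ ^ 2) {z | cc z ∈ Ω} := by
    intro f hf
    have h1 := (cut_holC hσ.isOpen (hf Ω σ hσ)).1
    have hre : ContDiffOn ℝ ∞ (fun z : Cn n => (f (σ (cc z))).re) {z | cc z ∈ Ω} :=
      Complex.reCLM.contDiff.comp_contDiffOn h1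
    have him : ContDiffOn ℝ ∞ (fun z : Cn n => (f (σ (cc z))).im) {z | cc z ∈ Ω} :=
      Complex.imCLM.contDiff.comp_contDiffOn h1
    refine ((hre.mul hre).add (him.mul him)).congr fun z _ => ?_
    rw [← Complex.normSq_eq_norm_sq, Complex.normSq_apply]
  have hN1 := (key f₁ hf₁).add (key f₂ hf₂)
  have hpos : ∀ z ∈ {z : Cn n | cc z ∈ Ω},
      ‖f₁ (σ (cc z))‖ ^ 2 + ‖f₂ (σ (cc z))‖ ^ 2 ≠ 0 := fun z hz => (hN _ (hσ.mem _ hz)).ne'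
  refine ⟨hN1, hN1.log hpos, ?_⟩
  have h2 : ContDiffOn ℝ ∞ (fun z : Cn n => rat (f₁ (σ (cc z))) (f₂ (σ (cc z))))
      {z | cc z ∈ Ω} := (key f₁ hf₁).div hN1 hpos
  exact Complex.ofRealCLM.contDiff.comp_contDiffOn (idemh_contDiff_stp.comp_contDiffOn h2)

theorem idemh_smR_phi (hf₁ : HolV G V f₁) (hf₂ : HolV G V f₂)
    (hN : ∀ χ ∈ V, 0 < ‖f₁ χ‖ ^ 2 + ‖f₂ χ‖ ^ 2) {h : B} (hh : ∀ χ ∈ V, χ h ≠ 0) {η ε₁ s : ℝ}
    (hη : 0 < η) : SmR G V (idemhPhi G f₁ f₂ h η ε₁ s) := by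
  intro Ω σ hσ
  have h1 : ContDiffOn ℝ ∞ (fun z : Cn n => Real.log (nsq z + η)) {z | cc z ∈ Ω} :=
    (cut_contDiff_log hη).contDiffOn
  have h2 := (idemh_contDiffOn_N hσ hf₁ hf₂ hN).2.1
  have h3 := cut_contDiffOn_h hσ hh
  have h4 : ContDiffOn ℝ ∞ (fun z : Cn n => (n : ℝ) * Real.log (nsq z + η) +
      ε₁ * Real.log (‖f₁ (σ (cc z))‖ ^ 2 + ‖f₂ (σ (cc z))‖ ^ 2) +
      s * Real.log (Complex.normSq (σ (cc z) h))) {z | cc z ∈ Ω} :=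
    ((contDiffOn_const.mul h1).add (contDiffOn_const.mul h2)).add (contDiffOn_const.mul h3)
  refine h4.congr fun z hz => ?_
  unfold idemhPhi
  rw [cut_sec_nq hσ hz]

theorem idemh_levz_phi {Ω : Set (Fin n → ℂ)} {σ : (Fin n → ℂ) → Pt B} (hσ : IsSec G V Ω σ)
    (hf₁ : HolV G V f₁) (hf₂ : HolV G V f₂)
    (hN : ∀ χ ∈ V, 0 < ‖f₁ χ‖ ^ 2 + ‖f₂ χ‖ ^ 2) {h : B} (hh : ∀ χ ∈ V, χ h ≠ 0) {η ε₁ s : ℝ}
    (hη : 0 < η) {z : Cn n} (hz : cc z ∈ Ω) (u : Cn n) :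
    ε₁ * levz (fun z => Real.log (‖f₁ (σ (cc z))‖ ^ 2 + ‖f₂ (σ (cc z))‖ ^ 2)) u z ≤
      levz (fun z => idemhPhi G f₁ f₂ h η ε₁ s (σ (cc z))) u z := by
  have hS : IsOpen {z : Cn n | cc z ∈ Ω} := cut_isOpen hσ.isOpen
  have hzS : z ∈ {z : Cn n | cc z ∈ Ω} := hz
  have hev : (fun z => idemhPhi G f₁ f₂ h η ε₁ s (σ (cc z))) =ᶠ[𝓝 z] fun z =>
      ((n : ℝ) * Real.log (nsq z + η) +
        ε₁ * Real.log (‖f₁ (σ (cc z))‖ ^ 2 + ‖f₂ (σ (cc z))‖ ^ 2)) +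
        s * Real.log (Complex.normSq (σ (cc z) h)) := by
    filter_upwards [hS.mem_nhds hzS] with z' hz'
    unfold idemhPhi
    rw [cut_sec_nq hσ hz']
  have c1 : ContDiffAt ℝ 2 (fun z : Cn n => Real.log (nsq z + η)) z :=
    ((cut_contDiff_log hη).contDiffAt).of_le two_le_infty
  have c2 : ContDiffAt ℝ 2
      (fun z : Cn n => Real.log (‖f₁ (σ (cc z))‖ ^ 2 + ‖f₂ (σ (cc z))‖ ^ 2)) z :=
    ((idemh_contDiffOn_N hσ hf₁ hf₂ hN).2.1.contDiffAt (hS.mem_nhds hzS)).of_le two_le_infty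
  have c3 : ContDiffAt ℝ 2 (fun z : Cn n => Real.log (Complex.normSq (σ (cc z) h))) z :=
    ((cut_contDiffOn_h hσ hh).contDiffAt (hS.mem_nhds hzS)).of_le two_le_infty
  rw [Pool.Agent.KRFS.Bd.levz_congr hev,
    Pool.Agent.KRFS.Bd.levz_add ((contDiffAt_const.mul c1).add (contDiffAt_const.mul c2))
    (contDiffAt_const.mul c3),
    Pool.Agent.KRFS.Bd.levz_add (contDiffAt_const.mul c1) (contDiffAt_const.mul c2),
    Pool.Agent.KRFS.Bd.levz_const_mul _ c1, Pool.Agent.KRFS.Bd.levz_const_mul _ c2,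
    Pool.Agent.KRFS.Bd.levz_const_mul _ c3,
    levz_log_normSq hS (cut_sec_holC hσ h) hzS (hh _ (hσ.mem _ hz))]
  have h1 : 0 ≤ levz (fun z : Cn n => Real.log (nsq z + η)) u z := by
    refine le_trans ?_ (cut_le_levz_log hη z u)
    have := NC.nsq_nonneg u
    positivity
  have h2 : 0 ≤ (n : ℝ) * levz (fun z : Cn n => Real.log (nsq z + η)) u z := by positivity
  linarith

end

variable {n d : ℕ} {B : Type} [CommRing B] [IsDomain B] [Algebra ℂ B] {G : Germ n d B} {x : Pt B}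
  {h : B} {s κ : ℝ} {sg : B} {m : ℕ} {ρ₁ : ℝ}

/-- The Hoermander step of the idempotent lemma. -/
theorem idem_horm (H : Std G x h s κ sg m ρ₁) : ∃ C' ρ₂ : ℝ, 0 < C' ∧ 0 < ρ₂ ∧
    ∀ ρ : ℝ, 0 < ρ → ρ ≤ ρ₂ → ∀ (A : (Fin n → ℂ) → ℂ) (o : ℕ) (f₁ f₂ : Pt B → ℂ) (M : ℕ),
      IsPair G sg ρ A o f₁ f₂ M → C' * o ≤ M → ∃ ρ' : ℝ, 0 < ρ' ∧ ρ' ≤ ρ ∧ ∃ C₁ : ℝ≥0,
      ∀ η : ℝ, 0 < η → η ≤ 1 → ∃ b : Pt B → ℂ,
        HolV G (VV G sg (fun w => eval w G.D * A w) ρ') b ∧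
        sumI G (VV G sg (fun w => eval w G.D * A w) ρ')
          (fun χ => ‖b χ‖ₑ ^ 2 * ‖χ h‖ₑ ^ (-(2 * s))) ≤ C₁ ∧
        sumI G (VV G sg (fun w => eval w G.D * A w) ρ')
          (fun χ => ENNReal.ofReal (‖(stp (rat (f₁ χ) (f₂ χ)) : ℂ) - b χ‖ ^ 2 *
            (nq (proj G.y χ) + η) ^ (-(n : ℝ))) * ‖χ h‖ₑ ^ (-(2 * s))) ≤ C₁ := by
  have hm1 : 1 ≤ m := by have := H.hm; omega
  obtain ⟨ρa, hρa, Hh⟩ := horm_sheets (G := G) hm1 H.sep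
  obtain ⟨ρb, _, hρb, hdich⟩ := H.sep.dich hm1
  have hd : ∀ χ : Pt B, nq (proj G.y χ) < ρb ^ 2 → ‖χ sg - 1‖ < 1 / 4 ∨ ‖χ sg‖ < 1 / 4 :=
    fun χ h => (hdich χ h).imp (fun h => h.1) fun h => h.1
  have hκ := H.κ_pos
  have hs := H.meas.s_nonneg
  have hρ₁ := H.meas.pos
  have hn0 : (0 : ℝ) < n := by
    have := H.hn
    exact_mod_cast (by omega : 0 < n)
  obtain ⟨Ms, hMs0, hMs⟩ := idemh_deriv_bdd
  set P : ℝ := (s + κ) / κ with hPdef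
  have hP : 0 < P := by positivity
  refine ⟨8 * n * P, min ρa (min ρb ρ₁), by positivity, lt_min hρa (lt_min hρb hρ₁),
    fun ρ hρ0 hρ2 A o f₁ f₂ M hp hM => ?_⟩
  have ho : (1 : ℝ) ≤ o := by exact_mod_cast hp.o_pos
  have hM0 : (0 : ℝ) < M := lt_of_lt_of_le (by positivity) hM
  have hM1 : 1 ≤ M := by
    have : 0 < M := by exact_mod_cast hM0
    omega
  set ε₁ : ℝ := 1 / (4 * P * o) with hε₁
  have hε0 : 0 < ε₁ := by positivity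
  set t : ℝ := ε₁ + 2 * n / M with ht
  have ht0 : 0 < t := by positivity
  have hto : t * P * o < 1 := by
    have h1 : ε₁ * P * o = 1 / 4 := by
      rw [hε₁]
      field_simp
    have h2 : 2 * (n : ℝ) / M * P * o ≤ 1 / 4 := by
      rw [div_mul_eq_mul_div, div_mul_eq_mul_div, div_le_iff₀ hM0]
      linarith
    have h3 : t * P * o = ε₁ * P * o + 2 * (n : ℝ) / M * P * o := by
      rw [ht]
      ring
    linarith
  obtain ⟨ρ', hρ'0, hρ'ρ, hint⟩ := int_pow (by have := H.hn; omega) hρ0 hp.A_holo hp.A_ord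
    (t := t * P) (by positivity) hto
  have hρ'a : ρ' ≤ ρa := hρ'ρ.trans (hρ2.trans (min_le_left _ _))
  have hρ'b : ρ' ≤ ρb := hρ'ρ.trans (hρ2.trans ((min_le_right _ _).trans (min_le_left _ _)))
  have hρ'1 : ρ' ≤ ρ₁ := hρ'ρ.trans (hρ2.trans ((min_le_right _ _).trans (min_le_right _ _)))
  have hsq : ρ' ^ 2 ≤ ρ ^ 2 := by gcongr
  have hsq1 : ρ' ^ 2 ≤ ρ₁ ^ 2 := by gcongr
  have hbal : bal n ρ' ⊆ bal n ρ := fun w hw => lt_of_lt_of_le (show nq w < ρ' ^ 2 from hw) hsq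
  have hA' : DifferentiableOn ℂ A (bal n ρ') := hp.A_holo.mono hbal
  have hAne : ∃ w ∈ bal n ρ', A w ≠ 0 := by
    by_contra hcon
    push Not at hcon
    refine hp.A_ord ⟨0, ρ', hρ'0, fun w hw => ?_⟩
    rw [hcon w hw]
    simp
  set Q : (Fin n → ℂ) → ℂ := fun w => eval w G.D * A w with hQdef
  have hQ : IsQ G Q ρ' := idemh_isQ hρ'0 hA' hAne
  have hQA : ∀ w, Q w ≠ 0 → A w ≠ 0 := fun w hw h0 => hw (by simp only [hQdef, h0, mul_zero])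
  set V := VV G sg Q ρ' with hV
  set V₀ := VV G sg (fun w => eval w G.D) ρ with hV₀
  have hVV : V ⊆ V₀ := fun χ hχ => ⟨lt_of_lt_of_le hχ.1 hsq,
    hQ.D_ne _ hχ.1 hχ.2.1, hχ.2.2⟩
  have hVU : V ⊆ UU G sg ρ₁ := fun χ hχ => ⟨lt_of_lt_of_le hχ.1 hsq1, hχ.2.2⟩
  have hh : ∀ χ ∈ V, χ h ≠ 0 := fun χ hχ => H.meas.h_ne χ (hQ.D_ne _ hχ.1 hχ.2.1)
  have hf₁ : HolV G V f₁ := fun Ω σ hσ => hp.holo₁ Ω σ (idemh_sec_mono hVV hσ)
  have hf₂ : HolV G V f₂ := fun Ω σ hσ => hp.holo₂ Ω σ (idemh_sec_mono hVV hσ)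
  obtain ⟨Cf₀, hCf₀⟩ := hp.bdd
  obtain ⟨Cm₀, hCm₀⟩ := hp.mul
  set Cf := max Cf₀ 1 with hCfdef
  set Cm := max Cm₀ 1 with hCmdef
  have hCf1 : 1 ≤ Cf := le_max_right _ _
  have hCm1 : 1 ≤ Cm := le_max_right _ _
  have hfb : ∀ χ ∈ V, ‖f₁ χ‖ ≤ Cf ∧ ‖f₂ χ‖ ≤ Cf := fun χ hχ =>
    ⟨(hCf₀ χ (hVV hχ)).1.trans (le_max_left _ _), (hCf₀ χ (hVV hχ)).2.trans (le_max_left _ _)⟩
  have hmul : ∀ χ ∈ V, ‖f₁ χ * f₂ χ‖ ≤ Cm * √(nq (proj G.y χ)) ^ M := fun χ hχ => by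
    refine (hCm₀ χ (hVV hχ)).trans ?_
    gcongr
    exact le_max_left _ _
  set N : Pt B → ℝ := fun χ => ‖f₁ χ‖ ^ 2 + ‖f₂ χ‖ ^ 2 with hNdef
  have hA0 : ∀ χ ∈ V, 0 < ‖A (proj G.y χ)‖ := fun χ hχ => norm_pos_iff.2 (hQA _ hχ.2.1)
  have hAN : ∀ χ ∈ V, ‖A (proj G.y χ)‖ ^ 2 ≤ 2 * N χ := by
    intro χ hχ
    have h1 := hp.sum χ (hVV hχ)
    have h2 : ‖A (proj G.y χ)‖ ≤ ‖f₁ χ‖ + ‖f₂ χ‖ := by
      rw [← h1]
      exact norm_add_le _ _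
    have h3 : ‖A (proj G.y χ)‖ ^ 2 ≤ (‖f₁ χ‖ + ‖f₂ χ‖) ^ 2 := by gcongr
    simp only [hNdef]
    nlinarith [sq_nonneg (‖f₁ χ‖ - ‖f₂ χ‖)]
  have hN0 : ∀ χ ∈ V, 0 < N χ := fun χ hχ => by
    have h1 := hAN χ hχ
    have h2 := hA0 χ hχ
    have h3 : 0 < ‖A (proj G.y χ)‖ ^ 2 := by positivity
    linarith
  have hNle : ∀ χ ∈ V, N χ ≤ 2 * Cf ^ 2 := by
    intro χ hχ
    obtain ⟨h1, h2⟩ := hfb χ hχ
    simp only [hNdef]
    have h3 : ‖f₁ χ‖ ^ 2 ≤ Cf ^ 2 := by gcongr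
    have h4 : ‖f₂ χ‖ ^ 2 ≤ Cf ^ 2 := by gcongr
    linarith
  -- the finite quantities
  set E := sumI G V (fun χ => ENNReal.ofReal (‖A (proj G.y χ)‖ ^ (-(2 * t)) *
      ‖χ h‖ ^ (-(2 * s)))) with hE
  have hEfin : E ≠ ⊤ := idemh_fin hd hρ'b hρ'1 hA' hQ hQA hh hs hκ hPdef H.klt hint
  set Sh := sumI G V (fun χ => ‖χ h‖ₑ ^ (-(2 * s))) with hSh
  have hShfin : Sh ≠ ⊤ := ne_top_of_le_ne_top H.meas.fin (sumI_mono G hVU _)
  set K₁ : ℝ := (6 * Cm) ^ (2 * (n : ℝ) / M) * 2 ^ ε₁ with hK₁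
  have hK₁0 : 0 ≤ K₁ := by positivity
  set E₁ : ℝ≥0∞ := ENNReal.ofReal ε₁⁻¹ * (ENNReal.ofReal (Ms * K₁) * E) with hE₁
  have hE₁fin : E₁ ≠ ⊤ :=
    ENNReal.mul_ne_top ENNReal.ofReal_ne_top (ENNReal.mul_ne_top ENNReal.ofReal_ne_top hEfin)
  set K₂ : ℝ := (2 * Cf ^ 2) ^ ε₁ with hK₂
  have hK₂0 : 0 ≤ K₂ := by positivity
  set K₃ : ℝ := 2 * (ρ' ^ 2 + 1) ^ (n : ℝ) * (2 * Cf ^ 2) ^ ε₁ with hK₃
  have hK₃0 : 0 ≤ K₃ := by positivity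
  refine ⟨ρ', hρ'0, hρ'ρ, (ENNReal.ofReal K₂ * E₁ + (2 * Sh + ENNReal.ofReal K₃ * E₁)).toNNReal,
    fun η hη hη1 => ?_⟩
  have hCfin : ENNReal.ofReal K₂ * E₁ + (2 * Sh + ENNReal.ofReal K₃ * E₁) ≠ ⊤ := by
    refine ENNReal.add_ne_top.2 ⟨ENNReal.mul_ne_top ENNReal.ofReal_ne_top hE₁fin,
      ENNReal.add_ne_top.2 ⟨ENNReal.mul_ne_top (by norm_num) hShfin,
        ENNReal.mul_ne_top ENNReal.ofReal_ne_top hE₁fin⟩⟩
  rw [ENNReal.coe_toNNReal hCfin]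
  have hexp : ∀ χ ∈ V, Real.exp (-idemhPhi G f₁ f₂ h η ε₁ s χ) =
      (nq (proj G.y χ) + η) ^ (-(n : ℝ)) * N χ ^ (-ε₁) * ‖χ h‖ ^ (-(2 * s)) :=
    fun χ hχ => idemh_exp_phi hη (hh χ hχ) (hN0 χ hχ)
  have hnq : ∀ χ ∈ V, 0 < nq (proj G.y χ) + η := fun χ _ => by
    have := nq_nonneg (proj G.y χ)
    positivity
  set u : Pt B → ℂ := fun χ => ((stp (rat (f₁ χ) (f₂ χ)) : ℝ) : ℂ) with hu
  have hu1 : ∀ χ, ‖u χ‖ ≤ 1 := fun χ => by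
    simp only [hu]
    rw [Complex.norm_real, Real.norm_eq_abs, abs_of_nonneg (idemh_stp_nonneg _)]
    exact idemh_stp_le_one _
  set Bd : Pt B → ℝ := fun χ => deriv stp (rat (f₁ χ) (f₂ χ)) ^ 2 with hBd
  -- the integral of `|u|² e^{-Φ}`
  have hfin1 : sumI G V (fun χ => ENNReal.ofReal (‖u χ‖ ^ 2 *
      Real.exp (-idemhPhi G f₁ f₂ h η ε₁ s χ))) ≠ ⊤ := by
    refine ne_top_of_le_ne_top (ENNReal.mul_ne_top (ENNReal.ofReal_ne_top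
      (r := η ^ (-(n : ℝ)) * 2 ^ ε₁ * (2 * Cf) ^ (4 * (n : ℝ) / M))) hEfin)
      (cut_sumI_le ENNReal.ofReal_ne_top fun χ hχ => Or.inl ⟨hχ, ?_⟩)
    rw [← ENNReal.ofReal_mul (by positivity)]
    refine ENNReal.ofReal_le_ofReal ?_
    rw [hexp χ hχ]
    have a0 := hA0 χ hχ
    have n0 := hN0 χ hχ
    have q0 := hnq χ hχ
    have h1 : ‖u χ‖ ^ 2 ≤ 1 := pow_le_one₀ (norm_nonneg _) (hu1 χ)
    have h2 : (nq (proj G.y χ) + η) ^ (-(n : ℝ)) ≤ η ^ (-(n : ℝ)) :=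
      Real.rpow_le_rpow_of_nonpos hη (by linarith [nq_nonneg (proj G.y χ)]) (by linarith)
    have h3 : N χ ^ (-ε₁) ≤ 2 ^ ε₁ * ((2 * Cf) ^ (4 * (n : ℝ) / M) *
        ‖A (proj G.y χ)‖ ^ (-(2 * t))) := by
      have h4 : N χ ^ (-ε₁) ≤ 2 ^ ε₁ * ‖A (proj G.y χ)‖ ^ (-(2 * ε₁)) := by
        calc N χ ^ (-ε₁) ≤ (‖A (proj G.y χ)‖ ^ 2 / 2) ^ (-ε₁) := by
              refine Real.rpow_le_rpow_of_nonpos (by positivity) ?_ (by linarith)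
              linarith [hAN χ hχ]
          _ = _ := by
              rw [Real.div_rpow (by positivity) (by norm_num),
                Real.rpow_neg (by norm_num : (0:ℝ) ≤ 2), div_inv_eq_mul, mul_comm,
                ← Real.rpow_natCast _ 2, ← Real.rpow_mul a0.le]
              congr 2
              push_cast
              ring
      have h5 : ‖A (proj G.y χ)‖ ^ (-(2 * ε₁)) ≤ (2 * Cf) ^ (4 * (n : ℝ) / M) *
          ‖A (proj G.y χ)‖ ^ (-(2 * t)) := by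
        have h6 : ‖A (proj G.y χ)‖ ≤ 2 * Cf := by
          rw [← hp.sum χ (hVV hχ)]
          exact (norm_add_le _ _).trans (by linarith [(hfb χ hχ).1, (hfb χ hχ).2])
        calc ‖A (proj G.y χ)‖ ^ (-(2 * ε₁)) =
              ‖A (proj G.y χ)‖ ^ (4 * (n : ℝ) / M) * ‖A (proj G.y χ)‖ ^ (-(2 * t)) := by
              rw [← Real.rpow_add a0]
              congr 1
              rw [ht]
              ring
          _ ≤ _ := by gcongr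
      exact h4.trans (by gcongr)
    calc ‖u χ‖ ^ 2 * ((nq (proj G.y χ) + η) ^ (-(n : ℝ)) * N χ ^ (-ε₁) * ‖χ h‖ ^ (-(2 * s)))
        ≤ 1 * (η ^ (-(n : ℝ)) * (2 ^ ε₁ * ((2 * Cf) ^ (4 * (n : ℝ) / M) *
          ‖A (proj G.y χ)‖ ^ (-(2 * t)))) * ‖χ h‖ ^ (-(2 * s))) := by gcongr
      _ = _ := by ring
  -- the bound of `Bd`
  have hBdle : ∀ χ ∈ V, ENNReal.ofReal (Bd χ * Real.exp (-idemhPhi G f₁ f₂ h η ε₁ s χ)) ≤
      ENNReal.ofReal (Ms * K₁) * ENNReal.ofReal (‖A (proj G.y χ)‖ ^ (-(2 * t)) *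
        ‖χ h‖ ^ (-(2 * s))) := by
    intro χ hχ
    rw [← ENNReal.ofReal_mul (by positivity)]
    refine ENNReal.ofReal_le_ofReal ?_
    by_cases h0 : deriv stp (rat (f₁ χ) (f₂ χ)) = 0
    · simp only [hBd]
      rw [h0]
      simp only [ne_eq, OfNat.ofNat_ne_zero, not_false_eq_true, zero_pow, zero_mul]
      positivity
    · obtain ⟨h1, h2⟩ := idemh_mem h0
      have h3 := idemh_rat_region h1 h2 (hN0 χ hχ)
      have h4 : N χ ≤ 3 * (Cm * √(nq (proj G.y χ)) ^ M) :=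
        h3.trans (by linarith [hmul χ hχ])
      have h5 := idemh_region (n := n) (hA0 χ hχ) hM1 (by linarith : 0 < Cm) (hAN χ hχ) h4 hη
        hε0.le
      rw [hexp χ hχ]
      simp only [hBd]
      have h6 := hMs (rat (f₁ χ) (f₂ χ))
      calc deriv stp (rat (f₁ χ) (f₂ χ)) ^ 2 * ((nq (proj G.y χ) + η) ^ (-(n : ℝ)) *
            N χ ^ (-ε₁) * ‖χ h‖ ^ (-(2 * s)))
          ≤ Ms * ((K₁ * ‖A (proj G.y χ)‖ ^ (-(2 * t))) * ‖χ h‖ ^ (-(2 * s))) := by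
            have h7 : 0 ≤ (nq (proj G.y χ) + η) ^ (-(n : ℝ)) * N χ ^ (-ε₁) *
                ‖χ h‖ ^ (-(2 * s)) := by
              have := (hnq χ hχ).le
              have := (hN0 χ hχ).le
              positivity
            gcongr
        _ = _ := by ring
  have hBdI : sumI G V (fun χ => ENNReal.ofReal (Bd χ *
      Real.exp (-idemhPhi G f₁ f₂ h η ε₁ s χ))) ≤ ENNReal.ofReal (Ms * K₁) * E :=
    cut_sumI_le ENNReal.ofReal_ne_top fun χ hχ => Or.inl ⟨hχ, hBdle χ hχ⟩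
  obtain ⟨b, hb1, -, hb3⟩ := Hh ρ' Q hρ'a hQ (idemhPhi G f₁ f₂ h η ε₁ s)
    (fun χ => Real.log (‖f₁ χ‖ ^ 2 + ‖f₂ χ‖ ^ 2)) ε₁ hε0 (idemh_smR_phi hf₁ hf₂ hN0 hh hη)
    (fun Ω σ hσ z hz v => ⟨(lev_logsum hσ.isOpen (hf₁ Ω σ hσ) (hf₂ Ω σ hσ)
      (fun w hw => by
        by_contra hcon
        push Not at hcon
        have h1 := hN0 _ (hσ.mem w hw)
        simp only [hNdef] at h1
        rw [hcon.1, hcon.2] at h1
        simp at h1) z hz v).1, idemh_levz_phi hσ hf₁ hf₂ hN0 hh hη hz v⟩)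
    u (fun Ω σ hσ => (idemh_contDiffOn_N hσ hf₁ hf₂ hN0).2.2) hfin1 Bd
    (fun χ => sq_nonneg _)
    (fun Ω σ hσ => by
      have c1 : ContinuousOn (fun w => f₁ (σ w)) Ω := (hf₁ Ω σ hσ).continuousOn
      have c2 : ContinuousOn (fun w => f₂ (σ w)) Ω := (hf₂ Ω σ hσ).continuousOn
      have c3 : ContinuousOn (fun w => rat (f₁ (σ w)) (f₂ (σ w))) Ω :=
        (c1.norm.pow 2).div ((c1.norm.pow 2).add (c2.norm.pow 2))
          fun w hw => (hN0 _ (hσ.mem w hw)).ne'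
      exact (idemh_continuous_deriv.comp_continuousOn c3).pow 2)
    (ne_top_of_le_ne_top (ENNReal.mul_ne_top ENNReal.ofReal_ne_top hEfin) hBdI)
    (fun Ω σ hσ z hz v => (lev_logsum hσ.isOpen (hf₁ Ω σ hσ) (hf₂ Ω σ hσ)
      (fun w hw => by
        by_contra hcon
        push Not at hcon
        have h1 := hN0 _ (hσ.mem w hw)
        simp only [hNdef] at h1
        rw [hcon.1, hcon.2] at h1
        simp at h1) z hz v).2)
  have hbE : sumI G V (fun χ => ENNReal.ofReal (‖u χ - b χ‖ ^ 2 *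
      Real.exp (-idemhPhi G f₁ f₂ h η ε₁ s χ))) ≤ E₁ := by
    refine hb3.trans ?_
    rw [hE₁]
    gcongr
  have hlow : ∀ χ ∈ V, 1 ≤ (2 * Cf ^ 2) ^ ε₁ * N χ ^ (-ε₁) := by
    intro χ hχ
    have h1 : (2 * Cf ^ 2) ^ (-ε₁) ≤ N χ ^ (-ε₁) :=
      Real.rpow_le_rpow_of_nonpos (hN0 χ hχ) (hNle χ hχ) (by linarith)
    calc (1 : ℝ) = (2 * Cf ^ 2) ^ ε₁ * (2 * Cf ^ 2) ^ (-ε₁) := by
          rw [← Real.rpow_add (by positivity), add_neg_cancel, Real.rpow_zero]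
      _ ≤ _ := by gcongr
  refine ⟨b, hb1, ?_, ?_⟩
  · have h1 : ∀ χ ∈ V, ‖b χ‖ₑ ^ 2 * ‖χ h‖ₑ ^ (-(2 * s)) ≤ 2 * ‖χ h‖ₑ ^ (-(2 * s)) +
        ENNReal.ofReal K₃ * ENNReal.ofReal (‖u χ - b χ‖ ^ 2 *
          Real.exp (-idemhPhi G f₁ f₂ h η ε₁ s χ)) := by
      intro χ hχ
      have hh0 := hh χ hχ
      rw [idemh_enorm_rpow hh0, ← ofReal_norm, ← ENNReal.ofReal_pow (norm_nonneg _),
        ← ENNReal.ofReal_mul (by positivity), ← ENNReal.ofReal_mul hK₃0,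
        show (2 : ℝ≥0∞) = ENNReal.ofReal 2 by simp, ← ENNReal.ofReal_mul (by norm_num),
        ← ENNReal.ofReal_add (by positivity) (by positivity)]
      refine ENNReal.ofReal_le_ofReal ?_
      rw [hexp χ hχ]
      have q0 := hnq χ hχ
      have n0 := hN0 χ hχ
      have h2 : ‖b χ‖ ^ 2 ≤ 2 + 2 * ‖u χ - b χ‖ ^ 2 := by
        have h3 : ‖b χ‖ ≤ ‖u χ‖ + ‖u χ - b χ‖ := by
          calc ‖b χ‖ = ‖u χ - (u χ - b χ)‖ := by congr 1; ring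
            _ ≤ _ := norm_sub_le _ _
        have h4 := hu1 χ
        have h5 : ‖b χ‖ ^ 2 ≤ (1 + ‖u χ - b χ‖) ^ 2 := by
          have : ‖b χ‖ ≤ 1 + ‖u χ - b χ‖ := by linarith
          gcongr
        nlinarith [sq_nonneg (1 - ‖u χ - b χ‖)]
      have h6 : 1 ≤ (ρ' ^ 2 + 1) ^ (n : ℝ) * (nq (proj G.y χ) + η) ^ (-(n : ℝ)) := by
        have h7 : (ρ' ^ 2 + 1) ^ (-(n : ℝ)) ≤ (nq (proj G.y χ) + η) ^ (-(n : ℝ)) := by
          refine Real.rpow_le_rpow_of_nonpos q0 ?_ (by linarith)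
          have h8 : nq (proj G.y χ) < ρ' ^ 2 := hχ.1
          linarith
        calc (1 : ℝ) = (ρ' ^ 2 + 1) ^ (n : ℝ) * (ρ' ^ 2 + 1) ^ (-(n : ℝ)) := by
              rw [← Real.rpow_add (by positivity), add_neg_cancel, Real.rpow_zero]
          _ ≤ _ := by gcongr
      have h9 := hlow χ hχ
      have h10 : 1 ≤ ((ρ' ^ 2 + 1) ^ (n : ℝ) * (nq (proj G.y χ) + η) ^ (-(n : ℝ))) *
          ((2 * Cf ^ 2) ^ ε₁ * N χ ^ (-ε₁)) := one_le_mul_of_one_le_of_one_le h6 h9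
      have hH : 0 ≤ ‖χ h‖ ^ (-(2 * s)) := by positivity
      calc ‖b χ‖ ^ 2 * ‖χ h‖ ^ (-(2 * s))
          ≤ (2 + 2 * ‖u χ - b χ‖ ^ 2 * 1) * ‖χ h‖ ^ (-(2 * s)) := by
            rw [mul_one]
            gcongr
        _ ≤ (2 + 2 * ‖u χ - b χ‖ ^ 2 * (((ρ' ^ 2 + 1) ^ (n : ℝ) *
              (nq (proj G.y χ) + η) ^ (-(n : ℝ))) * ((2 * Cf ^ 2) ^ ε₁ * N χ ^ (-ε₁)))) *
              ‖χ h‖ ^ (-(2 * s)) := by gcongr
        _ = _ := by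
            rw [hK₃]
            ring
    calc sumI G V (fun χ => ‖b χ‖ₑ ^ 2 * ‖χ h‖ₑ ^ (-(2 * s)))
        ≤ sumI G V (fun χ => 2 * ‖χ h‖ₑ ^ (-(2 * s)) +
          ENNReal.ofReal K₃ * ENNReal.ofReal (‖u χ - b χ‖ ^ 2 *
            Real.exp (-idemhPhi G f₁ f₂ h η ε₁ s χ))) := by
          have h2 := cut_sumI_le (G := G) (S := V) (S' := V)
            (F := fun χ => ‖b χ‖ₑ ^ 2 * ‖χ h‖ₑ ^ (-(2 * s)))
            (F' := fun χ => 2 * ‖χ h‖ₑ ^ (-(2 * s)) +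
              ENNReal.ofReal K₃ * ENNReal.ofReal (‖u χ - b χ‖ ^ 2 *
              Real.exp (-idemhPhi G f₁ f₂ h η ε₁ s χ))) ENNReal.one_ne_top
            fun χ hχ => Or.inl ⟨hχ, by rw [one_mul]; exact h1 χ hχ⟩
          rwa [one_mul] at h2
      _ = sumI G V (fun χ => 2 * ‖χ h‖ₑ ^ (-(2 * s))) +
          sumI G V (fun χ => ENNReal.ofReal K₃ * ENNReal.ofReal (‖u χ - b χ‖ ^ 2 *
            Real.exp (-idemhPhi G f₁ f₂ h η ε₁ s χ))) := by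
          refine idemh_sumI_add hd hρ'b hQ (F := fun χ => 2 * ‖χ h‖ₑ ^ (-(2 * s))) ?_ _
          intro Ω σ hσ
          have c1 : ContinuousOn (fun w => σ w h) Ω := (hσ.holo h).continuousOn
          have c2 : ContinuousOn (fun w => ‖σ w h‖ₑ ^ (-(2 * s))) Ω :=
            ENNReal.continuous_rpow_const.comp_continuousOn (continuous_enorm.comp_continuousOn c1)
          exact (ENNReal.continuous_const_mul (by norm_num)).comp_continuousOn c2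
      _ ≤ 2 * Sh + ENNReal.ofReal K₃ * E₁ := by
          refine add_le_add ?_ ?_
          · exact cut_sumI_le (by norm_num) fun χ hχ => Or.inl ⟨hχ, le_rfl⟩
          · refine (cut_sumI_le (G := G) (S' := V) (F' := fun χ => ENNReal.ofReal
              (‖u χ - b χ‖ ^ 2 * Real.exp (-idemhPhi G f₁ f₂ h η ε₁ s χ)))
              ENNReal.ofReal_ne_top fun χ hχ => Or.inl ⟨hχ, le_rfl⟩).trans ?_
            gcongr
      _ ≤ _ := le_add_self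
  · refine le_trans ?_ (le_self_add (a := ENNReal.ofReal K₂ * E₁))
    refine (cut_sumI_le (G := G) (S' := V) (F' := fun χ => ENNReal.ofReal
      (‖u χ - b χ‖ ^ 2 * Real.exp (-idemhPhi G f₁ f₂ h η ε₁ s χ)))
      (ENNReal.ofReal_ne_top (r := K₂)) fun χ hχ => Or.inl ⟨hχ, ?_⟩).trans (by gcongr)
    have hh0 := hh χ hχ
    have q0 := hnq χ hχ
    rw [idemh_enorm_rpow hh0, ← ENNReal.ofReal_mul (by positivity),
      ← ENNReal.ofReal_mul (by positivity)]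
    refine ENNReal.ofReal_le_ofReal ?_
    rw [hexp χ hχ]
    have h9 := hlow χ hχ
    calc ‖u χ - b χ‖ ^ 2 * (nq (proj G.y χ) + η) ^ (-(n : ℝ)) * ‖χ h‖ ^ (-(2 * s))
        = (‖u χ - b χ‖ ^ 2 * (nq (proj G.y χ) + η) ^ (-(n : ℝ)) * ‖χ h‖ ^ (-(2 * s))) * 1 := by
          rw [mul_one]
      _ ≤ (‖u χ - b χ‖ ^ 2 * (nq (proj G.y χ) + η) ^ (-(n : ℝ)) * ‖χ h‖ ^ (-(2 * s))) *
          ((2 * Cf ^ 2) ^ ε₁ * N χ ^ (-ε₁)) := by gcongr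
      _ = _ := by
          rw [hK₂]
          ring

end Pool.Agent.Odp3
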