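import Pool.Agent.Odp3.Eq.IntA
import Pool.Agent.Odp3.Eq.Defs

/-!
# Local integrability of `|A|^(-2s)` for `s < 1 / ord A`: the assembly
-/

open Set MeasureTheory Filter Metric
open scoped ENNReal NNReal Topology

namespace Pool.Agent.Odp3

theorem intb_split {f : ℂ → ℂ} (hf : DifferentiableOn ℂ f (ball 0 2)) : ∀ k : ℕ,
    (∃ j < k, ∃ a : ℂ, a ≠ 0 ∧ ∃ C : ℝ, ∀ t : ℂ, ‖t‖ ≤ 1 → ‖f t - a * t ^ j‖ ≤ C * ‖t‖ ^ (j + 1)) ∨
    ∃ g : ℂ → ℂ, DifferentiableOn ℂ g (ball 0 2) ∧ ∀ t ∈ ball (0 : ℂ) 2, f t = t ^ k * g t := by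
  intro k
  induction k with
  | zero => exact Or.inr ⟨f, hf, fun t _ => by rw [pow_zero, one_mul]⟩
  | succ k ih =>
    rcases ih with ⟨j, hj, h⟩ | ⟨g, hg, hfg⟩
    · exact Or.inl ⟨j, hj.trans (Nat.lt_succ_self k), h⟩
    · have h0 : (0 : ℂ) ∈ ball (0 : ℂ) 2 := mem_ball_self (by norm_num)
      have hd : DifferentiableOn ℂ (dslope g 0) (ball 0 2) :=
        (Complex.differentiableOn_dslope (isOpen_ball.mem_nhds h0)).2 hg
      have hgd : ∀ t : ℂ, g t = g 0 + t * dslope g 0 t := fun t => by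
        have h1 := sub_smul_dslope g 0 t
        rw [sub_zero, smul_eq_mul] at h1
        rw [h1]
        ring
      by_cases hg0 : g 0 = 0
      · refine Or.inr ⟨dslope g 0, hd, fun t ht => ?_⟩
        have h1 := hgd t
        rw [hg0, zero_add] at h1
        rw [hfg t ht, h1, pow_succ, mul_assoc]
      · obtain ⟨C, hC⟩ := (isCompact_closedBall (0 : ℂ) 1).exists_bound_of_continuousOn
          (hd.continuousOn.mono (closedBall_subset_ball (by norm_num)))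
        refine Or.inl ⟨k, Nat.lt_succ_self k, g 0, hg0, C, fun t ht => ?_⟩
        rw [hfg t (mem_ball_zero_iff.2 (by linarith)), hgd t]
        have h1 : t ^ k * (g 0 + t * dslope g 0 t) - g 0 * t ^ k =
            t ^ (k + 1) * dslope g 0 t := by ring
        rw [h1, norm_mul, norm_pow, mul_comm]
        exact mul_le_mul_of_nonneg_right (hC t (mem_closedBall_zero_iff.2 ht)) (by positivity)

theorem intb_bound {f g : ℂ → ℂ} {M : ℝ} {k : ℕ} (hg : DifferentiableOn ℂ g (ball 0 2))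
    (hfg : ∀ t ∈ ball (0 : ℂ) 2, f t = t ^ k * g t) (hM : ∀ t : ℂ, ‖t‖ = 1 → ‖f t‖ ≤ M) :
    ∀ t : ℂ, ‖t‖ ≤ 1 → ‖f t‖ ≤ M * ‖t‖ ^ k := by
  intro t ht
  have h1 : ‖g t‖ ≤ M := by
    refine Complex.norm_le_of_forall_mem_frontier_norm_le (U := ball (0 : ℂ) 1) isBounded_ball ?_
      ?_ ?_
    · apply DifferentiableOn.diffContOnCl
      rw [closure_ball _ (by norm_num)]
      exact hg.mono (closedBall_subset_ball (by norm_num))
    · intro w hw
      rw [frontier_ball _ (by norm_num), mem_sphere_zero_iff_norm] at hw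
      have h2 := hM w hw
      rwa [hfg w (mem_ball_zero_iff.2 (by linarith)), norm_mul, norm_pow, hw, one_pow,
        one_mul] at h2
    · rw [closure_ball _ (by norm_num)]
      exact mem_closedBall_zero_iff.2 ht
  rw [hfg t (mem_ball_zero_iff.2 (by linarith)), norm_mul, norm_pow, mul_comm]
  exact mul_le_mul_of_nonneg_right h1 (by positivity)

theorem intb_nq_smul {n : ℕ} (t : ℂ) (w : Fin n → ℂ) : nq (t • w) = ‖t‖ ^ 2 * nq w := by
  simp only [nq, Pi.smul_apply, smul_eq_mul, norm_mul, mul_pow, Finset.mul_sum]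

theorem intb_nq_nonneg {n : ℕ} (w : Fin n → ℂ) : 0 ≤ nq w :=
  Finset.sum_nonneg fun _ _ => by positivity

theorem intb_continuous_nq {n : ℕ} : Continuous (nq : (Fin n → ℂ) → ℝ) := by
  unfold nq
  fun_prop

theorem intb_isOpen_bal {n : ℕ} (ρ : ℝ) : IsOpen (bal n ρ) :=
  isOpen_lt intb_continuous_nq continuous_const

theorem intb_norm_le {n : ℕ} (w : Fin n → ℂ) : ‖w‖ ≤ √(nq w) := by
  rw [pi_norm_le_iff_of_nonneg (Real.sqrt_nonneg _)]
  intro i
  apply Real.le_sqrt_of_sq_le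
  exact Finset.single_le_sum (f := fun j => ‖w j‖ ^ 2) (fun _ _ => by positivity)
    (Finset.mem_univ i)

theorem intb_nq_le {n : ℕ} (w : Fin n → ℂ) : nq w ≤ n * ‖w‖ ^ 2 := by
  calc nq w ≤ ∑ _j : Fin n, ‖w‖ ^ 2 := Finset.sum_le_sum fun j _ => by
        gcongr
        exact norm_le_pi_norm w j
    _ = _ := by rw [Finset.sum_const, Finset.card_univ, Fintype.card_fin, nsmul_eq_mul]

/-- A function of order at most `o` is of order `j ≤ o` along some line. -/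
theorem intb_dir {n : ℕ} (hn : 1 ≤ n) {ρ : ℝ} (hρ : 0 < ρ) {A : (Fin n → ℂ) → ℂ}
    (hA : DifferentiableOn ℂ A (bal n ρ)) {o : ℕ} (ho : ¬ OrdGe A (o + 1)) :
    ∃ (u : Fin n → ℂ) (j : ℕ) (a : ℂ) (C : ℝ), j ≤ o ∧ a ≠ 0 ∧ nq u = ρ ^ 2 / 4 ∧
      ∀ t : ℂ, ‖t‖ ≤ 1 → ‖A (t • u) - a * t ^ j‖ ≤ C * ‖t‖ ^ (j + 1) := by
  by_contra hcon
  push Not at hcon
  apply ho
  have hK : IsCompact {w : Fin n → ℂ | nq w ≤ ρ ^ 2 / 4} := by
    refine Metric.isCompact_of_isClosed_isBounded (isClosed_le intb_continuous_nq continuous_const)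
      ?_
    refine (isBounded_iff_forall_norm_le).2 ⟨ρ, fun w hw => (intb_norm_le w).trans ?_⟩
    rw [Real.sqrt_le_left hρ.le]
    have h1 : nq w ≤ ρ ^ 2 / 4 := hw
    nlinarith
  obtain ⟨M, hM⟩ := hK.exists_bound_of_continuousOn (hA.continuousOn.mono (fun w hw => by
    have h1 : nq w ≤ ρ ^ 2 / 4 := hw
    show nq w < ρ ^ 2
    nlinarith [sq_pos_of_pos hρ]))
  -- along a line
  have hline : ∀ u : Fin n → ℂ, nq u = ρ ^ 2 / 4 → ∀ t : ℂ, ‖t‖ ≤ 1 →
      ‖A (t • u)‖ ≤ M * ‖t‖ ^ (o + 1) := by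
    intro u hu
    have hf : DifferentiableOn ℂ (fun t : ℂ => A (t • u)) (ball 0 2) := by
      refine hA.comp (by fun_prop) fun t ht => ?_
      show nq (t • u) < ρ ^ 2
      rw [intb_nq_smul, hu]
      rw [mem_ball_zero_iff] at ht
      have h1 : ‖t‖ ^ 2 < 2 ^ 2 := pow_lt_pow_left₀ ht (norm_nonneg t) two_ne_zero
      nlinarith [sq_pos_of_pos hρ]
    rcases intb_split hf (o + 1) with ⟨j, hj, a, ha, C, hC⟩ | ⟨g, hg, hfg⟩
    · exfalso
      obtain ⟨t, ht, h1⟩ := hcon u j a C (Nat.lt_succ_iff.1 hj) ha hu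
      exact absurd (hC t ht) (not_le.2 h1)
    · refine intb_bound hg hfg fun t ht => hM _ ?_
      show nq (t • u) ≤ ρ ^ 2 / 4
      rw [intb_nq_smul, hu, ht, one_pow, one_mul]
  refine ⟨M * (2 / ρ) ^ (o + 1), ρ / 2, by positivity, fun w hw => ?_⟩
  rcases eq_or_ne (nq w) 0 with h0 | h0
  · have h1 : w = 0 := by
      have h2 := intb_norm_le w
      rw [h0, Real.sqrt_zero] at h2
      exact norm_le_zero_iff.1 h2
    have h0' : nq (0 : Fin n → ℂ) = 0 := by rw [← h1]; exact h0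
    have h2 : nq (Pi.single ⟨0, hn⟩ ((ρ / 2 : ℝ) : ℂ) : Fin n → ℂ) = ρ ^ 2 / 4 := by
      rw [nq, Finset.sum_eq_single ⟨0, hn⟩ (fun j _ hj => by
        rw [Pi.single_eq_of_ne hj, norm_zero, zero_pow two_ne_zero])
        (fun h => absurd (Finset.mem_univ _) h), Pi.single_eq_same, Complex.norm_real,
        Real.norm_of_nonneg (by positivity)]
      ring
    have h3 := hline _ h2 0 (by rw [norm_zero]; norm_num)
    rw [zero_smul, norm_zero, zero_pow (Nat.succ_ne_zero o), mul_zero] at h3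
    rw [h1, h0', Real.sqrt_zero, zero_pow (Nat.succ_ne_zero o), mul_zero]
    exact h3
  · have hpos : 0 < √(nq w) := Real.sqrt_pos.2 (lt_of_le_of_ne (intb_nq_nonneg w) (Ne.symm h0))
    set c : ℝ := √(nq w) with hc
    have hc2 : c ^ 2 = nq w := Real.sq_sqrt (intb_nq_nonneg w)
    have hcρ : c < ρ / 2 := by
      have h1 : c ^ 2 < (ρ / 2) ^ 2 := by rwa [hc2]
      exact lt_of_pow_lt_pow_left₀ 2 (by positivity) h1
    have hu : nq (((ρ / 2 / c : ℝ) : ℂ) • w) = ρ ^ 2 / 4 := by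
      rw [intb_nq_smul, Complex.norm_real, Real.norm_of_nonneg (by positivity), ← hc2]
      field_simp
      norm_num
    have h1 := hline _ hu ((2 * c / ρ : ℝ) : ℂ) (by
      rw [Complex.norm_real, Real.norm_of_nonneg (by positivity), div_le_one hρ]
      linarith)
    rw [Complex.norm_real, Real.norm_of_nonneg (by positivity), smul_smul, ← Complex.ofReal_mul,
      show 2 * c / ρ * (ρ / 2 / c) = 1 by field_simp, Complex.ofReal_one, one_smul] at h1
    calc ‖A w‖ ≤ M * (2 * c / ρ) ^ (o + 1) := h1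
      _ = _ := by rw [mul_assoc, ← mul_pow]; ring_nf

/-- Perturbation of the line. -/
theorem intb_pert {n : ℕ} {Ω : Set (Fin n → ℂ)} (hΩ : IsOpen Ω) {A : (Fin n → ℂ) → ℂ}
    (hA : ContinuousOn A Ω) (u : Fin n → ℂ) {R : ℝ} (hR : ∀ t : ℂ, ‖t‖ ≤ R → t • u ∈ Ω)
    {δ : ℝ} (hδ : 0 < δ) : ∃ η : ℝ, 0 < η ∧ ∀ w : Fin n → ℂ, ‖w‖ < η → ∀ t : ℂ, ‖t‖ ≤ R →
      w + t • u ∈ Ω ∧ ‖A (w + t • u) - A (t • u)‖ ≤ δ := by
  have h1 : ∀ᶠ w in 𝓝 (0 : Fin n → ℂ), ∀ t ∈ closedBall (0 : ℂ) R,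
      w + t • u ∈ Ω ∧ ‖A (w + t • u) - A (t • u)‖ ≤ δ := by
    refine (isCompact_closedBall (0 : ℂ) R).eventually_forall_of_forall_eventually
      (P := fun w t => w + t • u ∈ Ω ∧ ‖A (w + t • u) - A (t • u)‖ ≤ δ) fun t ht => ?_
    have h2 : t • u ∈ Ω := hR t (mem_closedBall_zero_iff.1 ht)
    have h3 : Tendsto (fun x : (Fin n → ℂ) × ℂ => x.1 + x.2 • u) (𝓝 (0, t)) (𝓝 (t • u)) := by
      have h4 : Continuous (fun x : (Fin n → ℂ) × ℂ => x.1 + x.2 • u) := by fun_prop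
      have h5 := h4.tendsto (0, t)
      rwa [show ((0, t) : (Fin n → ℂ) × ℂ).1 + ((0, t) : (Fin n → ℂ) × ℂ).2 • u = t • u from
        zero_add _] at h5
    have h6 : Tendsto (fun x : (Fin n → ℂ) × ℂ => x.2 • u) (𝓝 (0, t)) (𝓝 (t • u)) := by
      have h4 : Continuous (fun x : (Fin n → ℂ) × ℂ => x.2 • u) := by fun_prop
      exact h4.tendsto (0, t)
    have h7 : ContinuousAt A (t • u) := hA.continuousAt (hΩ.mem_nhds h2)
    have h8 : Tendsto (fun x : (Fin n → ℂ) × ℂ => ‖A (x.1 + x.2 • u) - A (x.2 • u)‖) (𝓝 (0, t))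
        (𝓝 0) := by
      have h9 := ((h7.tendsto.comp h3).sub (h7.tendsto.comp h6)).norm
      rwa [sub_self, norm_zero] at h9
    filter_upwards [h3.eventually (hΩ.mem_nhds h2), (tendsto_order.1 h8).2 δ hδ] with x hx hx'
    exact ⟨hx, hx'.le⟩
  obtain ⟨η, hη, h⟩ := Metric.eventually_nhds_iff.1 h1
  exact ⟨η, hη, fun w hw t ht => h (by rwa [dist_zero_right]) t (mem_closedBall_zero_iff.2 ht)⟩

/-- The uniform bound on the slices. -/
theorem intb_slices {g : ℂ → ℝ≥0∞} (hg : Measurable g) {R M : ℝ} (hR : 0 < R) {a : ℂ}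
    (ha : a ≠ 0) {j : ℕ} (hj : 0 < j) {h : ℂ → ℂ} (hh : DifferentiableOn ℂ h (ball 0 R))
    (hM : ∀ z ∈ ball (0 : ℂ) R, ‖h z‖ ≤ M) (hMa : (8 / R) ^ j * M ≤ ‖a‖ / 2)
    (hgh : ∀ z ∈ ball (0 : ℂ) (R / 2), g z = ‖a * z ^ j + h z‖ₑ) {t : ℝ} (ht : 0 ≤ t) :
    ∫⁻ z in ball (0 : ℂ) (R / 2), g z ^ (-(2 * t)) ≤ volume (ball (0 : ℂ) (R / 2)) +
      (j * (ENNReal.ofReal ((2 ^ (j + 2) / ‖a‖) ^ (1 / (j : ℝ))) ^ 2 * NNReal.pi)) *
        2 ^ (2 * t) * ∑' m : ℕ, ((2 : ℝ≥0∞) ^ (2 * t - 2 / (j : ℝ))) ^ m := by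
  refine inta_dyadic _ hg (by positivity) (by rw [Measure.restrict_apply_univ]) fun m => ?_
  have hε : (0 : ℝ) < (2 : ℝ) ^ (-(m : ℝ)) := by positivity
  have h2 : (2 : ℝ≥0∞) ^ (-(m : ℝ)) = ENNReal.ofReal ((2 : ℝ) ^ (-(m : ℝ))) := by
    rw [← ENNReal.ofReal_rpow_of_pos (by norm_num)]
    norm_num
  rw [Measure.restrict_apply (measurableSet_le hg measurable_const)]
  have h1 := inta_slice hR ha hj hh hM hMa hε
  refine (measure_mono ?_).trans (h1.trans (le_of_eq ?_))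
  · rintro z ⟨hz, hz'⟩
    refine ⟨hz', ?_⟩
    have h3 : g z ≤ (2 : ℝ≥0∞) ^ (-(m : ℝ)) := hz
    rw [hgh z hz', h2, ← ofReal_norm] at h3
    exact (ENNReal.ofReal_le_ofReal_iff hε.le).1 h3
  · rw [ENNReal.ofReal_mul (by positivity), mul_pow]
    have h4 : ENNReal.ofReal (((2 : ℝ) ^ (-(m : ℝ))) ^ (1 / (j : ℝ))) ^ 2 =
        (2 : ℝ≥0∞) ^ (-(m : ℝ) * (2 / (j : ℝ))) := by
      rw [← ENNReal.ofReal_rpow_of_pos hε, ← h2, ← ENNReal.rpow_natCast, ← ENNReal.rpow_mul,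
        ← ENNReal.rpow_mul]
      congr 1
      push_cast
      ring
    rw [h4]
    ring

theorem int_pow' {n : ℕ} (hn : 1 ≤ n) {ρ : ℝ} (hρ : 0 < ρ) {A : (Fin n → ℂ) → ℂ}
    (hA : DifferentiableOn ℂ A (bal n ρ)) {o : ℕ} (ho : ¬ OrdGe A (o + 1)) {t : ℝ} (ht : 0 ≤ t)
    (hto : t * o < 1) : ∃ ρ' : ℝ, 0 < ρ' ∧ ρ' ≤ ρ ∧
      ∫⁻ w in bal n ρ', ‖A w‖ₑ ^ (-(2 * t)) ≠ ⊤ := by
  obtain ⟨u, j, a, C, hjo, ha, hu, hC⟩ := intb_dir hn hρ hA ho
  have ha' : 0 < ‖a‖ := norm_pos_iff.2 ha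
  have hΩ := intb_isOpen_bal (n := n) ρ
  have hC0 : 0 ≤ C := by
    have h1 := hC 1 (by rw [norm_one])
    rw [norm_one, one_pow, one_pow, mul_one, mul_one] at h1
    exact (norm_nonneg _).trans h1
  classical
  -- the extension of `|A|`
  have hg0 : Measurable ((bal n ρ).piecewise (fun w => ‖A w‖ₑ) fun _ => 1) :=
    (hA.continuousOn.enorm).measurable_piecewise continuousOn_const hΩ.measurableSet
  set g : (Fin n → ℂ) → ℝ≥0∞ := (bal n ρ).piecewise (fun w => ‖A w‖ₑ) fun _ => 1 with hg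
  have hgA : ∀ w ∈ bal n ρ, g w = ‖A w‖ₑ := fun w hw => piecewise_eq_of_mem _ _ _ hw
  -- it is enough to bound the integral over a neighbourhood
  have hred : ∀ r : ℝ, 0 < r → (∫⁻ w in ball (0 : Fin n → ℂ) r, g w ^ (-(2 * t))) ≠ ⊤ →
      ∃ ρ' : ℝ, 0 < ρ' ∧ ρ' ≤ ρ ∧ ∫⁻ w in bal n ρ', ‖A w‖ₑ ^ (-(2 * t)) ≠ ⊤ := by
    intro r hr hfin
    refine ⟨min r ρ, lt_min hr hρ, min_le_right _ _, ne_top_of_le_ne_top hfin ?_⟩
    have h1 : ∫⁻ w in bal n (min r ρ), ‖A w‖ₑ ^ (-(2 * t)) =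
        ∫⁻ w in bal n (min r ρ), g w ^ (-(2 * t)) := by
      refine setLIntegral_congr_fun (intb_isOpen_bal _).measurableSet fun w hw => ?_
      have h2 : nq w < min r ρ ^ 2 := hw
      have h3 : w ∈ bal n ρ := h2.trans_le (by gcongr; exact min_le_right _ _)
      simp only [hgA w h3]
    rw [h1]
    refine lintegral_mono_set fun w hw => ?_
    have h2 : nq w < min r ρ ^ 2 := hw
    rw [mem_ball_zero_iff]
    calc ‖w‖ ≤ √(nq w) := intb_norm_le w
      _ < √(min r ρ ^ 2) := Real.sqrt_lt_sqrt (intb_nq_nonneg w) h2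
      _ = min r ρ := Real.sqrt_sq (le_min hr.le hρ.le)
      _ ≤ r := min_le_left _ _
  have hline : ∀ s : ℂ, ‖s‖ ≤ 1 → s • u ∈ bal n ρ := fun s hs => by
    show nq (s • u) < ρ ^ 2
    rw [intb_nq_smul, hu]
    have h1 : ‖s‖ ^ 2 ≤ 1 := pow_le_one₀ (norm_nonneg s) hs
    nlinarith [sq_pos_of_pos hρ]
  rcases Nat.eq_zero_or_pos j with hj | hj
  · -- `A 0 ≠ 0`
    have h0 : A 0 = a := by
      have h1 := hC 0 (by rw [norm_zero]; norm_num)
      rw [hj, norm_zero, zero_smul, pow_zero, mul_one, zero_pow (Nat.succ_ne_zero 0),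
        mul_zero] at h1
      exact sub_eq_zero.1 (norm_le_zero_iff.1 h1)
    obtain ⟨η, hη, h1⟩ := intb_pert hΩ hA.continuousOn 0 (R := 0) (fun s _ => by
      rw [smul_zero]
      show nq 0 < ρ ^ 2
      have := intb_nq_le (0 : Fin n → ℂ)
      rw [norm_zero, zero_pow two_ne_zero, mul_zero] at this
      exact this.trans_lt (by positivity)) (half_pos ha')
    refine hred η hη ?_
    have h2 : ∀ w ∈ ball (0 : Fin n → ℂ) η, g w ^ (-(2 * t)) ≤
        ENNReal.ofReal (‖a‖ / 2) ^ (-(2 * t)) := by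
      intro w hw
      obtain ⟨h3, h4⟩ := h1 w (mem_ball_zero_iff.1 hw) 0 (by rw [norm_zero])
      rw [smul_zero, add_zero] at h3 h4
      rw [h0] at h4
      rw [hgA w h3, ENNReal.rpow_neg, ENNReal.rpow_neg, ENNReal.inv_le_inv]
      refine ENNReal.rpow_le_rpow ?_ (by positivity)
      rw [← ofReal_norm]
      apply ENNReal.ofReal_le_ofReal
      have h5 := norm_sub_norm_le a (a - A w)
      rw [sub_sub_cancel, norm_sub_rev a (A w)] at h5
      linarith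
    refine ne_top_of_le_ne_top ?_ (setLIntegral_mono measurable_const h2)
    rw [lintegral_const]
    refine ENNReal.mul_ne_top ?_ ?_
    · rw [ENNReal.rpow_neg]
      refine ENNReal.inv_ne_top.2 ?_
      refine (ENNReal.rpow_pos (ENNReal.ofReal_pos.2 (half_pos ha')) ENNReal.ofReal_ne_top).ne'
    · rw [Measure.restrict_apply_univ]
      exact measure_ball_lt_top.ne
  -- the radius on the line
  set R : ℝ := min 1 (‖a‖ / (4 * 8 ^ j * (C + 1))) with hRdef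
  have hR0 : 0 < R := lt_min one_pos (by positivity)
  have hR1 : R ≤ 1 := min_le_left _ _
  have hR2 : 8 ^ j * (C * R) ≤ ‖a‖ / 4 := by
    have h1 : R ≤ ‖a‖ / (4 * 8 ^ j * (C + 1)) := min_le_right _ _
    rw [le_div_iff₀ (by positivity)] at h1
    have h2 : 0 ≤ (8 : ℝ) ^ j * R := by positivity
    nlinarith
  set δ : ℝ := (R / 8) ^ j * (‖a‖ / 4) with hδ
  have hδ0 : 0 < δ := by positivity
  obtain ⟨η, hη, hpert⟩ := intb_pert hΩ hA.continuousOn u (R := R)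
    (fun s hs => hline s (hs.trans hR1)) hδ0
  set M : ℝ := δ + C * R ^ (j + 1) with hMdef
  have hMa : (8 / R) ^ j * M ≤ ‖a‖ / 2 := by
    have h1 : (8 / R) ^ j * δ = ‖a‖ / 4 := by
      rw [hδ, ← mul_assoc, ← mul_pow, div_mul_div_comm, mul_comm R 8, div_self (by positivity),
        one_pow, one_mul]
    have h2 : (8 / R) ^ j * (C * R ^ (j + 1)) = 8 ^ j * (C * R) := by
      rw [div_pow, pow_succ]
      field_simp
    rw [hMdef, mul_add, h1, h2]
    linarith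
  -- the bound on the slices
  set K : ℝ≥0∞ := volume (ball (0 : ℂ) (R / 2)) +
      (j * (ENNReal.ofReal ((2 ^ (j + 2) / ‖a‖) ^ (1 / (j : ℝ))) ^ 2 * NNReal.pi)) *
        2 ^ (2 * t) * ∑' m : ℕ, ((2 : ℝ≥0∞) ^ (2 * t - 2 / (j : ℝ))) ^ m with hK
  have hKtop : K ≠ ⊤ := by
    refine inta_geom ?_ measure_ball_lt_top.ne ?_
    · rw [lt_div_iff₀ (by exact_mod_cast hj)]
      have h1 : (j : ℝ) ≤ o := by exact_mod_cast hjo
      nlinarith
    · exact ENNReal.mul_ne_top (ENNReal.natCast_ne_top j) (ENNReal.mul_ne_top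
        (ENNReal.pow_ne_top ENNReal.ofReal_ne_top) ENNReal.coe_ne_top)
  have hslice : ∀ w : Fin n → ℂ, ‖w‖ < η →
      ∫⁻ s in ball (0 : ℂ) (R / 2), g (w + s • u) ^ (-(2 * t)) ≤ K := by
    intro w hw
    refine intb_slices (h := fun s => A (w + s • u) - a * s ^ j) (M := M)
      (hg0.comp (by fun_prop)) hR0 ha hj ?_ ?_ hMa ?_ ht
    · refine DifferentiableOn.sub (hA.comp (by fun_prop) fun s hs => ?_) (by fun_prop)
      exact (hpert w hw s (mem_ball_zero_iff.1 hs).le).1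
    · intro s hs
      rw [mem_ball_zero_iff] at hs
      have h1 := (hpert w hw s hs.le).2
      have h2 := hC s (hs.le.trans hR1)
      have h3 : ‖s‖ ^ (j + 1) ≤ R ^ (j + 1) := pow_le_pow_left₀ (norm_nonneg s) hs.le _
      calc ‖A (w + s • u) - a * s ^ j‖ = ‖(A (w + s • u) - A (s • u)) + (A (s • u) - a * s ^ j)‖ := by
            congr 1
            ring
        _ ≤ δ + C * ‖s‖ ^ (j + 1) := (norm_add_le _ _).trans (add_le_add h1 h2)
        _ ≤ M := by rw [hMdef]; gcongr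
    · intro s hs
      rw [mem_ball_zero_iff] at hs
      show g (w + s • u) = _
      rw [hgA _ (hpert w hw s (by linarith)).1]
      congr 1
      ring
  -- Fubini
  set r : ℝ := min (R / 2) (η / (2 * (‖u‖ + 1))) with hr
  have hr0 : 0 < r := lt_min (by positivity) (by positivity)
  refine hred (η / 2) (by positivity) ?_
  have hfub := inta_fubini (F := fun w => g w ^ (-(2 * t))) (hg0.pow_const _)
    (S := ball 0 (η / 2)) (S' := ball 0 η) measurableSet_ball measurableSet_ball u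
    (D := ball 0 r) measurableSet_ball (fun w hw s hs => by
      rw [mem_ball_zero_iff] at hw hs ⊢
      have h1 : ‖s‖ * ‖u‖ ≤ η / 2 := by
        have h2 : ‖s‖ ≤ η / (2 * (‖u‖ + 1)) := hs.le.trans (min_le_right _ _)
        rw [le_div_iff₀ (by positivity)] at h2
        nlinarith [norm_nonneg s, norm_nonneg u]
      calc ‖w - s • u‖ ≤ ‖w‖ + ‖s • u‖ := norm_sub_le _ _
        _ = ‖w‖ + ‖s‖ * ‖u‖ := by rw [norm_smul]
        _ < η := by linarith)
  have h1 : ∫⁻ w in ball (0 : Fin n → ℂ) η, ∫⁻ s in ball (0 : ℂ) r, g (w + s • u) ^ (-(2 * t)) ≤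
      K * volume (ball (0 : Fin n → ℂ) η) := by
    calc _ ≤ ∫⁻ _ in ball (0 : Fin n → ℂ) η, K := by
          refine setLIntegral_mono measurable_const fun w hw => ?_
          refine le_trans (lintegral_mono_set (ball_subset_ball (min_le_left _ _))) ?_
          exact hslice w (mem_ball_zero_iff.1 hw)
      _ = _ := by rw [lintegral_const, Measure.restrict_apply_univ]
  have h2 : volume (ball (0 : ℂ) r) * ∫⁻ w in ball (0 : Fin n → ℂ) (η / 2),
      g w ^ (-(2 * t)) ≠ ⊤ :=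
    ne_top_of_le_ne_top (ENNReal.mul_ne_top hKtop measure_ball_lt_top.ne) (hfub.trans h1)
  intro h3
  rw [h3, ENNReal.mul_top (measure_ball_pos volume (0 : ℂ) hr0).ne'] at h2
  exact h2 rfl

end Pool.Agent.Odp3
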