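import Pool.Agent.Odp3.Eq.LinA

/-!
# Linear changes of the coordinates `y`: integrals
-/

open scoped ContDiff Topology ENNReal NNReal WithZero
open Set MeasureTheory Filter MvPolynomial Pool.Agent.ODP

namespace Pool.Agent.Odp3

variable {n d : ℕ} {B : Type} [CommRing B] [Algebra ℂ B]

/-- The linear map `w ↦ N w`, over `ℝ`. -/
noncomputable def linR (N : Matrix (Fin n) (Fin n) ℂ) : (Fin n → ℂ) →ₗ[ℝ] (Fin n → ℂ) :=
  (Matrix.mulVecLin N).restrictScalars ℝ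

theorem linR_apply (N : Matrix (Fin n) (Fin n) ℂ) (w : Fin n → ℂ) : linR N w = N.mulVec w := rfl

theorem lintegral_mulVec {M N : Matrix (Fin n) (Fin n) ℂ} (h : N * M = 1) :
    ∃ c : ℝ≥0∞, c ≠ 0 ∧ c ≠ ⊤ ∧ ∀ f : (Fin n → ℂ) → ℝ≥0∞,
      ∫⁻ w, f (N.mulVec w) = c * ∫⁻ w, f w := by
  have h' : M * N = 1 := mul_eq_one_comm.mp h
  let E : (Fin n → ℂ) ≃ₗ[ℝ] (Fin n → ℂ) :=
    LinearEquiv.ofLinearMap (linR N) (linR M)
      (LinearMap.ext fun w => by simp [linR_apply, h])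
      (LinearMap.ext fun w => by simp [linR_apply, h'])
  have hE : ∀ w, E w = N.mulVec w := fun w => rfl
  let e : (Fin n → ℂ) ≃ᵐ (Fin n → ℂ) := E.toContinuousLinearEquiv.toHomeomorph.toMeasurableEquiv
  have he : ∀ w, e w = N.mulVec w := fun w => rfl
  have hdet : LinearMap.det (linR N) ≠ 0 := by
    have : LinearMap.det (E : (Fin n → ℂ) →ₗ[ℝ] (Fin n → ℂ)) ≠ 0 := E.isUnit_det'.ne_zero
    exact this
  have hmap : Measure.map e volume =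
      ENNReal.ofReal |(LinearMap.det (linR N))⁻¹| • (volume : Measure (Fin n → ℂ)) := by
    have h1 := Measure.map_linearMap_addHaar_eq_smul_addHaar (volume : Measure (Fin n → ℂ)) hdet
    exact h1
  refine ⟨ENNReal.ofReal |(LinearMap.det (linR N))⁻¹|, ?_, ENNReal.ofReal_ne_top, fun f => ?_⟩
  · simp [hdet]
  · have h1 : ∫⁻ w, f (N.mulVec w) = ∫⁻ w, f (e w) := rfl
    rw [h1, ← lintegral_map_equiv, hmap, lintegral_smul_measure, smul_eq_mul]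

/-- the sum over the fibres in the coordinates `M y` -/
theorem lintegral_fibre_lin {M N : Matrix (Fin n) (Fin n) ℂ} (h : N * M = 1) (y : Fin n → B)
    (S : Set (Pt B)) (F : Pt B → ℝ≥0∞) :
    (fun w : Fin n → ℂ => ∑' χ : {χ : Pt B // χ ∈ S ∧ proj (linChange M y) χ = w}, F χ) =
      fun w => (fun w' => ∑' χ : {χ : Pt B // χ ∈ S ∧ proj y χ = w'}, F χ) (N.mulVec w) := by
  funext w
  have h1 : {χ : Pt B | χ ∈ S ∧ proj (linChange M y) χ = w} =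
      {χ : Pt B | χ ∈ S ∧ proj y χ = N.mulVec w} := by
    ext χ
    simp only [mem_ofPred_eq, proj_linChange_iff h]
  exact tsum_congr_set_coe F h1

theorem integ_lin {M N : Matrix (Fin n) (Fin n) ℂ} (h : N * M = 1) : ∃ c : ℝ≥0∞, c ≠ 0 ∧ c ≠ ⊤ ∧
    ∀ (y : Fin n → B) (b : B) (s : ℝ) (S : Set (Pt B)) (F : Pt B → ℝ≥0∞),
      integ (linChange M y) b s S F = c * integ y b s S F := by
  obtain ⟨c, hc0, hc1, hc⟩ := lintegral_mulVec h
  refine ⟨c, hc0, hc1, fun y b s S F => ?_⟩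
  have h1 := lintegral_fibre_lin h y S (fun χ => F χ * ‖χ b‖ₑ ^ (-(2 * s)))
  unfold integ
  rw [← hc]
  exact congrArg (fun f => ∫⁻ w : Fin n → ℂ, f w) h1

theorem sumI_lin {M N : Matrix (Fin n) (Fin n) ℂ} (h : N * M = 1) : ∃ c : ℝ≥0∞, c ≠ 0 ∧ c ≠ ⊤ ∧
    ∀ (G : Germ n d B) (S : Set (Pt B)) (F : Pt B → ℝ≥0∞),
      sumI (G.lin M N h) S F = c * sumI G S F := by
  obtain ⟨c, hc0, hc1, hc⟩ := lintegral_mulVec h
  refine ⟨c, hc0, hc1, fun G S F => ?_⟩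
  have h1 := lintegral_fibre_lin h G.y S F
  unfold sumI
  rw [← hc]
  exact congrArg (fun f => ∫⁻ w : Fin n → ℂ, f w) h1

theorem NearInt_lin {M N : Matrix (Fin n) (Fin n) ℂ} (h : N * M = 1) (y : Fin n → B) (b : B)
    (s : ℝ) (x : Pt B) (F : Pt B → ℝ≥0∞) :
    NearInt (linChange M y) b s x F ↔ NearInt y b s x F := by
  obtain ⟨c, hc0, hc1, hc⟩ := integ_lin (B := B) h
  unfold NearInt
  simp only [hc]
  have h1 : ∀ a : ℝ≥0∞, c * a ≠ ⊤ ↔ a ≠ ⊤ := by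
    intro a
    constructor
    · intro h2 h3
      apply h2
      rw [h3, ENNReal.mul_top hc0]
    · exact fun h2 => ENNReal.mul_ne_top hc1 h2
  simp only [h1]

theorem lct_lin {M N : Matrix (Fin n) (Fin n) ℂ} (h : N * M = 1) (y : Fin n → B) (b : B)
    (s : ℝ) (x : Pt B) (𝔞 : Ideal B) : lct (linChange M y) b s x 𝔞 = lct y b s x 𝔞 := by
  unfold lct
  simp only [NearInt_lin h]

theorem nvol_lin {M N : Matrix (Fin n) (Fin n) ℂ} (h : N * M = 1) (y : Fin n → B) (b : B)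
    (s : ℝ) (x : Pt B) : nvol (linChange M y) b s x = nvol y b s x := by
  unfold nvol
  simp only [lct_lin h]

/-- the neighbourhoods in the coordinates `M y` -/
theorem UU_lin_subset (G : Germ n d B) {M N : Matrix (Fin n) (Fin n) ℂ} (h : N * M = 1) (sg : B)
    {ρ : ℝ} (hρ : 0 < ρ) : ∃ r : ℝ, 0 < r ∧ ∀ ρ' : ℝ, 0 < ρ' → ρ' ≤ r →
      UU (G.lin M N h) sg ρ' ⊆ UU G sg ρ := by
  obtain ⟨K, hK, hN⟩ := nq_mulVec_le N
  refine ⟨ρ / √K, by positivity, fun ρ' h0 hρ' => ?_⟩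
  rintro χ ⟨h1, h2⟩
  refine ⟨?_, h2⟩
  have h3 : proj G.y χ = N.mulVec (proj (linChange M G.y) χ) := (proj_linChange_iff h _ _ _).1 rfl
  have h4 : K * ρ' ^ 2 ≤ ρ ^ 2 := by
    have h5 : ρ' ^ 2 ≤ (ρ / √K) ^ 2 := by gcongr
    rw [div_pow, Real.sq_sqrt hK.le] at h5
    rw [le_div_iff₀ hK] at h5
    linarith
  rw [h3]
  calc nq (N.mulVec (proj (linChange M G.y) χ)) ≤ K * nq (proj (linChange M G.y) χ) := hN _
    _ < K * ρ' ^ 2 := by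
        refine mul_lt_mul_of_pos_left ?_ hK
        exact h1
    _ ≤ ρ ^ 2 := h4

theorem linB_sumI_mono {G : Germ n d B} {S S' : Set (Pt B)} (hS : S ⊆ S') (F : Pt B → ℝ≥0∞) :
    sumI G S F ≤ sumI G S' F := by
  refine lintegral_mono fun w => ?_
  have h1 : {χ : Pt B | χ ∈ S ∧ proj G.y χ = w} ⊆ {χ : Pt B | χ ∈ S' ∧ proj G.y χ = w} :=
    fun χ hχ => ⟨hS hχ.1, hχ.2⟩
  exact ENNReal.tsum_mono_subtype F h1

theorem IsMeas.lin {G : Germ n d B} {x : Pt B} {b : B} {s : ℝ} {sg : B} {ρ₁ : ℝ}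
    (H : IsMeas G x b s sg ρ₁) {M N : Matrix (Fin n) (Fin n) ℂ} (h : N * M = 1) :
    ∃ r : ℝ, 0 < r ∧ ∀ ρ' : ℝ, 0 < ρ' → ρ' ≤ r → IsMeas (G.lin M N h) x b s sg ρ' := by
  obtain ⟨r, hr, hU⟩ := UU_lin_subset G h sg H.pos
  obtain ⟨c, hc0, hc1, hc⟩ := sumI_lin (B := B) (d := d) h
  have hD : ∀ χ : Pt B, eval (proj (G.lin M N h).y χ) (G.lin M N h).D = eval (proj G.y χ) G.D := by
    intro χ
    change eval (proj (linChange M G.y) χ) (lsub N G.D) = _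
    rw [eval_lsub, ← (proj_linChange_iff h G.y χ _).1 rfl]
  refine ⟨r, hr, fun ρ' h0 hρ' => ⟨H.normal, h0, H.s_nonneg, ?_, ?_, ?_⟩⟩
  · intro χ hχ
    rw [hD] at hχ
    exact H.h_ne χ hχ
  · intro u hu
    obtain ⟨C, hC⟩ := H.om u (Germ.lin_IsOm hu)
    refine ⟨C, fun χ hχ hχD => ?_⟩
    rw [hD] at hχD ⊢
    exact hC χ (hU ρ' h0 hρ' hχ) hχD
  · rw [hc]
    exact ENNReal.mul_ne_top hc1 (ne_top_of_le_ne_top H.fin (linB_sumI_mono (hU ρ' h0 hρ') _))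

theorem klt_lin (G : Germ n d B) {M N : Matrix (Fin n) (Fin n) ℂ} (h : N * M = 1) {sg : B}
    {ρ : ℝ} (hρ : 0 < ρ) (F : Pt B → ℝ≥0∞) (hF : sumI G (UU G sg ρ) F ≠ ⊤) :
    ∃ r : ℝ, 0 < r ∧ ∀ ρ' : ℝ, 0 < ρ' → ρ' ≤ r →
      sumI (G.lin M N h) (UU (G.lin M N h) sg ρ') F ≠ ⊤ := by
  obtain ⟨r, hr, hU⟩ := UU_lin_subset G h sg hρ
  obtain ⟨c, hc0, hc1, hc⟩ := sumI_lin (B := B) (d := d) h
  refine ⟨r, hr, fun ρ' h0 hρ' => ?_⟩
  rw [hc]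
  exact ENNReal.mul_ne_top hc1 (ne_top_of_le_ne_top hF (linB_sumI_mono (hU ρ' h0 hρ') _))

end Pool.Agent.Odp3
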