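import Pool.Agent.Odp3.Eq.Defs
import Pool.Agent.Odp3.Lim.Ideal
import Pool.Agent.ODP.LinChange

/-!
# Linear changes of the coordinates `y`: the algebraic part
-/

open scoped ContDiff Topology ENNReal NNReal WithZero
open Set MeasureTheory Filter MvPolynomial Pool.Agent.ODP

namespace Pool.Agent.Odp3

/-! ### The substitution `P(X) ↦ P(A X)` -/

section

variable {n : ℕ}

/-- The substitution `P(X) ↦ P(A X)`. -/
noncomputable def lsub (A : Matrix (Fin n) (Fin n) ℂ) :
    MvPolynomial (Fin n) ℂ →ₐ[ℂ] MvPolynomial (Fin n) ℂ := aeval (linChange A X)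

theorem aeval_lsub {B : Type*} [CommRing B] [Algebra ℂ B] (A : Matrix (Fin n) (Fin n) ℂ)
    (w : Fin n → B) (P : MvPolynomial (Fin n) ℂ) :
    aeval w (lsub A P) = aeval (linChange A w) P := by
  have h : (aeval w : MvPolynomial (Fin n) ℂ →ₐ[ℂ] B).comp (lsub A) = aeval (linChange A w) := by
    apply MvPolynomial.algHom_ext
    intro i
    simp [lsub, linChange]
  exact DFunLike.congr_fun h P

theorem linChange_eq_mulVec (A : Matrix (Fin n) (Fin n) ℂ) (w : Fin n → ℂ) :
    linChange A w = A.mulVec w := by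
  funext i
  simp [linChange, Matrix.mulVec, dotProduct]

theorem eval_lsub (A : Matrix (Fin n) (Fin n) ℂ) (w : Fin n → ℂ) (P : MvPolynomial (Fin n) ℂ) :
    eval w (lsub A P) = eval (A.mulVec w) P := by
  have h := aeval_lsub A w P
  rw [linChange_eq_mulVec] at h
  simpa [MvPolynomial.aeval_eq_eval] using h

theorem lsub_lsub (A A' : Matrix (Fin n) (Fin n) ℂ) (P : MvPolynomial (Fin n) ℂ) :
    lsub A' (lsub A P) = lsub (A * A') P := by
  have h := aeval_lsub A (linChange A' (X : Fin n → MvPolynomial (Fin n) ℂ)) P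
  rw [← linChange_mul] at h
  exact h

theorem lsub_one (P : MvPolynomial (Fin n) ℂ) : lsub 1 P = P := by
  rw [lsub, linChange_one]
  exact MvPolynomial.aeval_X_left_apply P

theorem lsub_inj {M N : Matrix (Fin n) (Fin n) ℂ} (h : N * M = 1) :
    Function.Injective (lsub N) := by
  intro P Q hPQ
  have h1 := congrArg (lsub M) hPQ
  rwa [lsub_lsub, lsub_lsub, h, lsub_one, lsub_one] at h1

theorem proj_linChange {B : Type} [CommRing B] [Algebra ℂ B] (A : Matrix (Fin n) (Fin n) ℂ)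
    (y : Fin n → B) (χ : Pt B) : proj (linChange A y) χ = A.mulVec (proj y χ) := by
  funext i
  simp [proj, linChange, Matrix.mulVec, dotProduct]

theorem proj_linChange_iff {B : Type} [CommRing B] [Algebra ℂ B]
    {M N : Matrix (Fin n) (Fin n) ℂ} (h : N * M = 1)
    (y : Fin n → B) (χ : Pt B) (w : Fin n → ℂ) :
    proj (linChange M y) χ = w ↔ proj y χ = N.mulVec w := by
  have h' : M * N = 1 := mul_eq_one_comm.mp h
  rw [proj_linChange]
  constructor
  · rintro rfl
    rw [Matrix.mulVec_mulVec, h, Matrix.one_mulVec]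
  · intro h1
    rw [h1, Matrix.mulVec_mulVec, h', Matrix.one_mulVec]

end

variable {n d : ℕ} {B : Type} [CommRing B] [Algebra ℂ B]

/-- The working data in the coordinates `M y`. -/
noncomputable def Germ.lin (G : Germ n d B) (M N : Matrix (Fin n) (Fin n) ℂ) (h : N * M = 1) :
    Germ n d B where
  y := linChange M G.y
  fin := by
    have h1 : (aeval (linChange M G.y) : MvPolynomial (Fin n) ℂ →ₐ[ℂ] B).toRingHom =
        (aeval G.y : MvPolynomial (Fin n) ℂ →ₐ[ℂ] B).toRingHom.comp (lsub M).toRingHom :=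
      RingHom.ext fun P => (aeval_lsub M G.y P).symm
    rw [h1]
    refine G.fin.comp (RingHom.Finite.of_surjective _ fun P => ⟨lsub N P, ?_⟩)
    change lsub M (lsub N P) = P
    rw [lsub_lsub, h, lsub_one]
  inj := fun P Q hPQ => by
    have h' : M * N = 1 := mul_eq_one_comm.mp h
    rw [← aeval_lsub, ← aeval_lsub] at hPQ
    exact lsub_inj h' (G.inj hPQ)
  e := G.e
  du := G.du
  D := lsub N G.D
  D_ne := fun h0 => G.D_ne (lsub_inj h (by rw [h0, map_zero]))
  tr := fun b => lsub N (G.tr b)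
  tr_add := fun b c => by rw [G.tr_add, map_add]
  tr_mul := fun p b => by
    have h' : M * N = 1 := mul_eq_one_comm.mp h
    rw [← aeval_lsub, G.tr_mul, map_mul, lsub_lsub, h', lsub_one]
  tr_du := fun i j => by
    rw [G.tr_du]
    split_ifs
    · rfl
    · exact map_zero _
  spec := fun b => by
    rw [aeval_lsub, linChange_inv M N h, G.spec b]
    refine Finset.sum_congr rfl fun i _ => ?_
    rw [aeval_lsub, linChange_inv M N h]
  card := fun w hw => by
    rw [eval_lsub] at hw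
    have h1 := G.card _ hw
    have h2 : {χ : Pt B | proj (linChange M G.y) χ = w} =
        {χ : Pt B | proj G.y χ = N.mulVec w} := by
      ext χ
      exact proj_linChange_iff h _ _ _
    rw [h2]
    exact h1
  tr_pt := fun w hw S hS b => by
    rw [eval_lsub] at hw ⊢
    exact G.tr_pt _ hw S (fun χ => (hS χ).trans (proj_linChange_iff h _ _ _)) b
  du_spec := fun w hw χ χ' hχ hχ' => by
    rw [eval_lsub] at hw
    rw [proj_linChange_iff h] at hχ hχ'
    rw [eval_lsub]
    exact G.du_spec _ hw χ χ' hχ hχ'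

theorem Germ.lin_IsOm {G : Germ n d B} {M N : Matrix (Fin n) (Fin n) ℂ} {h : N * M = 1} {u : B}
    (hu : (G.lin M N h).IsOm u) : G.IsOm u := by
  intro b
  obtain ⟨p, hp⟩ := hu b
  have h' : M * N = 1 := mul_eq_one_comm.mp h
  refine ⟨lsub M p, lsub_inj h ?_⟩
  rw [map_mul, lsub_lsub, h', lsub_one]
  exact hp

theorem nq_mulVec_le (N : Matrix (Fin n) (Fin n) ℂ) : ∃ K : ℝ, 0 < K ∧ ∀ w : Fin n → ℂ,
    nq (N.mulVec w) ≤ K * nq w := by
  refine ⟨(∑ i, ∑ j, ‖N i j‖ ^ 2) + 1, by positivity, fun w => ?_⟩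
  have h0 : 0 ≤ nq w := Finset.sum_nonneg fun _ _ => by positivity
  have h1 : ∀ i, ‖N.mulVec w i‖ ^ 2 ≤ (∑ j, ‖N i j‖ ^ 2) * nq w := by
    intro i
    have h2 : ‖N.mulVec w i‖ ≤ ∑ j, ‖N i j‖ * ‖w j‖ := by
      rw [Matrix.mulVec, dotProduct]
      refine (norm_sum_le _ _).trans (le_of_eq ?_)
      exact Finset.sum_congr rfl fun j _ => norm_mul _ _
    calc ‖N.mulVec w i‖ ^ 2 ≤ (∑ j, ‖N i j‖ * ‖w j‖) ^ 2 := by gcongr
      _ ≤ (∑ j, ‖N i j‖ ^ 2) * ∑ j, ‖w j‖ ^ 2 := Finset.sum_mul_sq_le_sq_mul_sq _ _ _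
      _ = _ := rfl
  calc nq (N.mulVec w) = ∑ i, ‖N.mulVec w i‖ ^ 2 := rfl
    _ ≤ ∑ i, (∑ j, ‖N i j‖ ^ 2) * nq w := Finset.sum_le_sum fun i _ => h1 i
    _ = (∑ i, ∑ j, ‖N i j‖ ^ 2) * nq w := by rw [Finset.sum_mul]
    _ ≤ _ := by nlinarith

theorem IsSep.lin {G : Germ n d B} {x : Pt B} {m : ℕ} {sg : B} (H : IsSep G x m sg)
    (M N : Matrix (Fin n) (Fin n) ℂ) (h : N * M = 1) : IsSep (G.lin M N h) x m sg where
  x_y := by
    change proj (linChange M G.y) x = 0
    rw [proj_linChange, H.x_y, Matrix.mulVec_zero]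
  x_sg := H.x_sg
  idem := by
    change _ ∈ Ideal.span (Set.range (linChange M G.y)) ^ m
    rw [span_linChange M N h]
    exact H.idem
  nil := by
    change ∀ b, x b = 0 → ∃ L : ℕ, b ^ L * sg ∈ Ideal.span (Set.range (linChange M G.y))
    rw [span_linChange M N h]
    exact H.nil

/-- The sequence of pairs of points in the coordinates `M y`. -/
noncomputable def Pts.lin {G : Germ n d B} {x : Pt B} (p : Pts G x)
    (M N : Matrix (Fin n) (Fin n) ℂ) (h : N * M = 1) : Pts (G.lin M N h) x where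
  q := fun ν => M.mulVec (p.q ν)
  p := p.p
  proj_p := fun i ν => by
    change proj (linChange M G.y) _ = _
    rw [proj_linChange, p.proj_p]
  D_ne := fun ν => by
    change eval _ (lsub N G.D) ≠ 0
    rw [eval_lsub, Matrix.mulVec_mulVec, h, Matrix.one_mulVec]
    exact p.D_ne ν
  ne := p.ne
  tendsto_q := by
    have h1 : Continuous fun w : Fin n → ℂ => M.mulVec w := by fun_prop
    have h2 := (h1.tendsto 0).comp p.tendsto_q
    rwa [Matrix.mulVec_zero] at h2
  tendsto_p := p.tendsto_p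
  low := by
    obtain ⟨K, c, hc, hlow⟩ := p.low
    obtain ⟨L, hL, hM⟩ := nq_mulVec_le M
    refine ⟨K, c / √L ^ K, by positivity, fun ν => ?_⟩
    change _ ≤ ‖eval (M.mulVec (p.q ν)) (lsub N G.D)‖
    rw [eval_lsub, Matrix.mulVec_mulVec, h, Matrix.one_mulVec]
    refine le_trans ?_ (hlow ν)
    have h1 : √(nq (M.mulVec (p.q ν))) ≤ √L * √(nq (p.q ν)) := by
      rw [← Real.sqrt_mul hL.le]
      exact Real.sqrt_le_sqrt (hM _)
    have h2 : √(nq (M.mulVec (p.q ν))) ^ K ≤ √L ^ K * √(nq (p.q ν)) ^ K := by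
      rw [← mul_pow]
      gcongr
    rw [div_mul_eq_mul_div, div_le_iff₀ (by positivity)]
    calc c * √(nq (M.mulVec (p.q ν))) ^ K ≤ c * (√L ^ K * √(nq (p.q ν)) ^ K) := by gcongr
      _ = c * √(nq (p.q ν)) ^ K * √L ^ K := by ring

/-! ### The ideals `J_N` -/

theorem WW_one_eq (G : Germ n d B) (N : ℕ) (χ : Pt B) : WW G (one n) N χ = PP G χ ^ N := by
  apply le_antisymm
  · rw [WW, Ideal.span_le]
    rintro _ ⟨m, hm, rfl⟩
    have h2 : ∀ j, G.y j - algebraMap ℂ B (χ (G.y j)) ∈ PP G χ := fun j =>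
      Ideal.subset_span (Set.mem_range_self j)
    have h1 : ∏ j, (G.y j - algebraMap ℂ B (χ (G.y j))) ^ m j ∈ PP G χ ^ (∑ j, m j) := by
      rw [← Finset.prod_pow_eq_pow_sum]
      exact Ideal.prod_mem_prod fun j _ => Ideal.pow_mem_pow (h2 j) _
    refine Ideal.pow_le_pow_right ?_ h1
    simpa [one] using hm
  · exact PP_pow_le (a := one n) (fun _ => le_rfl) N χ

theorem WW_lin (G : Germ n d B) (M N : Matrix (Fin n) (Fin n) ℂ) (h : N * M = 1) (K : ℕ)
    (χ : Pt B) : WW (G.lin M N h) (one n) K χ = WW G (one n) K χ := by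
  rw [WW_one_eq, WW_one_eq]
  congr 1
  rw [PP, PP]
  have h1 : (fun j => (G.lin M N h).y j - algebraMap ℂ B (χ ((G.lin M N h).y j))) =
      linChange M (fun j => G.y j - algebraMap ℂ B (χ (G.y j))) := by
    funext j
    change linChange M G.y j - algebraMap ℂ B (χ (linChange M G.y j)) = _
    simp only [linChange, map_sum, smul_sub, Finset.sum_sub_distrib]
    congr 1
    refine Finset.sum_congr rfl fun i _ => ?_
    rw [map_smul, smul_eq_mul, map_mul, Algebra.smul_def]
  rw [h1, span_linChange M N h]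

theorem VanAt_lin {G : Germ n d B} (M N : Matrix (Fin n) (Fin n) ℂ) (h : N * M = 1) {K : ℕ}
    {χ : Pt B} {F : B} : VanAt (G.lin M N h) (one n) K χ F ↔ VanAt G (one n) K χ F := by
  rw [vanAt_iff, vanAt_iff, WW_lin]

theorem TendsB_lin {G : Germ n d B} {F : ℕ → B} {F' : B}
    (M N : Matrix (Fin n) (Fin n) ℂ) (h : N * M = 1) :
    TendsB (G.lin M N h) F F' ↔ TendsB G F F' := Iff.rfl

theorem JI_lin {G : Germ n d B} {x : Pt B} (p : Pts G x)
    (M N : Matrix (Fin n) (Fin n) ℂ) (h : N * M = 1) (K : ℕ) :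
    JI (p.lin M N h) (one n) K = JI p (one n) K := by
  rw [JI, JI]
  congr 1
  ext F'
  constructor
  · rintro ⟨F, hF, hF'⟩
    refine ⟨F, ?_, (TendsB_lin M N h).1 hF'⟩
    filter_upwards [hF] with ν h1 i
    exact (VanAt_lin M N h).1 (h1 i)
  · rintro ⟨F, hF, hF'⟩
    refine ⟨F, ?_, (TendsB_lin M N h).2 hF'⟩
    filter_upwards [hF] with ν h1 i
    exact (VanAt_lin M N h).2 (h1 i)

end Pool.Agent.Odp3
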