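import Pool.Agent.Odp3.Eq.GT
import Pool.Agent.Odp3.Main.Bound
import Pool.Agent.Odp3.Pt.Red

open scoped ContDiff Topology ENNReal NNReal WithZero
open Set MeasureTheory Filter MvPolynomial Pool.Agent.ODP

namespace Pool.Agent.Odp3

/-! ### The numerical inequality -/

theorem t2_num {n q : ℕ} (hn : 2 ≤ n) (hq : n < q) :
    (((n : ℝ) - 1) * q - 1) ^ n < ((n : ℝ) - 1) ^ n * ((q : ℝ) ^ (n - 1) * ((q : ℝ) - 1)) := by
  have hn1 : (1 : ℝ) ≤ (n : ℝ) - 1 := by
    have : (2 : ℝ) ≤ n := by exact_mod_cast hn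
    linarith
  have hq1 : (n : ℝ) + 1 ≤ q := by exact_mod_cast hq
  have hq0 : (0 : ℝ) < q := by linarith
  set X : ℝ := ((n : ℝ) - 1) * q with hX
  have hX0 : 0 < X := by positivity
  have hX1 : 1 ≤ X := by nlinarith
  set t : ℝ := 1 / X with ht
  have ht0 : 0 < t := by positivity
  have ht1 : t ≤ 1 := by rw [ht, div_le_one hX0]; exact hX1
  have h1 : (1 - t) ^ n * (1 + n * t) ≤ 1 := by
    have h2 : 1 + (n : ℝ) * t ≤ (1 + t) ^ n := one_add_mul_le_pow (by linarith) n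
    calc (1 - t) ^ n * (1 + n * t) ≤ (1 - t) ^ n * (1 + t) ^ n := by
          have : 0 ≤ (1 - t) ^ n := pow_nonneg (by linarith) n
          gcongr
      _ = (1 - t ^ 2) ^ n := by rw [← mul_pow]; ring_nf
      _ ≤ 1 := pow_le_one₀ (by nlinarith) (by nlinarith)
  have h3 : (n : ℝ) * ((n : ℝ) - 1) * t < 1 := by
    rw [ht, mul_one_div, div_lt_one hX0, hX]
    nlinarith
  have h4 : 1 < (1 + n * t) * (1 - (n - 1) * t) := by
    have : (1 + n * t) * (1 - ((n : ℝ) - 1) * t) = 1 + t * (1 - (n : ℝ) * ((n : ℝ) - 1) * t) := by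
      ring
    rw [this]
    have : 0 < t * (1 - (n : ℝ) * ((n : ℝ) - 1) * t) := mul_pos ht0 (by linarith)
    linarith
  have h5 : (1 - t) ^ n < 1 - (n - 1) * t := by
    have h6 : 0 < 1 + (n : ℝ) * t := by positivity
    nlinarith
  have h7 : (X - 1) ^ n = X ^ n * (1 - t) ^ n := by
    rw [← mul_pow, ht, mul_sub, mul_one, mul_one_div_cancel hX0.ne']
  have h8 : ((n : ℝ) - 1) ^ n * ((q : ℝ) ^ (n - 1) * ((q : ℝ) - 1)) =
      X ^ n * (1 - (n - 1) * t) := by
    have h9 : (q : ℝ) ^ n = (q : ℝ) ^ (n - 1) * q := by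
      rw [← pow_succ]
      congr 1
      omega
    have h10 : ((n : ℝ) - 1) * t = 1 / q := by
      rw [ht, hX]
      field_simp
    rw [h10, hX, mul_pow, h9]
    field_simp
  rw [h7, h8]
  exact mul_lt_mul_of_pos_left h5 (pow_pos hX0 n)

/-! ### Bounds -/

section

variable {n d : ℕ} {B : Type} [CommRing B] [Algebra ℂ B]

/-- an element of the ideal generated by the `f l` is bounded by them -/
theorem t2_mem_bound (G : Germ n d B) {L : ℕ} (f : Fin L → B) {u : B}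
    (hu : u ∈ Ideal.span (range f)) (R : ℝ) : ∃ C : ℝ, 0 ≤ C ∧ ∀ χ : Pt B,
      nq (proj G.y χ) ≤ R → ‖χ u‖ ^ 2 ≤ C * ∑ l, ‖χ (f l)‖ ^ 2 := by
  obtain ⟨c, rfl⟩ := Ideal.mem_span_range_iff_exists_fun.mp hu
  choose C hC using fun l => G.bdd (c l) R
  refine ⟨∑ l, (C l) ^ 2, Finset.sum_nonneg fun _ _ => sq_nonneg _, fun χ hχ => ?_⟩
  rw [map_sum]
  have h1 : ‖∑ l, χ (c l * f l)‖ ≤ ∑ l, ‖χ (c l)‖ * ‖χ (f l)‖ := by
    refine (norm_sum_le _ _).trans (le_of_eq (Finset.sum_congr rfl fun l _ => ?_))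
    rw [map_mul, norm_mul]
  calc ‖∑ l, χ (c l * f l)‖ ^ 2 ≤ (∑ l, ‖χ (c l)‖ * ‖χ (f l)‖) ^ 2 := by gcongr
    _ ≤ (∑ l, ‖χ (c l)‖ ^ 2) * ∑ l, ‖χ (f l)‖ ^ 2 := Finset.sum_mul_sq_le_sq_mul_sq _ _ _
    _ ≤ (∑ l, (C l) ^ 2) * ∑ l, ‖χ (f l)‖ ^ 2 := by
        refine mul_le_mul_of_nonneg_right (Finset.sum_le_sum fun l _ => ?_)
          (Finset.sum_nonneg fun _ _ => by positivity)
        have := hC l χ hχ
        have h0 := norm_nonneg (χ (c l))
        nlinarith

/-- `|c(w)| ≤ C Y^i` for a form `c` of degree `i` without `w_{j₀}` -/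
theorem t2_form_bound (c : MvPolynomial (Fin n) ℂ) {i : ℕ} (hc : c.IsHomogeneous i) (j₀ : Fin n)
    (hc0 : c.degreeOf j₀ = 0) : ∃ C : ℝ, 0 ≤ C ∧ ∀ (w : Fin n → ℂ) (Y : ℝ), 0 ≤ Y →
      (∀ j, j ≠ j₀ → ‖w j‖ ≤ Y) → ‖eval w c‖ ≤ C * Y ^ i := by
  refine ⟨∑ μ ∈ c.support, ‖c.coeff μ‖, Finset.sum_nonneg fun _ _ => norm_nonneg _, ?_⟩
  intro w Y hY hw
  rw [eval_eq', Finset.sum_mul]
  refine (norm_sum_le _ _).trans (Finset.sum_le_sum fun μ hμ => ?_)
  rw [norm_mul]
  refine mul_le_mul_of_nonneg_left ?_ (norm_nonneg _)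
  have h1 : ∑ j, μ j = i := by
    have := hc (mem_support_iff.1 hμ)
    rw [Finsupp.weight_apply, Finsupp.sum_fintype _ _ (fun _ => by simp)] at this
    simpa using this
  have h2 : μ j₀ = 0 := by
    have := monomial_le_degreeOf j₀ hμ
    omega
  rw [norm_prod, ← h1, ← Finset.prod_pow_eq_pow_sum]
  refine Finset.prod_le_prod (fun _ _ => norm_nonneg _) fun j _ => ?_
  rw [norm_pow]
  by_cases hj : j = j₀
  · rw [hj, h2, pow_zero, pow_zero]
  · exact pow_le_pow_left₀ (norm_nonneg _) (hw j hj) _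

/-- the roots of a polynomial -/
theorem t2_root (N' : ℕ) (C : ℝ) (hC : 0 ≤ C) : ∃ K : ℝ, 0 ≤ K ∧
    ∀ (Y Z φ : ℝ), 0 ≤ Y → 0 ≤ Z → 0 ≤ φ →
      Z ^ N' ≤ φ + ∑ i ∈ Finset.range N', C * Y ^ (i + 1) * Z ^ (N' - (i + 1)) →
      Z ^ N' ≤ 2 * φ + K * Y ^ N' := by
  set K : ℝ := 2 * N' * C + 1 with hK
  have hK1 : 1 ≤ K := by
    have : 0 ≤ 2 * (N' : ℝ) * C := by positivity
    linarith
  refine ⟨K ^ N', by positivity, fun Y Z φ hY hZ hφ h => ?_⟩
  by_cases hc : Z ≤ K * Y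
  · have h1 : Z ^ N' ≤ (K * Y) ^ N' := pow_le_pow_left₀ hZ hc _
    rw [mul_pow] at h1
    linarith
  · push Not at hc
    have h1 : ∀ i ∈ Finset.range N', C * Y ^ (i + 1) * Z ^ (N' - (i + 1)) ≤ C * (Z ^ N' / K) := by
      intro i hi
      have hi' := Finset.mem_range.1 hi
      have hKY : Y ≤ Z / K := by
        rw [le_div_iff₀ (by linarith)]
        linarith
      have hZK : 0 ≤ Z / K := by positivity
      have h2 : Y ^ (i + 1) ≤ Z ^ (i + 1) / K := by
        calc Y ^ (i + 1) ≤ (Z / K) ^ (i + 1) := pow_le_pow_left₀ hY hKY _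
          _ = Z ^ (i + 1) / K ^ (i + 1) := div_pow _ _ _
          _ ≤ Z ^ (i + 1) / K := by
              gcongr
              exact le_self_pow₀ hK1 (by omega)
      calc C * Y ^ (i + 1) * Z ^ (N' - (i + 1)) ≤ C * (Z ^ (i + 1) / K) * Z ^ (N' - (i + 1)) := by
            gcongr
        _ = C * (Z ^ (i + 1 + (N' - (i + 1))) / K) := by rw [pow_add]; ring
        _ = C * (Z ^ N' / K) := by
            congr 3
            omega
    have h3 := h.trans (add_le_add le_rfl (Finset.sum_le_sum h1))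
    rw [Finset.sum_const, Finset.card_range, nsmul_eq_mul] at h3
    have h4 : (N' : ℝ) * (C * (Z ^ N' / K)) ≤ Z ^ N' / 2 := by
      have h5 : 0 ≤ Z ^ N' := by positivity
      rw [mul_div_assoc', mul_div_assoc', div_le_div_iff₀ (by linarith) two_pos]
      nlinarith
    have h6 : 0 ≤ K ^ N' * Y ^ N' := by positivity
    linarith

end

variable {n d : ℕ} {B : Type} [CommRing B] [IsDomain B] [Algebra ℂ B] {G : Germ n d B} {x : Pt B}
  {h : B} {s κ : ℝ} {sg : B} {m : ℕ} {ρ₁ : ℝ}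

theorem t2_pow_mem (p : Pts G x) (a : Fin n → ℕ) {N : ℕ} {u : B} (hu : u ∈ JI p a N) (k : ℕ) :
    u ^ (k + 1) ∈ JI p a (N * (k + 1)) := by
  induction k with
  | zero => simpa using hu
  | succ k ih =>
    rw [pow_succ, Nat.mul_add, Nat.mul_one]
    exact JI_mul p a _ _ (Ideal.mul_mem_mul ih hu)

/-- T2: `z` is integral over `n - 1` coordinates modulo elements of higher order. -/
theorem strict_of_int (H : Std G x h s κ sg m ρ₁) (p : Pts G x) {z : B} (hz : x z = 0)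
    (hz1 : z ∉ JI p (one n) 1) {N' : ℕ} (hN : 1 ≤ N') (c : ℕ → MvPolynomial (Fin n) ℂ)
    (hc : ∀ i, (c i).IsHomogeneous i) (j₀ : Fin n) (hc0 : ∀ i, (c i).degreeOf j₀ = 0)
    (h0 : c 0 = 1)
    (hF : ∑ i ∈ Finset.range (N' + 1), aeval G.y (c i) * z ^ (N' - i) ∈ GT p N') :
    Strict G x h s := by
  classical
  obtain ⟨M, N₀, hM, hMN, hFM⟩ := hF
  set F := ∑ i ∈ Finset.range (N' + 1), aeval G.y (c i) * z ^ (N' - i) with hFdef
  set q : ℕ := n + M * N' + 2 with hq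
  have hn := H.hn
  set a : Fin n → ℕ := fun j => if j = j₀ then q - 1 else q with ha
  have ha1 : ∀ j, 1 ≤ a j := fun j => by
    simp only [ha]
    split_ifs <;> omega
  have haq : ∀ j, q - 1 ≤ a j := fun j => by
    simp only [ha]
    split_ifs <;> omega
  have hsum : ∑ j, a j + 1 = n * q := by
    have h1 : ∑ j, a j + ∑ j, (if j = j₀ then 1 else 0) = ∑ _j : Fin n, q := by
      rw [← Finset.sum_add_distrib]
      refine Finset.sum_congr rfl fun j _ => ?_
      simp only [ha]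
      split_ifs <;> omega
    rw [Finset.sum_ite_eq' Finset.univ j₀, if_pos (Finset.mem_univ _), Finset.sum_const,
      Finset.card_univ, Fintype.card_fin, smul_eq_mul] at h1
    exact h1
  have hprod : ∏ j, (a j : ℝ) = (q : ℝ) ^ (n - 1) * ((q : ℝ) - 1) := by
    rw [← Finset.mul_prod_erase Finset.univ _ (Finset.mem_univ j₀)]
    have h1 : ∏ j ∈ Finset.univ.erase j₀, (a j : ℝ) = (q : ℝ) ^ (n - 1) := by
      rw [Finset.prod_congr rfl (g := fun _ => (q : ℝ)) fun j hj => by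
        simp only [ha, if_neg (Finset.ne_of_mem_erase hj)], Finset.prod_const,
        Finset.card_erase_of_mem (Finset.mem_univ _), Finset.card_univ, Fintype.card_fin]
    rw [h1, mul_comm]
    congr 1
    simp only [ha, if_true]
    rw [Nat.cast_sub (by omega)]
    simp
  -- `F^M` in the weighted ideal
  have hFa : F ^ M ∈ JI p a (q * (M * N')) := by
    refine JI_one_le p haq (M := N₀) ?_ hFM
    have h1 : M * N' + 1 ≤ N₀ := hMN
    calc q * (M * N') ≤ (q - 1) * (M * N' + 1) := by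
          obtain ⟨q', hq'⟩ : ∃ q', q = q' + 1 := ⟨q - 1, by omega⟩
          rw [hq', Nat.add_sub_cancel]
          have : M * N' ≤ q' := by omega
          nlinarith
      _ ≤ (q - 1) * N₀ := Nat.mul_le_mul_left _ h1
  have key := nvol_le (n := n) (by omega) H.hm H.sep H.meas p ha1 (β := (q : ℝ)) (by positivity)
    (by
      have h1 : (q : ℝ) ≤ ((∑ j, a j : ℕ) : ℝ) := by
        have h2 : q ≤ ∑ j, a j := by nlinarith
        exact_mod_cast h2
      exact h1) hz hz1 (q := q * (M * N')) (by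
        have : 0 < M * N' := Nat.mul_pos hM hN
        exact Nat.mul_pos (by omega) this) (by
    intro N hN1 hdvd L f hf
    obtain ⟨k, hk⟩ := hdvd
    have hk1 : 1 ≤ k := by
      rcases Nat.eq_zero_or_pos k with h1 | h1
      · subst h1
        omega
      · exact h1
    obtain ⟨k', rfl⟩ : ∃ k', k = k' + 1 := ⟨k - 1, by omega⟩
    -- (ii)
    have h1 : ∀ j, j ≠ j₀ → ∃ C : ℝ, 0 ≤ C ∧ ∀ χ : Pt B, nq (proj G.y χ) ≤ 1 →
        ‖χ (G.y j ^ (M * N' * (k' + 1)))‖ ^ 2 ≤ C * ∑ l, ‖χ (f l)‖ ^ 2 := by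
      intro j hj
      refine t2_mem_bound G f ?_ 1
      rw [hf]
      have h2 := mono_mem_JI p a (N := N) (m := fun i => if i = j then M * N' * (k' + 1) else 0) (by
        rw [Finset.sum_eq_single j]
        · simp only [ha, if_neg hj, if_true]
          rw [hk]
          apply le_of_eq
          ring
        · intro i _ hi
          simp [hi]
        · intro hi
          exact absurd (Finset.mem_univ j) hi)
      rwa [Finset.prod_eq_single j (fun i _ hi => by simp [hi])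
        (fun hi => absurd (Finset.mem_univ j) hi), if_pos rfl] at h2
    -- (iii)
    obtain ⟨CF, hCF0, hCF⟩ := t2_mem_bound G f (u := (F ^ M) ^ (k' + 1)) (by
      rw [hf, hk]
      exact t2_pow_mem p a hFa k') 1
    -- (iv)
    have h4 : ∀ i, ∃ C : ℝ, 0 ≤ C ∧ ∀ (w : Fin n → ℂ) (Y : ℝ), 0 ≤ Y →
      (∀ j, j ≠ j₀ → ‖w j‖ ≤ Y) → ‖eval w (c i)‖ ≤ C * Y ^ i := fun i =>
      t2_form_bound (c i) (hc i) j₀ (hc0 i)
    choose Cc hCc0 hCc using h4
    choose! Cy hCy0 hCy using h1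
    set C₁ : ℝ := ∑ i ∈ Finset.range (N' + 1), Cc i with hC₁
    have hC₁0 : 0 ≤ C₁ := Finset.sum_nonneg fun i _ => hCc0 i
    obtain ⟨K, hK0, hK⟩ := t2_root N' C₁ hC₁0
    -- the constant
    set E : ℕ := 2 * (q * M * (k' + 1)) with hE
    refine ⟨2 ^ E * (2 ^ E * CF ^ q + K ^ E * (∑ j, |Cy j|) ^ q), 1, one_pos, fun χ hχ => ?_⟩
    have hnq : nq (proj G.y χ) ≤ 1 := by
      have := hχ.1
      rw [one_pow] at this
      exact this.le
    set S : ℝ := ∑ l, ‖χ (f l)‖ ^ 2 with hS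
    have hS0 : 0 ≤ S := Finset.sum_nonneg fun _ _ => by positivity
    -- `Y`
    obtain ⟨Y, hY0, hY1, hY2⟩ : ∃ Y : ℝ, 0 ≤ Y ∧ (∀ j, j ≠ j₀ → ‖proj G.y χ j‖ ≤ Y) ∧
        (Y ^ (M * N' * (k' + 1))) ^ 2 ≤ (∑ j, |Cy j|) * S := by
      by_cases hne : (Finset.univ.erase j₀ : Finset (Fin n)).Nonempty
      · obtain ⟨j, hj, hjmax⟩ := Finset.exists_max_image _ (fun j => ‖proj G.y χ j‖) hne
        refine ⟨‖proj G.y χ j‖, norm_nonneg _, fun i hi =>
          hjmax i (Finset.mem_erase.2 ⟨hi, Finset.mem_univ _⟩), ?_⟩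
        have h5 := hCy j (Finset.ne_of_mem_erase hj) χ hnq
        rw [map_pow, norm_pow] at h5
        refine h5.trans (mul_le_mul_of_nonneg_right ((le_abs_self _).trans ?_) hS0)
        exact Finset.single_le_sum (f := fun j => |Cy j|) (fun _ _ => abs_nonneg _)
          (Finset.mem_univ j)
      · rw [Finset.not_nonempty_iff_eq_empty] at hne
        refine ⟨0, le_rfl, fun j hj => ?_, ?_⟩
        · exact absurd (Finset.mem_erase.2 ⟨hj, Finset.mem_univ _⟩) (by rw [hne]; simp)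
        · have : M * N' * (k' + 1) ≠ 0 := by positivity
          rw [zero_pow this, zero_pow two_ne_zero]
          exact mul_nonneg (Finset.sum_nonneg fun _ _ => abs_nonneg _) hS0
    have h6 : χ F = ∑ i ∈ Finset.range (N' + 1), eval (proj G.y χ) (c i) * χ z ^ (N' - i) := by
      rw [hFdef, map_sum]
      refine Finset.sum_congr rfl fun i _ => ?_
      rw [map_mul, map_pow, bdd_aeval]
    have h7 : ‖χ z‖ ^ N' ≤ ‖χ F‖ + ∑ i ∈ Finset.range N',
        C₁ * Y ^ (i + 1) * ‖χ z‖ ^ (N' - (i + 1)) := by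
      rw [Finset.sum_range_succ'] at h6
      rw [h0, map_one, one_mul, Nat.sub_zero] at h6
      have h8 : χ z ^ N' = χ F - ∑ i ∈ Finset.range N',
          eval (proj G.y χ) (c (i + 1)) * χ z ^ (N' - (i + 1)) := by
        rw [h6]
        ring
      rw [← norm_pow, h8]
      refine (norm_sub_le _ _).trans (add_le_add le_rfl ?_)
      refine (norm_sum_le _ _).trans (Finset.sum_le_sum fun i hi => ?_)
      rw [norm_mul, norm_pow]
      refine mul_le_mul_of_nonneg_right ?_ (by positivity)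
      refine (hCc (i + 1) _ Y hY0 hY1).trans ?_
      refine mul_le_mul_of_nonneg_right ?_ (by positivity)
      exact Finset.single_le_sum (f := Cc) (fun i _ => hCc0 i)
        (Finset.mem_range.2 (by have := Finset.mem_range.1 hi; omega))
    have h9 := hK Y ‖χ z‖ ‖χ F‖ hY0 (norm_nonneg _) (norm_nonneg _) h7
    have h10 : (‖χ z‖ ^ 2) ^ (N : ℝ) = (‖χ z‖ ^ N') ^ E := by
      rw [Real.rpow_natCast, ← pow_mul, ← pow_mul, hk, hE]
      congr 1
      ring
    have h11 : ∀ u v : ℝ, 0 ≤ u → 0 ≤ v → (u + v) ^ E ≤ 2 ^ E * (u ^ E + v ^ E) := by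
      intro u v hu hv
      rcases le_total u v with huv | huv
      · calc (u + v) ^ E ≤ (2 * v) ^ E := by gcongr; linarith
          _ = 2 ^ E * v ^ E := mul_pow _ _ _
          _ ≤ _ := by
              have : 0 ≤ u ^ E := by positivity
              gcongr
              linarith
      · calc (u + v) ^ E ≤ (2 * u) ^ E := by gcongr; linarith
          _ = 2 ^ E * u ^ E := mul_pow _ _ _
          _ ≤ _ := by
              have : 0 ≤ v ^ E := by positivity
              gcongr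
              linarith
    have h12 : (2 * ‖χ F‖) ^ E ≤ 2 ^ E * CF ^ q * S ^ q := by
      have h13 := hCF χ hnq
      rw [map_pow, map_pow, ← pow_mul, norm_pow, ← pow_mul] at h13
      calc (2 * ‖χ F‖) ^ E = 2 ^ E * (‖χ F‖ ^ (M * (k' + 1) * 2)) ^ q := by
            rw [mul_pow, ← pow_mul]
            congr 2
            rw [hE]
            ring
        _ ≤ 2 ^ E * (CF * S) ^ q := by gcongr
        _ = _ := by rw [mul_pow]; ring
    have h14 : (K * Y ^ N') ^ E ≤ K ^ E * (∑ j, |Cy j|) ^ q * S ^ q := by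
      calc (K * Y ^ N') ^ E = K ^ E * ((Y ^ (M * N' * (k' + 1))) ^ 2) ^ q := by
            rw [mul_pow, ← pow_mul, ← pow_mul, ← pow_mul]
            congr 2
            rw [hE]
            ring
        _ ≤ K ^ E * ((∑ j, |Cy j|) * S) ^ q := by gcongr
        _ = _ := by rw [mul_pow]; ring
    rw [h10, Real.rpow_natCast]
    calc (‖χ z‖ ^ N') ^ E ≤ (2 * ‖χ F‖ + K * Y ^ N') ^ E := by gcongr
      _ ≤ 2 ^ E * ((2 * ‖χ F‖) ^ E + (K * Y ^ N') ^ E) := h11 _ _ (by positivity) (by positivity)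
      _ ≤ 2 ^ E * (2 ^ E * CF ^ q * S ^ q + K ^ E * (∑ j, |Cy j|) ^ q * S ^ q) := by gcongr
      _ = _ := by ring)
  refine lt_of_le_of_lt key ?_
  have hn0 : (0 : ℝ) < (n : ℝ) - 1 := by
    have : (2 : ℝ) ≤ n := by exact_mod_cast hn
    linarith
  rw [ENNReal.ofReal_lt_ofReal_iff (by positivity), hprod]
  have hq1 : (0 : ℝ) < (q : ℝ) - 1 := by
    have : (2 : ℝ) ≤ q := by
      have : 2 ≤ q := by omega
      exact_mod_cast this
    linarith
  have hq0 : (0 : ℝ) < q := by linarith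
  have h15 : (((∑ j, a j : ℕ) : ℝ) - q) = ((n : ℝ) - 1) * q - 1 := by
    have : ((∑ j, a j : ℕ) : ℝ) + 1 = n * q := by exact_mod_cast hsum
    linarith
  rw [h15, div_lt_iff₀ (by positivity)]
  have := t2_num hn (q := q) (by omega)
  linarith

end Pool.Agent.Odp3
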