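import Pool.Agent.Odp3.Eq.GT
import Pool.Agent.Odp3.Pt.Red

/-!
# Auxiliary algebra for T3
-/

open scoped ContDiff Topology ENNReal NNReal WithZero
open Set MeasureTheory Filter MvPolynomial Pool.Agent.ODP

namespace Pool.Agent.Odp3

/-! ### Integrality over the last coordinates -/

/-- If `z` is integral over `ℂ[y_0, …, y_n]` and a form in `y` which contains a power of `y_0`
vanishes, then `z` is integral over `ℂ[y_1, …, y_n]`. -/
theorem t3_integral {R : Type} [CommRing R] [Algebra ℂ R] {n' : ℕ} (y : Fin (n' + 1) → R) (z : R)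
    {N : ℕ} {c : MvPolynomial (Fin (n' + 1)) ℂ} (hc : c.IsHomogeneous N)
    (hcoef : c.coeff (Finsupp.single 0 N) ≠ 0) (h0 : aeval y c = 0)
    {P : Polynomial (MvPolynomial (Fin (n' + 1)) ℂ)} (hP : P.Monic)
    (hPz : P.eval₂ (aeval y : MvPolynomial (Fin (n' + 1)) ℂ →ₐ[ℂ] R).toRingHom z = 0) :
    ∃ Q : Polynomial (MvPolynomial (Fin n') ℂ), Q.Monic ∧
      Q.eval₂ (aeval fun i => y i.succ : MvPolynomial (Fin n') ℂ →ₐ[ℂ] R).toRingHom z = 0 := by
  classical
  by_cases hR : Nontrivial R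
  swap
  · rw [not_nontrivial_iff_subsingleton] at hR
    exact ⟨1, Polynomial.monic_one, Subsingleton.elim _ _⟩
  let φ : MvPolynomial (Fin n') ℂ →+* R :=
    (aeval fun i => y i.succ : MvPolynomial (Fin n') ℂ →ₐ[ℂ] R).toRingHom
  let _ : Algebra (MvPolynomial (Fin n') ℂ) R := φ.toAlgebra
  have halg : algebraMap (MvPolynomial (Fin n') ℂ) R = φ := rfl
  -- `y_0` is integral
  have hev : ∀ f : MvPolynomial (Fin (n' + 1)) ℂ,
      (finSuccEquiv ℂ n' f).eval₂ φ (y 0) = aeval y f := by
    intro f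
    have h := MvPolynomial.ringHom_ext
      (f := (Polynomial.eval₂RingHom φ (y 0)).comp (finSuccEquiv ℂ n').toRingEquiv.toRingHom)
      (g := (aeval y : MvPolynomial (Fin (n' + 1)) ℂ →ₐ[ℂ] R).toRingHom) ?_ ?_
    · exact congrArg (fun g : MvPolynomial (Fin (n' + 1)) ℂ →+* R => g f) h
    · intro a
      simp [φ, finSuccEquiv_apply]
    · intro i
      refine Fin.cases ?_ (fun i => ?_) i
      · simp [finSuccEquiv_X_zero]
      · simp [φ, finSuccEquiv_X_succ]
  have hint0 : IsIntegral (MvPolynomial (Fin n') ℂ) (y 0) := by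
    set q := finSuccEquiv ℂ n' c with hq
    have hdeg : q.natDegree ≤ N := by
      rw [Polynomial.natDegree_le_iff_coeff_eq_zero]
      intro k hk
      ext m
      rw [finSuccEquiv_coeff_coeff, coeff_zero]
      refine hc.coeff_eq_zero ?_
      rw [Finsupp.degree_eq_sum, Fin.sum_univ_succ]
      simp only [Finsupp.cons_zero, Finsupp.cons_succ]
      omega
    have hlead : q.coeff N = C (c.coeff (Finsupp.single 0 N)) := by
      ext m
      rw [finSuccEquiv_coeff_coeff, coeff_C]
      split_ifs with hm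
      · subst hm
        congr 1
        ext i
        refine Fin.cases ?_ (fun i => ?_) i
        · simp
        · simp
      · refine hc.coeff_eq_zero ?_
        rw [Finsupp.degree_eq_sum, Fin.sum_univ_succ]
        simp only [Finsupp.cons_zero, Finsupp.cons_succ]
        intro h
        apply hm
        have h1 : ∑ i, m i = 0 := by omega
        ext i
        have := Finset.sum_eq_zero_iff.1 h1 i (Finset.mem_univ i)
        simpa using this.symm
    refine ⟨Polynomial.C (C (c.coeff (Finsupp.single 0 N))⁻¹) * q, ?_, ?_⟩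
    · refine Polynomial.monic_of_natDegree_le_of_coeff_eq_one N ?_ ?_
      · exact (Polynomial.natDegree_C_mul_le _ _).trans hdeg
      · rw [Polynomial.coeff_C_mul, hlead, ← C_mul, inv_mul_cancel₀ hcoef, C_1]
    · rw [Polynomial.eval₂_mul, halg, hq, hev, h0, mul_zero]
  -- all the `y_i` are integral
  have hint : ∀ i, y i ∈ integralClosure (MvPolynomial (Fin n') ℂ) R := by
    intro i
    refine Fin.cases hint0 (fun i => ?_) i
    have : y i.succ = algebraMap (MvPolynomial (Fin n') ℂ) R (X i) := by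
      rw [halg]
      simp [φ]
    rw [this]
    exact isIntegral_algebraMap
  have hint2 : ∀ f : MvPolynomial (Fin (n' + 1)) ℂ,
      aeval y f ∈ integralClosure (MvPolynomial (Fin n') ℂ) R := by
    intro f
    induction f using MvPolynomial.induction_on with
    | C a =>
      have : aeval y (C a : MvPolynomial (Fin (n' + 1)) ℂ) =
          algebraMap (MvPolynomial (Fin n') ℂ) R (C a) := by
        rw [halg]
        simp [φ]
      rw [this]
      exact isIntegral_algebraMap
    | add p q hp hq =>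
      rw [map_add]
      exact add_mem hp hq
    | mul_X p i hp =>
      rw [map_mul, aeval_X]
      exact mul_mem hp (hint i)
  -- `z` is integral
  have hz : IsIntegral (integralClosure (MvPolynomial (Fin n') ℂ) R) z := by
    set P₁ := P.map (aeval y : MvPolynomial (Fin (n' + 1)) ℂ →ₐ[ℂ] R).toRingHom with hP₁
    have hmon : P₁.Monic := hP.map _
    have hl : P₁ ∈ Polynomial.lifts
        (algebraMap (integralClosure (MvPolynomial (Fin n') ℂ) R) R) := by
      rw [Polynomial.lifts_iff_coeff_lifts]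
      intro k
      rw [hP₁, Polynomial.coeff_map]
      exact ⟨⟨_, hint2 (P.coeff k)⟩, rfl⟩
    obtain ⟨q, hq1, -, hq2⟩ := Polynomial.lifts_and_degree_eq_and_monic hl hmon
    refine ⟨q, hq2, ?_⟩
    rw [← Polynomial.eval_map, hq1, hP₁, Polynomial.eval_map]
    exact hPz
  obtain ⟨Q, hQ, hQz⟩ := isIntegral_trans (R := MvPolynomial (Fin n') ℂ)
    (A := integralClosure (MvPolynomial (Fin n') ℂ) R) z hz
  exact ⟨Q, hQ, hQz⟩


/-- If `z` is integral over `ℂ[y_0, …, y_n]` and a form in `y` which contains a power of `y_0`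
kills `z`, then `z` is integral over `ℂ[y_1, …, y_n]`. -/
theorem t3_alg {R : Type} [CommRing R] [Algebra ℂ R] {n' : ℕ} (Y : Fin (n' + 1) → R) (Z : R)
    {N : ℕ} {c : MvPolynomial (Fin (n' + 1)) ℂ} (hc : c.IsHomogeneous N)
    (hcoef : c.coeff (Finsupp.single 0 N) ≠ 0) (hcZ : aeval Y c * Z = 0)
    {P : Polynomial (MvPolynomial (Fin (n' + 1)) ℂ)} (hP : P.Monic)
    (hPZ : P.eval₂ (aeval Y : MvPolynomial (Fin (n' + 1)) ℂ →ₐ[ℂ] R).toRingHom Z = 0) :
    ∃ Q : Polynomial (MvPolynomial (Fin n') ℂ), Q.Monic ∧ 1 ≤ Q.natDegree ∧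
      Q.eval₂ (aeval fun i => Y i.succ : MvPolynomial (Fin n') ℂ →ₐ[ℂ] R).toRingHom Z = 0 := by
  let J : Ideal R := Ideal.span {aeval Y c}
  let π : R →ₐ[ℂ] R ⧸ J := Ideal.Quotient.mkₐ ℂ J
  have h0 : aeval (fun i => π (Y i)) c = 0 := by
    rw [← MvPolynomial.comp_aeval_apply]
    exact Ideal.Quotient.eq_zero_iff_mem.2 (Ideal.subset_span rfl)
  have hP2 : P.eval₂
      (aeval (fun i => π (Y i)) : MvPolynomial (Fin (n' + 1)) ℂ →ₐ[ℂ] R ⧸ J).toRingHom
      (π Z) = 0 := by
    have h1 : (aeval (fun i => π (Y i)) : MvPolynomial (Fin (n' + 1)) ℂ →ₐ[ℂ] R ⧸ J).toRingHom =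
        (π : R →+* R ⧸ J).comp (aeval Y : MvPolynomial (Fin (n' + 1)) ℂ →ₐ[ℂ] R).toRingHom := by
      refine RingHom.ext fun f => ?_
      exact (MvPolynomial.comp_aeval_apply Y π f).symm
    rw [h1]
    have h2 := Polynomial.hom_eval₂ P
      (aeval Y : MvPolynomial (Fin (n' + 1)) ℂ →ₐ[ℂ] R).toRingHom (π : R →+* R ⧸ J) Z
    rw [hPZ, map_zero] at h2
    exact h2.symm
  obtain ⟨Q, hQ, hQz⟩ := t3_integral (fun i => π (Y i)) (π Z) hc hcoef h0 hP hP2
  -- back to R
  have hQZ : Z * Q.eval₂ (aeval (fun i => Y i.succ) :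
      MvPolynomial (Fin n') ℂ →ₐ[ℂ] R).toRingHom Z = 0 := by
    have h1 : (aeval (fun i => π (Y (Fin.succ i))) :
        MvPolynomial (Fin n') ℂ →ₐ[ℂ] R ⧸ J).toRingHom =
        (π : R →+* R ⧸ J).comp (aeval (fun i => Y i.succ) :
          MvPolynomial (Fin n') ℂ →ₐ[ℂ] R).toRingHom := by
      refine RingHom.ext fun f => ?_
      exact (MvPolynomial.comp_aeval_apply (fun i => Y (Fin.succ i)) π f).symm
    have h2 := Polynomial.hom_eval₂ Q
      (aeval (fun i => Y i.succ) : MvPolynomial (Fin n') ℂ →ₐ[ℂ] R).toRingHom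
      (π : R →+* R ⧸ J) Z
    rw [← h1] at h2
    have h3 : π (Q.eval₂ (aeval (fun i => Y i.succ) :
      MvPolynomial (Fin n') ℂ →ₐ[ℂ] R).toRingHom Z) = 0 := h2.trans hQz
    have h4 := Ideal.Quotient.eq_zero_iff_mem.1 h3
    rw [Ideal.mem_span_singleton'] at h4
    obtain ⟨u, hu⟩ := h4
    rw [← hu, mul_left_comm, mul_comm Z, hcZ, mul_zero]
  refine ⟨Polynomial.X * Q, Polynomial.monic_X.mul hQ, ?_, ?_⟩
  · rw [Polynomial.natDegree_X_mul hQ.ne_zero]
    omega
  · rw [Polynomial.eval₂_mul, Polynomial.eval₂_X]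
    exact hQZ

/-! ### The equation of integral dependence, reduced modulo the maximal ideal -/

section

variable {n d : ℕ} {B : Type} [CommRing B] [IsDomain B] [Algebra ℂ B] {G : Germ n d B} {x : Pt B}
  {h : B} {s κ : ℝ} {sg : B} {m : ℕ} {ρ₁ : ℝ}

/-- the constant part of an element -/
theorem t3_const (b : B) : b - algebraMap ℂ B (x b) ∈ RingHom.ker x := by
  rw [RingHom.mem_ker, map_sub, AlgHom.commutes]
  simp

theorem t3_aeval_mem {y : Fin n → B} (hy : ∀ i, x (y i) = 0) {c : MvPolynomial (Fin n) ℂ} {i : ℕ}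
    (hc : c.IsHomogeneous i) : aeval y c ∈ RingHom.ker x ^ i := by
  rw [aeval_def, eval₂_eq']
  refine Ideal.sum_mem _ fun m hm => Ideal.mul_mem_left _ _ ?_
  have hdeg : ∑ j, m j = i := by
    rw [← Finsupp.degree_eq_sum]
    by_contra hne
    exact (mem_support_iff.1 hm) (hc.coeff_eq_zero hne)
  rw [← hdeg, ← Finset.prod_pow_eq_pow_sum]
  exact Ideal.prod_mem_prod fun j _ => Ideal.pow_mem_pow (hy j) _

/-- elements of `(y)^i` modulo `m^(i+1)` are forms of degree `i` -/
theorem t3_form {y : Fin n → B} (hy : ∀ i, x (y i) = 0) (i : ℕ) {b : B}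
    (hb : b ∈ Ideal.span (Set.range y) ^ i) : ∃ c : MvPolynomial (Fin n) ℂ, c.IsHomogeneous i ∧
      b - aeval y c ∈ RingHom.ker x ^ (i + 1) := by
  have hspan : Ideal.span (Set.range y) ≤ RingHom.ker x := by
    rw [Ideal.span_le]
    rintro _ ⟨i, rfl⟩
    exact hy i
  induction i generalizing b with
  | zero =>
    refine ⟨C (x b), isHomogeneous_C _ _, ?_⟩
    rw [zero_add, pow_one, aeval_C]
    exact t3_const b
  | succ i ih =>
    rw [pow_succ] at hb
    refine Submodule.mul_induction_on hb (fun b₁ h1 b₂ h2 => ?_) (fun b₁ b₂ h1 h2 => ?_)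
    · obtain ⟨c, hc, hc2⟩ := ih h1
      induction h2 using Submodule.span_induction with
      | mem t ht =>
        obtain ⟨l, rfl⟩ := ht
        refine ⟨c * X l, hc.mul (isHomogeneous_X _ _), ?_⟩
        rw [map_mul, aeval_X, ← sub_mul, pow_succ]
        exact Ideal.mul_mem_mul hc2 (hy l)
      | zero => exact ⟨0, isHomogeneous_zero _ _ _, by simp⟩
      | add u v _ _ hu hv =>
        obtain ⟨cu, hu1, hu2⟩ := hu
        obtain ⟨cv, hv1, hv2⟩ := hv
        refine ⟨cu + cv, hu1.add hv1, ?_⟩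
        have : b₁ * (u + v) - aeval y (cu + cv) =
            (b₁ * u - aeval y cu) + (b₁ * v - aeval y cv) := by
          rw [map_add]; ring
        rw [this]
        exact Ideal.add_mem _ hu2 hv2
      | smul a u hu' hu =>
        obtain ⟨cu, hu1, hu2⟩ := hu
        refine ⟨C (x a) * cu, by simpa using (isHomogeneous_C _ (x a)).mul hu1, ?_⟩
        have h3 : b₁ * (a • u) - aeval y (C (x a) * cu) =
            algebraMap ℂ B (x a) * (b₁ * u - aeval y cu) +
              (b₁ * u) * (a - algebraMap ℂ B (x a)) := by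
          rw [map_mul, aeval_C, smul_eq_mul]; ring
        rw [h3]
        refine Ideal.add_mem _ (Ideal.mul_mem_left _ _ hu2) ?_
        rw [pow_succ]
        refine Ideal.mul_mem_mul ?_ (t3_const a)
        rw [pow_succ]
        exact Ideal.mul_mem_mul (Ideal.pow_right_mono hspan i h1) (hspan hu')
    · obtain ⟨c₁, h1, h1'⟩ := h1
      obtain ⟨c₂, h2, h2'⟩ := h2
      refine ⟨c₁ + c₂, h1.add h2, ?_⟩
      have : b₁ + b₂ - aeval y (c₁ + c₂) = (b₁ - aeval y c₁) + (b₂ - aeval y c₂) := by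
        rw [map_add]; ring
      rw [this]
      exact Ideal.add_mem _ h1' h2'

/-- The equation of `z`. -/
theorem t3_eqn (H : Std G x h s κ sg m ρ₁) {z : B} (hz : x z = 0) :
    ∃ (L : ℕ) (c : ℕ → MvPolynomial (Fin n) ℂ), (∀ i, (c i).IsHomogeneous i) ∧ c 0 = 1 ∧
      ∑ i ∈ Finset.range (L + 1), aeval G.y (c i) * z ^ (L - i) ∈ RingHom.ker x ^ (L + 1) := by
  classical
  have hy : ∀ i, x (G.y i) = 0 := fun i => congrFun H.sep.x_y i
  have := G.red_noeth
  by_cases hz0 : z = 0
  · refine ⟨1, fun i => if i = 0 then 1 else 0, fun i => ?_, rfl, ?_⟩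
    · show (if i = 0 then (1 : MvPolynomial (Fin n) ℂ) else 0).IsHomogeneous i
      split_ifs with hi
      · subst hi; exact isHomogeneous_one _ _
      · exact isHomogeneous_zero _ _ _
    · simp [hz0]
  obtain ⟨N, t, ht, hta⟩ := red_clear (RingHom.ker x) H.red
  set J := Ideal.span (Set.range G.y) with hJ
  let M : Submodule B B := (RingHom.ker x ^ N : Ideal B)
  have hMf : Module.Finite B M := Module.Finite.of_fg (IsNoetherian.noetherian _)
  let f : Module.End B M := algebraMap B (Module.End B M) (t * z)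
  have hf : LinearMap.range f ≤ J • (⊤ : Submodule B M) := by
    rintro _ ⟨u, rfl⟩
    have h1 : t * (z * (u : B)) ∈ J * RingHom.ker x ^ N := by
      refine hta _ ?_
      rw [pow_succ']
      exact Ideal.mul_mem_mul hz u.2
    have h2 : (f u : B) = t * (z * (u : B)) := by
      show (t * z) • (u : B) = _
      rw [smul_eq_mul, mul_assoc]
    have h3 : Submodule.map M.subtype (J • (⊤ : Submodule B M)) = J * RingHom.ker x ^ N := by
      rw [Submodule.map_smul'', Submodule.map_top, Submodule.range_subtype]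
      rfl
    have h4 : (M.subtype (f u)) ∈ Submodule.map M.subtype (J • (⊤ : Submodule B M)) := by
      rw [h3]
      show (f u : B) ∈ _
      rw [h2]
      exact h1
    obtain ⟨v, hv, hv2⟩ := h4
    have : v = f u := Subtype.ext hv2
    rw [← this]
    exact hv
  obtain ⟨p, hp, -, hpc, hp0⟩ :=
    LinearMap.exists_monic_and_natDegree_eq_and_coeff_mem_pow_and_aeval_eq_zero B f J hf
  have hpz : p.eval (t * z) = 0 := by
    have h1 : algebraMap B (Module.End B M) (p.eval (t * z)) = 0 := by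
      rw [← hp0]
      show _ = Polynomial.aeval (algebraMap B (Module.End B M) (t * z)) p
      rw [Polynomial.aeval_algebraMap_apply, Polynomial.coe_aeval_eq_eval]
    have h2 : (p.eval (t * z)) * z ^ N = 0 := by
      have h3 := congrArg (fun g : Module.End B M => (g ⟨z ^ N, Ideal.pow_mem_pow hz N⟩ : B)) h1
      simpa [Module.algebraMap_end_apply] using h3
    rcases mul_eq_zero.1 h2 with h | h
    · exact h
    · exact absurd (eq_zero_of_pow_eq_zero h) hz0
  set L := p.natDegree with hL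
  have hxt : x t ≠ 0 := ht
  -- the forms
  have h5 : ∀ k, ∃ c : MvPolynomial (Fin n) ℂ, (k = L → c = 1) ∧ c.IsHomogeneous (L - k) ∧
      p.coeff k - aeval G.y c ∈ RingHom.ker x ^ (L - k + 1) := by
    intro k
    by_cases hk : k = L
    · refine ⟨1, fun _ => rfl, ?_, ?_⟩
      · rw [hk, Nat.sub_self]; exact isHomogeneous_one _ _
      · rw [hk, map_one, hL, hp.coeff_natDegree, sub_self]
        exact Ideal.zero_mem _
    · obtain ⟨c, hc, hc2⟩ := t3_form hy (L - k) (hpc k)
      exact ⟨c, fun h => absurd h hk, hc, hc2⟩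
  choose c' hc1 hch hcd using h5
  have h6 : ∑ k ∈ Finset.range (L + 1),
      aeval G.y (c' k) * (algebraMap ℂ B (x t) ^ k * z ^ k) ∈ RingHom.ker x ^ (L + 1) := by
    have h7 : ∑ k ∈ Finset.range (L + 1),
        aeval G.y (c' k) * (algebraMap ℂ B (x t) ^ k * z ^ k) = -∑ k ∈ Finset.range (L + 1),
          ((p.coeff k - aeval G.y (c' k)) * (t ^ k * z ^ k) +
            aeval G.y (c' k) * ((t ^ k - algebraMap ℂ B (x t) ^ k) * z ^ k)) := by
      have h8 := hpz
      rw [Polynomial.eval_eq_sum_range, ← hL] at h8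
      rw [eq_neg_iff_add_eq_zero, ← Finset.sum_add_distrib, ← h8]
      refine Finset.sum_congr rfl fun k _ => ?_
      rw [mul_pow]
      ring
    rw [h7]
    refine Ideal.neg_mem_iff _ |>.2 (Ideal.sum_mem _ fun k hk => ?_)
    have hk' : k ≤ L := Nat.lt_succ_iff.1 (Finset.mem_range.1 hk)
    refine Ideal.add_mem _ ?_ ?_
    · have h8 : L + 1 = (L - k + 1) + k := by omega
      rw [h8, pow_add]
      exact Ideal.mul_mem_mul (hcd k) (Ideal.mul_mem_left _ _ (Ideal.pow_mem_pow hz k))
    · have h8 : L + 1 = (L - k) + (1 + k) := by omega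
      rw [h8, pow_add, pow_add, pow_one]
      refine Ideal.mul_mem_mul (t3_aeval_mem hy (hch k))
        (Ideal.mul_mem_mul ?_ (Ideal.pow_mem_pow hz k))
      rw [RingHom.mem_ker, map_sub, map_pow, map_pow, AlgHom.commutes]
      simp
  refine ⟨L, fun i => if i ≤ L then C (x t ^ (L - i) * (x t ^ L)⁻¹) * c' (L - i) else 0,
    fun i => ?_, ?_, ?_⟩
  · show (if i ≤ L then C (x t ^ (L - i) * (x t ^ L)⁻¹) * c' (L - i) else
      (0 : MvPolynomial (Fin n) ℂ)).IsHomogeneous i
    split_ifs with hi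
    · have h9 := (isHomogeneous_C (Fin n) (x t ^ (L - i) * (x t ^ L)⁻¹)).mul (hch (L - i))
      rwa [zero_add, Nat.sub_sub_self hi] at h9
    · exact isHomogeneous_zero _ _ _
  · show (if 0 ≤ L then C (x t ^ (L - 0) * (x t ^ L)⁻¹) * c' (L - 0) else
      (0 : MvPolynomial (Fin n) ℂ)) = 1
    rw [if_pos (Nat.zero_le _), Nat.sub_zero, mul_inv_cancel₀ (pow_ne_zero _ hxt), hc1 L rfl]
    simp
  · have h9 : ∑ i ∈ Finset.range (L + 1),
        aeval G.y (if i ≤ L then C (x t ^ (L - i) * (x t ^ L)⁻¹) * c' (L - i) else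
          (0 : MvPolynomial (Fin n) ℂ)) * z ^ (L - i) =
        algebraMap ℂ B (x t ^ L)⁻¹ * ∑ k ∈ Finset.range (L + 1),
          aeval G.y (c' k) * (algebraMap ℂ B (x t) ^ k * z ^ k) := by
      rw [← Finset.sum_range_reflect, Finset.mul_sum]
      refine Finset.sum_congr rfl fun k hk => ?_
      have hk' : k ≤ L := Nat.lt_succ_iff.1 (Finset.mem_range.1 hk)
      have h10 : L + 1 - 1 - k = L - k := by omega
      rw [h10, if_pos (Nat.sub_le _ _), Nat.sub_sub_self hk', map_mul, aeval_C, map_mul, map_pow]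
      ring
    show ∑ i ∈ Finset.range (L + 1),
        aeval G.y (if i ≤ L then C (x t ^ (L - i) * (x t ^ L)⁻¹) * c' (L - i) else
          (0 : MvPolynomial (Fin n) ℂ)) * z ^ (L - i) ∈ _
    rw [h9]
    exact Ideal.mul_mem_left _ _ h6

end

end Pool.Agent.Odp3
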