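import Pool.Agent.Odp3.Eq.T7Big
import Pool.Agent.Odp3.Eq.LemZ

/-!
# Two sheets: generators of the maximal ideal and the quadratic equation
-/

open scoped ContDiff Topology ENNReal NNReal WithZero
open Set MeasureTheory Filter MvPolynomial Pool.Agent.ODP

namespace Pool.Agent.Odp3

variable {n d : ℕ} {B : Type} [CommRing B] [Algebra ℂ B] {G : Germ n d B} {x : Pt B} {sg : B}
  {m : ℕ}

/-- approximation of `(f₁ - f₂) (g₁ - g₂) / 4` -/
noncomputable def t7gam (G : Germ n d B) (sg' f g : B) : MvPolynomial (Fin n) ℂ :=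
  C (1 / 4) * (2 * G.tr (f * g * sg') - G.tr (f * sg') * G.tr (g * sg'))

theorem t7o_gam (hm : 1 ≤ m) (hsg : IsSep G x m sg) (he : IsNum G sg 2) {K : ℕ} (hK : 1 ≤ K)
    {sg' : B} (hsg' : IsSep G x K sg') (f g : B) :
    T7O G sg (fun χ₁ χ₂ => eval (proj G.y χ₁) (t7gam G sg' f g) -
      (χ₁ f - χ₂ f) * (χ₁ g - χ₂ g) / 4) K := by
  have h1 := t7o_tr hm hsg he hK hsg' (f * g)
  have h2 := t7o_tr hm hsg he hK hsg' f
  have h3 := t7o_tr hm hsg he hK hsg' g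
  have h4 := h2.mul (t7o_eval0 (G.tr (g * sg')))
  have h5 := ((t7o_bdd (G := G) (sg := sg) f).add (t7o_bdd f).symm).mul h3
  rw [add_zero] at h4
  rw [zero_add] at h5
  refine ((((h1.smul 2).sub h4).sub h5).smul (1 / 4)).congr fun ρ χ₁ χ₂ _ => ?_
  simp only [t7gam, map_mul, map_sub, eval_C, map_ofNat]
  ring

theorem t7o_gam_ord (hm : 1 ≤ m) (hsg : IsSep G x m sg) (he : IsNum G sg 2) {K : ℕ} (hK : 1 ≤ K)
    {sg' : B} (hsg' : IsSep G x K sg') {f g : B} {k l : ℕ}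
    (hf : T7O G sg (fun χ₁ _ => χ₁ f) k) (hg : T7O G sg (fun χ₁ _ => χ₁ g) l) (hkl : k + l ≤ K) :
    t7gam G sg' f g ∈ idealOfVars (Fin n) ℂ ^ (k + l) := by
  refine t7_mem_of he ?_
  have h1 := (t7o_gam hm hsg he hK hsg' f g).mono hkl
  have h2 := ((hf.sub hf.symm).mul (hg.sub hg.symm)).smul (1 / 4)
  refine (h1.add h2).congr fun ρ χ₁ χ₂ _ => ?_
  ring

/-- one step of the division -/
theorem t7_step (hm : 1 ≤ m) (hsg : IsSep G x m sg) (he : IsNum G sg 2) {K : ℕ}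
    {sg' : B} (hsg' : IsSep G x K sg') {z g : B} {k : ℕ} (hk : 1 ≤ k) (hK : 2 * k + 4 ≤ K)
    (hz : T7O G sg (fun χ₁ χ₂ => χ₁ z + χ₂ z) K) (hz1 : T7O G sg (fun χ₁ _ => χ₁ z) 1)
    (hsq : Squarefree (homogeneousComponent 2 (t7gam G sg' z z)))
    (hg : T7O G sg (fun χ₁ _ => χ₁ g) k) :
    ∃ A c : MvPolynomial (Fin n) ℂ, A ∈ idealOfVars (Fin n) ℂ ^ k ∧
      T7O G sg (fun χ₁ _ => χ₁ (g - aeval G.y A - aeval G.y c * z)) (k + 1) := by
  have hK1 : 1 ≤ K := by omega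
  have b1 := t7o_gam hm hsg he hK1 hsg' g z
  have b2 := t7o_gam hm hsg he hK1 hsg' g g
  have b3 := t7o_gam hm hsg he hK1 hsg' z z
  have o1 : t7gam G sg' g z ∈ idealOfVars (Fin n) ℂ ^ (k + 1) :=
    t7o_gam_ord hm hsg he hK1 hsg' hg hz1 (by omega)
  have o2 : t7gam G sg' g g ∈ idealOfVars (Fin n) ℂ ^ (2 * k) := by
    have := t7o_gam_ord hm hsg he hK1 hsg' hg hg (by omega)
    rwa [← two_mul] at this
  have o3 : t7gam G sg' z z ∈ idealOfVars (Fin n) ℂ ^ 2 :=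
    t7o_gam_ord hm hsg he hK1 hsg' hz1 hz1 (by omega)
  -- the product formula
  have hprod : t7gam G sg' g z ^ 2 - t7gam G sg' g g * t7gam G sg' z z ∈
      idealOfVars (Fin n) ℂ ^ (2 * k + 3) := by
    refine Ideal.pow_le_pow_right (by omega : 2 * k + 3 ≤ K) (t7_mem_of he ?_)
    have e0 : T7O G sg (fun χ₁ χ₂ => (χ₁ g - χ₂ g) * (χ₁ z - χ₂ z) / 4) 0 := by
      have h2 := (((t7o_bdd (G := G) (sg := sg) g).sub (t7o_bdd g).symm).mul
        ((t7o_bdd z).sub (t7o_bdd z).symm)).smul (1 / 4)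
      exact h2.congr fun ρ χ₁ χ₂ _ => by ring
    have e1 : T7O G sg (fun χ₁ χ₂ => (χ₁ g - χ₂ g) * (χ₁ g - χ₂ g) / 4) 0 := by
      have h2 := (((t7o_bdd (G := G) (sg := sg) g).sub (t7o_bdd g).symm).mul
        ((t7o_bdd g).sub (t7o_bdd g).symm)).smul (1 / 4)
      exact h2.congr fun ρ χ₁ χ₂ _ => by ring
    have c1 := b1.mul ((t7o_eval0 (G := G) (sg := sg) (t7gam G sg' g z)).add e0)
    have c2 := b2.mul (t7o_eval0 (G := G) (sg := sg) (t7gam G sg' z z))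
    have c3 := b3.mul e1
    rw [add_zero] at c1 c2 c3
    refine ((c1.sub c2).sub c3).congr fun ρ χ₁ χ₂ _ => ?_
    simp only [map_sub, map_mul, map_pow]
    ring
  obtain ⟨c, hc, hdiv⟩ := t7_divide hk o1 o2 o3 hprod hsq
  have hz0 : homogeneousComponent 2 (t7gam G sg' z z) ≠ 0 := hsq.ne_zero
  have o3' : t7gam G sg' z z ∉ idealOfVars (Fin n) ℂ ^ (2 + 1) := fun h => by
    refine t7_hc_not_mem hz0 ?_
    have h1 := Ideal.sub_mem _ h (t7_sub_hc_mem o3)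
    rwa [sub_sub_cancel] at h1
  have htr := t7o_tr hm hsg he hK1 hsg' g
  have hA : C (1 / 2) * G.tr (g * sg') ∈ idealOfVars (Fin n) ℂ ^ k := by
    refine Ideal.mul_mem_left _ _ (t7_mem_of he ?_)
    exact ((htr.mono (by omega : k ≤ K)).add (hg.add hg.symm)).congr fun ρ χ₁ χ₂ _ => by ring
  refine ⟨C (1 / 2) * G.tr (g * sg'), c, hA, ?_⟩
  set g' := g - aeval G.y (C (1 / 2) * G.tr (g * sg')) - aeval G.y c * z with hg'
  have hval : ∀ ρ χ₁ χ₂, T7Pair G sg ρ χ₁ χ₂ →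
      χ₁ g' = χ₁ g - eval (proj G.y χ₁) (G.tr (g * sg')) / 2 - eval (proj G.y χ₁) c * χ₁ z ∧
      χ₂ g' = χ₂ g - eval (proj G.y χ₁) (G.tr (g * sg')) / 2 - eval (proj G.y χ₁) c * χ₂ z := by
    intro ρ χ₁ χ₂ hp
    constructor
    · simp only [hg', map_sub, map_mul, bdd_aeval, eval_C]
      ring
    · simp only [hg', map_sub, map_mul, bdd_aeval, eval_C, hp.pr]
      ring
  -- the sum
  have hsum : T7O G sg (fun χ₁ χ₂ => χ₁ g' + χ₂ g') (k + 1) := by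
    have h2 := (t7o_eval0 (G := G) (sg := sg) c).mul hz
    rw [zero_add] at h2
    have h3 := ((htr.smul (-1)).sub h2).mono (by omega : k + 1 ≤ K)
    refine h3.congr fun ρ χ₁ χ₂ hp => ?_
    rw [(hval ρ χ₁ χ₂ hp).1, (hval ρ χ₁ χ₂ hp).2]
    ring
  -- the difference
  have hdz : T7O G sg (fun χ₁ χ₂ => (χ₁ g' - χ₂ g') * (χ₁ z - χ₂ z) / 4) (k + 2) := by
    have h1 := t7o_eval (G := G) (sg := sg) hdiv
    have h2 := (t7o_eval0 (G := G) (sg := sg) c).mul b3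
    rw [zero_add] at h2
    have h3 := (h1.sub (b1.mono (by omega : k + 2 ≤ K))).add (h2.mono (by omega : k + 2 ≤ K))
    refine h3.congr fun ρ χ₁ χ₂ hp => ?_
    rw [(hval ρ χ₁ χ₂ hp).1, (hval ρ χ₁ χ₂ hp).2, map_sub, map_mul]
    ring
  have b4 := t7o_gam hm hsg he hK1 hsg' g' g'
  have o4 : t7gam G sg' g' g' ∈ idealOfVars (Fin n) ℂ ^ (2 * (k + 1)) := by
    refine t7_ord_mul o3' (t7_mem_of he ?_)
    have h1 := (hdz.mul hdz).mono (by omega : 2 * (k + 1) + 2 ≤ (k + 2) + (k + 2))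
    have e1 : T7O G sg (fun χ₁ χ₂ => (χ₁ g' - χ₂ g') * (χ₁ g' - χ₂ g') / 4) 0 := by
      have h2 := (((t7o_bdd (G := G) (sg := sg) g').sub (t7o_bdd g').symm).mul
        ((t7o_bdd g').sub (t7o_bdd g').symm)).smul (1 / 4)
      exact h2.congr fun ρ χ₁ χ₂ _ => by ring
    have c1 := b4.mul (t7o_eval0 (G := G) (sg := sg) (t7gam G sg' z z))
    have c2 := b3.mul e1
    rw [add_zero] at c1 c2
    have h3 := (c1.add c2).mono (by omega : 2 * (k + 1) + 2 ≤ K)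
    refine (h1.add h3).congr fun ρ χ₁ χ₂ hp => ?_
    rw [map_mul]
    ring
  have hdiff : T7O G sg (fun χ₁ χ₂ => χ₁ g' - χ₂ g') (k + 1) := by
    refine T7O.of_sq ?_
    have h1 := ((t7o_eval (G := G) (sg := sg) o4).sub
      (b4.mono (by omega : 2 * (k + 1) ≤ K))).smul 4
    exact h1.congr fun ρ χ₁ χ₂ _ => by ring
  exact ((hsum.add hdiff).smul (1 / 2)).congr fun ρ χ₁ χ₂ _ => by ring

/-- the division -/
theorem t7_iter (hm : 1 ≤ m) (hsg : IsSep G x m sg) (he : IsNum G sg 2) {K : ℕ}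
    {sg' : B} (hsg' : IsSep G x K sg') {z f : B}
    (hz : T7O G sg (fun χ₁ χ₂ => χ₁ z + χ₂ z) K) (hz1 : T7O G sg (fun χ₁ _ => χ₁ z) 1)
    (hsq : Squarefree (homogeneousComponent 2 (t7gam G sg' z z)))
    (hf : T7O G sg (fun χ₁ _ => χ₁ f) 1) (k : ℕ) (hK : 2 * k + 4 ≤ K) :
    ∃ u ∈ Ideal.span (Set.range G.y) ⊔ Ideal.span {z}, T7O G sg (fun χ₁ _ => χ₁ (f - u)) (k + 1) := by
  induction k with
  | zero =>
    refine ⟨0, Ideal.zero_mem _, ?_⟩
    rw [sub_zero, zero_add]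
    exact hf
  | succ k ih =>
    obtain ⟨u, hu, h1⟩ := ih (by omega)
    obtain ⟨A, c, hA, h2⟩ := t7_step hm hsg he hsg' (by omega : 1 ≤ k + 1) (by omega) hz hz1 hsq h1
    refine ⟨u + aeval G.y A + aeval G.y c * z, ?_, ?_⟩
    · refine Ideal.add_mem _ (Ideal.add_mem _ hu (Ideal.mem_sup_left ?_)) (Ideal.mem_sup_right ?_)
      · exact Ideal.pow_le_self (Nat.succ_ne_zero k) (t7_aeval_mem G.y hA)
      · exact Ideal.mul_mem_left _ _ (Ideal.mem_span_singleton_self z)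
    · have e : f - (u + aeval G.y A + aeval G.y c * z) =
          f - u - aeval G.y A - aeval G.y c * z := by ring
      rw [e]
      exact h2

theorem t7_apply_sq (G : Germ n d B) (χ : Pt B) (z : B) (p : MvPolynomial (Fin n) ℂ) :
    χ (z ^ 2 - aeval G.y p) = χ z ^ 2 - eval (proj G.y χ) p := by
  rw [map_sub, map_pow, bdd_aeval]

/-- The data of the case of two sheets. -/
theorem t7_data [IsDomain B] [IsIntegrallyClosed B] (hm : 1 ≤ m) (hsg : IsSep G x m sg)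
    (hred : IsReductionAt (RingHom.ker x) G.y) (he : IsNum G sg 2) {z : B} (hz : x z = 0) :
    ∃ (z' : B) (p : MvPolynomial (Fin n) ℂ), p.IsHomogeneous 2 ∧
      z - z' ∈ Ideal.span (Set.range G.y) ∧
      (∃ t, x t ≠ 0 ∧ t * (z' ^ 2 - aeval G.y p) ∈ Ideal.span (Set.range G.y) ^ 3) ∧
      (Squarefree p → ∀ f, x f = 0 →
        ∃ t, x t ≠ 0 ∧ t * f ∈ Ideal.span (Set.range G.y) ⊔ Ideal.span {z'}) := by
  obtain ⟨c₁, hc₁⟩ := lemZ hm hsg
  obtain ⟨sg', hsg'⟩ := G.exists_sep x hsg.x_y (2 * c₁ + 8)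
  have hK1 : 1 ≤ 2 * c₁ + 8 := by omega
  have hz1 := t7o_red hm hsg hred hz
  have htr := t7o_tr hm hsg he hK1 hsg' z
  set a : MvPolynomial (Fin n) ℂ := C (1 / 2) * G.tr (z * sg') with ha
  have ha1 : a ∈ idealOfVars (Fin n) ℂ ^ 1 := by
    refine Ideal.mul_mem_left _ _ (t7_mem_of he ?_)
    exact ((htr.mono hK1).add (hz1.add hz1.symm)).congr fun ρ χ₁ χ₂ _ => by ring
  set z' := z - aeval G.y a with hz'
  have hay : aeval G.y a ∈ Ideal.span (Set.range G.y) := by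
    have := t7_aeval_mem G.y ha1
    rwa [pow_one] at this
  have hval : ∀ ρ χ₁ χ₂, T7Pair G sg ρ χ₁ χ₂ →
      χ₁ z' = χ₁ z - eval (proj G.y χ₁) (G.tr (z * sg')) / 2 ∧
      χ₂ z' = χ₂ z - eval (proj G.y χ₁) (G.tr (z * sg')) / 2 := by
    intro ρ χ₁ χ₂ hp
    constructor
    · rw [hz', map_sub, bdd_aeval, ha, map_mul, eval_C]
      ring
    · rw [hz', map_sub, bdd_aeval, ha, map_mul, eval_C, hp.pr]
      ring
  have hs : T7O G sg (fun χ₁ χ₂ => χ₁ z' + χ₂ z') (2 * c₁ + 8) := by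
    refine (htr.smul (-1)).congr fun ρ χ₁ χ₂ hp => ?_
    rw [(hval ρ χ₁ χ₂ hp).1, (hval ρ χ₁ χ₂ hp).2]
    ring
  have hz'1 : T7O G sg (fun χ₁ _ => χ₁ z') 1 := by
    refine (hz1.sub (t7o_eval (G := G) (sg := sg) ha1)).congr fun ρ χ₁ χ₂ hp => ?_
    rw [hz', map_sub, bdd_aeval]
  have hγ : t7gam G sg' z' z' ∈ idealOfVars (Fin n) ℂ ^ 2 :=
    t7o_gam_ord hm hsg he hK1 hsg' hz'1 hz'1 (by omega)
  refine ⟨z', homogeneousComponent 2 (t7gam G sg' z' z'), homogeneousComponent_isHomogeneous _ _,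
    ?_, ?_, ?_⟩
  · rw [hz', sub_sub_cancel]
    exact hay
  · have h1 : T7O G sg (fun χ₁ _ => χ₁ (z' ^ 2 - aeval G.y (t7gam G sg' z' z'))) (3 + c₁) := by
      have b1 := t7o_gam hm hsg he hK1 hsg' z' z'
      have c2 := hs.mul (((t7o_bdd (G := G) (sg := sg) z').smul (3 / 4)).sub
        ((t7o_bdd z').symm.smul (1 / 4)))
      rw [add_zero] at c2
      refine ((c2.sub b1).mono (by omega : 3 + c₁ ≤ 2 * c₁ + 8)).congr fun ρ χ₁ χ₂ hp => ?_
      rw [t7_apply_sq]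
      ring
    obtain ⟨t, ht, h2⟩ := hc₁ 3 _ (t7_bound_of he h1)
    refine ⟨t, ht, ?_⟩
    have e : t * (z' ^ 2 - aeval G.y (homogeneousComponent 2 (t7gam G sg' z' z'))) =
        t * (z' ^ 2 - aeval G.y (t7gam G sg' z' z')) +
        t * aeval G.y (t7gam G sg' z' z' - homogeneousComponent 2 (t7gam G sg' z' z')) := by
      rw [map_sub]
      ring
    rw [e]
    exact Ideal.add_mem _ h2 (Ideal.mul_mem_left _ _ (t7_aeval_mem G.y (t7_sub_hc_mem hγ)))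
  · intro hsq f hf
    obtain ⟨u, hu, h1⟩ := t7_iter hm hsg he hsg' hs hz'1 hsq (t7o_red hm hsg hred hf) c₁ (by omega)
    rw [add_comm] at h1
    obtain ⟨t, ht, h2⟩ := hc₁ 1 _ (t7_bound_of he h1)
    refine ⟨t, ht, ?_⟩
    have e : t * f = t * (f - u) + t * u := by ring
    rw [e]
    rw [pow_one] at h2
    exact Ideal.add_mem _ (Ideal.mem_sup_left h2) (Ideal.mul_mem_left _ _ hu)

end Pool.Agent.Odp3
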