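import Pool.Agent.Odp3.An.Lead
import Pool.Agent.ODP.LinChange

/-!
# Quadratic forms in the proof of `T7`
-/

open MvPolynomial Pool.Agent.ODP

namespace Pool.Agent.Odp3

theorem t7_squarefree {n : ℕ} (hn : 2 ≤ n) {M N : Matrix (Fin n) (Fin n) ℂ} (h : N * M = 1)
    {D : Fin n → ℂ} (hD : ∀ l, D l ≠ 0) :
    Squarefree (∑ l, D l • (linChange M (MvPolynomial.X : Fin n → MvPolynomial (Fin n) ℂ) l) ^ 2) := by
  have hMN : M * N = 1 := mul_eq_one_comm.1 h
  have hlin : ∀ l, (linChange M (MvPolynomial.X : Fin n → MvPolynomial (Fin n) ℂ) l).IsHomogeneous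
      1 := by
    intro l
    rw [linChange]
    refine IsHomogeneous.sum _ _ _ fun j _ => ?_
    rw [smul_eq_C_mul]
    simpa using (isHomogeneous_C (Fin n) (M l j)).mul (isHomogeneous_X ℂ j)
  refine squarefree_of_diag (N := N) (D := D) hn hD ?_ ?_
  · refine IsHomogeneous.sum _ _ _ fun l _ => ?_
    rw [smul_eq_C_mul]
    simpa using (isHomogeneous_C (Fin n) (D l)).mul ((hlin l).pow 2)
  · intro u
    rw [map_sum]
    refine Finset.sum_congr rfl fun l _ => ?_
    have h1 : eval (N.mulVec u) (linChange M (MvPolynomial.X : Fin n → MvPolynomial (Fin n) ℂ) l) =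
        u l := by
      have h2 : (M.mulVec (N.mulVec u)) l = u l := by
        rw [Matrix.mulVec_mulVec, hMN, Matrix.one_mulVec]
      rw [← h2, linChange, map_sum]
      refine Finset.sum_congr rfl fun j _ => ?_
      rw [smul_eval, eval_X]
    rw [smul_eval, map_pow, h1]

theorem t7_quad {n : ℕ} {p : MvPolynomial (Fin n) ℂ} (hp : p.IsHomogeneous 2) :
    ∃ Q : Matrix (Fin n) (Fin n) ℂ,
      p = ∑ i, ∑ j, Q i j • (MvPolynomial.X i * MvPolynomial.X j) := by
  have h1 := hp.sum_X_mul_pderiv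
  have h2 : ∀ i, (pderiv i p).IsHomogeneous 1 := fun i => hp.pderiv
  have h3 : ∀ i, ∑ j, X j * pderiv j (pderiv i p) = pderiv i p := by
    intro i
    have := (h2 i).sum_X_mul_pderiv
    rwa [one_smul] at this
  have h4 : ∀ i j, (pderiv j (pderiv i p)).IsHomogeneous 0 := fun i j => (h2 i).pderiv
  have h5 : ∀ i j, pderiv j (pderiv i p) = C (coeff 0 (pderiv j (pderiv i p))) := by
    intro i j
    exact totalDegree_eq_zero_iff_eq_C.1 (Nat.le_zero.1 (h4 i j).totalDegree_le)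
  refine ⟨Matrix.of fun i j => coeff 0 (pderiv j (pderiv i p)) / 2, ?_⟩
  have h6 : (C 2 : MvPolynomial (Fin n) ℂ) * p =
      ∑ i, ∑ j, coeff 0 (pderiv j (pderiv i p)) • (X i * X j) := by
    have h7 : (C 2 : MvPolynomial (Fin n) ℂ) * p = 2 • p := by
      rw [nsmul_eq_mul, map_ofNat, Nat.cast_ofNat]
    rw [h7, ← h1]
    refine Finset.sum_congr rfl fun i _ => ?_
    conv_lhs => rw [← h3 i, Finset.mul_sum]
    refine Finset.sum_congr rfl fun j _ => ?_
    conv_lhs => rw [h5 i j]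
    rw [smul_eq_C_mul]
    ring
  have h8 : p = C (2⁻¹ : ℂ) * (C 2 * p) := by
    rw [← mul_assoc, ← C_mul, inv_mul_cancel₀ two_ne_zero, C_1, one_mul]
  refine h8.trans ?_
  rw [h6, Finset.mul_sum]
  refine Finset.sum_congr rfl fun i _ => ?_
  rw [Finset.mul_sum]
  refine Finset.sum_congr rfl fun j _ => ?_
  rw [smul_eq_C_mul, smul_eq_C_mul, ← mul_assoc, ← C_mul, Matrix.of_apply]
  congr 2
  ring

end Pool.Agent.Odp3
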