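import Pool.Agent.Odp3.Eq.T2
import Pool.Agent.Odp3.Eq.Lin
import Pool.Agent.Odp3.Eq.T7Claim
import Pool.Agent.Odp3.Eq.T7Sq
import Pool.Agent.Odp3.Lim.Colength
import Pool.Agent.ODP.Node

open scoped ContDiff Topology ENNReal NNReal WithZero
open Set MeasureTheory Filter MvPolynomial Pool.Agent.ODP

namespace Pool.Agent.Odp3

section

variable {n d : ℕ} {B : Type} [CommRing B] [Algebra ℂ B]

theorem t7_surjective (x : Pt B) : Function.Surjective x := fun c =>
  ⟨algebraMap ℂ B c, by simp⟩

theorem t7_isMaximal (x : Pt B) : (RingHom.ker x).IsMaximal :=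
  RingHom.ker_isMaximal_of_surjective x (t7_surjective x)

/-- The elements outside the maximal ideal are units modulo a primary ideal. -/
theorem t7_mem_of_mul_mem {x : Pt B} {I : Ideal B} {t b : B} (ht : x t ≠ 0) {L : ℕ}
    (hI : ∀ c, x c = 0 → c ^ L ∈ I) (h : t * b ∈ I) : b ∈ I := by
  set u : B := algebraMap ℂ B (x t)⁻¹ * t with hu
  have hu1 : x (1 - u) = 0 := by
    rw [hu, map_sub, map_one, map_mul, AlgHom.commutes, Algebra.algebraMap_self, RingHom.id_apply,
      inv_mul_cancel₀ ht, sub_self]
  have h1 : u ∣ 1 - (1 - u) ^ L := by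
    have := sub_dvd_pow_sub_pow 1 (1 - u) L
    rwa [one_pow, sub_sub_cancel] at this
  obtain ⟨w, hw⟩ := h1
  have h2 : b = b * (1 - u) ^ L + (algebraMap ℂ B (x t)⁻¹ * w) * (t * b) := by
    have h3 : (algebraMap ℂ B (x t)⁻¹ * w) * (t * b) = b * (u * w) := by
      rw [hu]
      ring
    rw [h3, ← hw]
    ring
  rw [h2]
  exact I.add_mem (I.mul_mem_left _ (hI _ hu1)) (I.mul_mem_left _ h)

end

variable {n d : ℕ} {B : Type} [CommRing B] [IsDomain B] [Algebra ℂ B] {G : Germ n d B} {x : Pt B}
  {h : B} {s κ : ℝ} {sg : B} {m : ℕ} {ρ₁ : ℝ}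

/-- T7: two sheets. -/
theorem node_of_two (H : Std G x h s κ sg m ρ₁) (p : Pts G x) {e : ℕ} (he : IsNum G sg e)
    (h2 : e = 2) (hns : ¬ Strict G x h s) : IsNodeAt n (RingHom.ker x) := by
  subst h2
  have hmax : (RingHom.ker x).IsMaximal := t7_isMaximal x
  have hnorm : IsIntegrallyClosed B := H.meas.normal
  obtain ⟨z, hz, hz1⟩ := exists_z p
  obtain ⟨z', q, hq, hzz, ⟨t, ht, hq3⟩, hgen⟩ := t7_data H.hm H.sep H.red he hz
  obtain ⟨Q, hQ⟩ := t7_quad hq
  obtain ⟨M, N, D, hNM, hD⟩ := exists_diag Q
  set ι : B →+* Localization.AtPrime (RingHom.ker x) :=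
    algebraMap B (Localization.AtPrime (RingHom.ker x)) with hι
  have hqy : aeval G.y q = ∑ l, D l • (linChange M G.y l) ^ 2 := by
    rw [← hD, hQ, map_sum]
    refine Finset.sum_congr rfl fun i _ => ?_
    rw [map_sum]
    refine Finset.sum_congr rfl fun j _ => ?_
    rw [map_smul, map_mul, aeval_X, aeval_X]
  have hyx : ∀ i, G.y i ∈ RingHom.ker x := fun i => congrFun H.sep.x_y i
  have hyle : Ideal.span (Set.range G.y) ≤ RingHom.ker x := by
    rw [Ideal.span_le]
    rintro _ ⟨i, rfl⟩
    exact hyx i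
  have hxz' : x z' = 0 := by
    have h1 : x (z - z') = 0 := hyle hzz
    rw [map_sub, hz, zero_sub, neg_eq_zero] at h1
    exact h1
  have hz1' : z' ∉ JI p (one n) 1 := by
    intro hz'
    apply hz1
    have h1 : Ideal.span (Set.range G.y) ≤ JI p (one n) 1 := by
      rw [Ideal.span_le]
      rintro _ ⟨j, rfl⟩
      have h3 := mono_mem_JI p (one n) (N := 1) (m := Pi.single j 1) (by simp [one])
      have h4 : ∏ i, G.y i ^ (Pi.single j 1 : Fin n → ℕ) i = G.y j := by
        rw [Finset.prod_eq_single j (fun i _ hi => by simp [hi]) (by simp)]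
        simp
      rwa [h4] at h3
    have h2 := Ideal.add_mem _ (h1 hzz) hz'
    rwa [sub_add_cancel] at h2
  have hcube : z' ^ 2 - ∑ l, D l • (linChange M G.y l) ^ 2 ∈ RingHom.ker x ^ 3 := by
    refine t7_mem_of_mul_mem ht (fun c hc => Ideal.pow_mem_pow hc 3) ?_
    rw [← hqy]
    exact Ideal.pow_right_mono hyle 3 hq3
  by_cases h0 : ∃ i₀, D i₀ = 0
  · exfalso
    obtain ⟨i₀, hi₀⟩ := h0
    obtain ⟨G', p', ρ', hG', H', hJI, hnv⟩ := H.lin p M (by
      have h1 := congrArg Matrix.det hNM
      rw [Matrix.det_mul, Matrix.det_one] at h1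
      exact IsUnit.of_mul_eq_one_right _ h1)
    refine hns ?_
    have hstrict : Strict G' x h s := by
      refine strict_of_int H' p' (z := z') hxz' ?_ (N' := 2) (by norm_num)
        (fun i => if i = 0 then 1 else if i = 2 then - ∑ l, C (D l) * X l ^ 2 else 0) ?_ i₀ ?_ rfl
        ?_
      · rw [hJI]
        exact hz1'
      · intro i
        split_ifs with h1 h2
        · rw [h1]
          exact isHomogeneous_one _ _
        · rw [h2]
          refine (IsHomogeneous.sum _ _ _ fun l _ => ?_).neg
          simpa using (isHomogeneous_C (Fin n) (D l)).mul ((isHomogeneous_X ℂ l).pow 2)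
        · exact isHomogeneous_zero _ _ _
      · intro i
        split_ifs with h1 h2
        · exact degreeOf_one _
        · rw [degreeOf_neg]
          refine Nat.le_zero.1 ((degreeOf_sum_le _ _ _).trans (Finset.sup_le fun l _ => ?_))
          by_cases hl : l = i₀
          · rw [hl, hi₀]
            simp
          · refine (degreeOf_mul_le _ _ _).trans ?_
            rw [degreeOf_C, zero_add]
            refine (degreeOf_pow_le _ _ _).trans ?_
            rw [degreeOf_X_of_ne (Ne.symm hl)]
        · exact degreeOf_zero _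
      · have h1 : ∑ i ∈ Finset.range (2 + 1), aeval G'.y
            ((fun i => if i = 0 then 1 else if i = 2 then - ∑ l, C (D l) * X l ^ 2 else 0 :
              ℕ → MvPolynomial (Fin n) ℂ) i) * z' ^ (2 - i) =
            z' ^ 2 - ∑ l, D l • (linChange M G.y l) ^ 2 := by
          simp [Finset.sum_range_succ, hG', Algebra.smul_def, sub_eq_add_neg]
        rw [h1]
        exact ker_pow_le_GT H' (j := 2) hcube
    unfold Strict at hstrict ⊢
    rwa [hnv] at hstrict
  · push Not at h0
    have hsq : Squarefree q := by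
      rw [hQ, hD]
      exact t7_squarefree H.hn hNM h0
    have hmaxle : IsLocalRing.maximalIdeal (Localization.AtPrime (RingHom.ker x)) ≤
        (Ideal.span (Set.range G.y) ⊔ Ideal.span {z'}).map ι := by
      rw [← Localization.AtPrime.map_eq_maximalIdeal, Ideal.map_le_iff_le_comap]
      intro f hf
      obtain ⟨t, ht, h1⟩ := hgen hsq f hf
      rw [Ideal.mem_comap]
      have h2 := Ideal.mem_map_of_mem ι h1
      rw [map_mul] at h2
      have hu : IsUnit (ι t) := IsLocalization.map_units (Localization.AtPrime (RingHom.ker x))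
        (⟨t, ht⟩ : (RingHom.ker x).primeCompl)
      exact (Ideal.unit_mul_mem_iff_mem _ hu).1 h2
    have hm : paramIdeal (RingHom.ker x) G.y ⊔ Ideal.span {ι z'} =
        IsLocalRing.maximalIdeal (Localization.AtPrime (RingHom.ker x)) := by
      refine le_antisymm (sup_le (paramIdeal_le _ _ hyx) ?_) (hmaxle.trans (le_of_eq ?_))
      · rw [Ideal.span_le, Set.singleton_subset_iff, SetLike.mem_coe, hι,
          IsLocalization.AtPrime.to_map_mem_maximal_iff _ (RingHom.ker x)]
        exact hxz'
      · rw [Ideal.map_sup, paramIdeal, Ideal.map_span ι {z'}, Set.image_singleton]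
    have hlin : ∀ b : Fin n → ℂ, ι (∑ i, b i • G.y i) = ∑ i, b i • ι (G.y i) := by
      intro b
      rw [map_sum]
      refine Finset.sum_congr rfl fun i _ => ?_
      rw [Algebra.smul_def, Algebra.smul_def, map_mul, ← IsScalarTower.algebraMap_apply]
    refine isNodeAt_of_diag (RingHom.ker x) (fun l => ι (linChange M G.y l)) (ι z') D h0 ?_ ?_
    · have hspan' : Ideal.span (Set.range fun l => ι (linChange M G.y l)) =
          paramIdeal (RingHom.ker x) (linChange M G.y) := by
        rw [paramIdeal, Ideal.map_span, ← Set.range_comp]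
        rfl
      rw [hspan', paramIdeal_linChange M N hNM]
      exact hm
    · have h1 : ι (z' ^ 2 - ∑ l, D l • (linChange M G.y l) ^ 2) ∈
          ((RingHom.ker x) ^ 3).map ι := Ideal.mem_map_of_mem _ hcube
      rw [Ideal.map_pow, hι, Localization.AtPrime.map_eq_maximalIdeal] at h1
      convert h1 using 1
      rw [map_sub, map_pow, map_sum]
      congr 1
      refine Finset.sum_congr rfl fun l _ => ?_
      rw [Algebra.smul_def, Algebra.smul_def, map_mul, map_pow, ← IsScalarTower.algebraMap_apply]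

end Pool.Agent.Odp3
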