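import Pool.Agent.Odp3.Eq.T7Form
import Pool.Agent.Odp3.Pt.Sheets
import Pool.Agent.Odp3.Pt.Red
import Pool.Agent.Odp3.An.Taylor

/-!
# Functions of the pairs of sheets near `x`
-/

open scoped ContDiff Topology ENNReal NNReal WithZero
open Set MeasureTheory Filter MvPolynomial Pool.Agent.ODP

namespace Pool.Agent.Odp3

variable {n d : ℕ} {B : Type} [CommRing B] [Algebra ℂ B] {G : Germ n d B} {x : Pt B} {sg : B}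
  {m : ℕ}

/-- pairs of different sheets near `x` -/
structure T7Pair (G : Germ n d B) (sg : B) (ρ : ℝ) (χ₁ χ₂ : Pt B) : Prop where
  ne : χ₁ ≠ χ₂
  mem₁ : χ₁ ∈ UU G sg ρ
  mem₂ : χ₂ ∈ UU G sg ρ
  pr : proj G.y χ₂ = proj G.y χ₁
  D_ne : eval (proj G.y χ₁) G.D ≠ 0

/-- functions of the pairs which are `O(|y|^k)` -/
def T7O (G : Germ n d B) (sg : B) (F : Pt B → Pt B → ℂ) (k : ℕ) : Prop :=
  ∃ C ρ : ℝ, 0 ≤ C ∧ 0 < ρ ∧ ρ ≤ 1 ∧ ∀ χ₁ χ₂, T7Pair G sg ρ χ₁ χ₂ →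
    ‖F χ₁ χ₂‖ ≤ C * √(nq (proj G.y χ₁)) ^ k

theorem t7_UU_mono {ρ ρ' : ℝ} (hρ : 0 < ρ) (h : ρ ≤ ρ') : UU G sg ρ ⊆ UU G sg ρ' := fun _ hχ =>
  ⟨hχ.1.trans_le (pow_le_pow_left₀ hρ.le h 2), hχ.2⟩

theorem T7Pair.mono {ρ ρ' : ℝ} (hρ : 0 < ρ) (h : ρ ≤ ρ') {χ₁ χ₂ : Pt B}
    (hp : T7Pair G sg ρ χ₁ χ₂) : T7Pair G sg ρ' χ₁ χ₂ :=
  ⟨hp.ne, t7_UU_mono hρ h hp.mem₁, t7_UU_mono hρ h hp.mem₂, hp.pr, hp.D_ne⟩

theorem T7Pair.symm {ρ : ℝ} {χ₁ χ₂ : Pt B} (hp : T7Pair G sg ρ χ₁ χ₂) : T7Pair G sg ρ χ₂ χ₁ :=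
  ⟨hp.ne.symm, hp.mem₂, hp.mem₁, hp.pr.symm, by rw [hp.pr]; exact hp.D_ne⟩

theorem T7Pair.le_one {ρ : ℝ} (hρ : 0 < ρ) (h : ρ ≤ 1) {χ₁ χ₂ : Pt B}
    (hp : T7Pair G sg ρ χ₁ χ₂) : √(nq (proj G.y χ₁)) ≤ 1 := by
  have h1 : √(nq (proj G.y χ₁)) < ρ := (Real.sqrt_lt' hρ).2 hp.mem₁.1
  exact h1.le.trans h

theorem T7Pair.nq_le_one {ρ : ℝ} (hρ : 0 < ρ) (h : ρ ≤ 1) {χ₁ χ₂ : Pt B}
    (hp : T7Pair G sg ρ χ₁ χ₂) : nq (proj G.y χ₁) ≤ 1 := by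
  have h1 := hp.mem₁.1
  nlinarith

theorem T7O.of {F : Pt B → Pt B → ℂ} {k : ℕ} {C ρ : ℝ} (hρ : 0 < ρ)
    (h : ∀ χ₁ χ₂, T7Pair G sg ρ χ₁ χ₂ → ‖F χ₁ χ₂‖ ≤ C * √(nq (proj G.y χ₁)) ^ k) :
    T7O G sg F k := by
  refine ⟨|C|, min ρ 1, abs_nonneg _, lt_min hρ one_pos, min_le_right _ _, fun χ₁ χ₂ hp => ?_⟩
  refine (h χ₁ χ₂ (hp.mono (lt_min hρ one_pos) (min_le_left _ _))).trans ?_
  gcongr
  exact le_abs_self C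

theorem T7O.two {F F' : Pt B → Pt B → ℂ} {k k' : ℕ} (h : T7O G sg F k) (h' : T7O G sg F' k') :
    ∃ C C' ρ : ℝ, 0 ≤ C ∧ 0 ≤ C' ∧ 0 < ρ ∧ ρ ≤ 1 ∧ ∀ χ₁ χ₂, T7Pair G sg ρ χ₁ χ₂ →
      ‖F χ₁ χ₂‖ ≤ C * √(nq (proj G.y χ₁)) ^ k ∧ ‖F' χ₁ χ₂‖ ≤ C' * √(nq (proj G.y χ₁)) ^ k' := by
  obtain ⟨C, ρ, hC, hρ, hρ1, h⟩ := h
  obtain ⟨C', ρ', hC', hρ', hρ1', h'⟩ := h'
  have h0 : 0 < min ρ ρ' := lt_min hρ hρ'
  exact ⟨C, C', min ρ ρ', hC, hC', h0, (min_le_left _ _).trans hρ1, fun χ₁ χ₂ hp =>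
    ⟨h _ _ (hp.mono h0 (min_le_left _ _)), h' _ _ (hp.mono h0 (min_le_right _ _))⟩⟩

theorem T7O.add {F F' : Pt B → Pt B → ℂ} {k : ℕ} (h : T7O G sg F k) (h' : T7O G sg F' k) :
    T7O G sg (fun a b => F a b + F' a b) k := by
  obtain ⟨C, C', ρ, hC, hC', hρ, hρ1, h⟩ := h.two h'
  refine ⟨C + C', ρ, by positivity, hρ, hρ1, fun χ₁ χ₂ hp => ?_⟩
  obtain ⟨h1, h2⟩ := h χ₁ χ₂ hp
  rw [add_mul]
  exact (norm_add_le _ _).trans (add_le_add h1 h2)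

theorem T7O.mul {F F' : Pt B → Pt B → ℂ} {k k' : ℕ} (h : T7O G sg F k) (h' : T7O G sg F' k') :
    T7O G sg (fun a b => F a b * F' a b) (k + k') := by
  obtain ⟨C, C', ρ, hC, hC', hρ, hρ1, h⟩ := h.two h'
  refine ⟨C * C', ρ, by positivity, hρ, hρ1, fun χ₁ χ₂ hp => ?_⟩
  obtain ⟨h1, h2⟩ := h χ₁ χ₂ hp
  rw [norm_mul]
  calc ‖F χ₁ χ₂‖ * ‖F' χ₁ χ₂‖
      ≤ (C * √(nq (proj G.y χ₁)) ^ k) * (C' * √(nq (proj G.y χ₁)) ^ k') :=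
        mul_le_mul h1 h2 (norm_nonneg _) (by positivity)
    _ = C * C' * √(nq (proj G.y χ₁)) ^ (k + k') := by ring

theorem T7O.mono {F : Pt B → Pt B → ℂ} {k l : ℕ} (h : T7O G sg F k) (hl : l ≤ k) :
    T7O G sg F l := by
  obtain ⟨C, ρ, hC, hρ, hρ1, h⟩ := h
  refine ⟨C, ρ, hC, hρ, hρ1, fun χ₁ χ₂ hp => (h _ _ hp).trans ?_⟩
  have h1 := hp.le_one hρ hρ1
  exact mul_le_mul_of_nonneg_left (pow_le_pow_of_le_one (Real.sqrt_nonneg _) h1 hl) hC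

theorem T7O.congr {F F' : Pt B → Pt B → ℂ} {k : ℕ} (h : T7O G sg F k)
    (e : ∀ ρ χ₁ χ₂, T7Pair G sg ρ χ₁ χ₂ → F χ₁ χ₂ = F' χ₁ χ₂) : T7O G sg F' k := by
  obtain ⟨C, ρ, hC, hρ, hρ1, h⟩ := h
  exact ⟨C, ρ, hC, hρ, hρ1, fun χ₁ χ₂ hp => by rw [← e ρ _ _ hp]; exact h _ _ hp⟩

theorem T7O.symm {F : Pt B → Pt B → ℂ} {k : ℕ} (h : T7O G sg F k) :
    T7O G sg (fun a b => F b a) k := by
  obtain ⟨C, ρ, hC, hρ, hρ1, h⟩ := h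
  exact ⟨C, ρ, hC, hρ, hρ1, fun χ₁ χ₂ hp => by
    have h1 := h _ _ hp.symm
    rwa [hp.pr] at h1⟩

theorem T7O.const (c : ℂ) : T7O G sg (fun _ _ => c) 0 :=
  ⟨‖c‖, 1, norm_nonneg _, one_pos, le_rfl, fun _ _ _ => by simp⟩

theorem T7O.smul {F : Pt B → Pt B → ℂ} {k : ℕ} (c : ℂ) (h : T7O G sg F k) :
    T7O G sg (fun a b => c * F a b) k := by
  have h1 := (T7O.const c).mul h
  rwa [zero_add] at h1

theorem T7O.sub {F F' : Pt B → Pt B → ℂ} {k : ℕ} (h : T7O G sg F k) (h' : T7O G sg F' k) :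
    T7O G sg (fun a b => F a b - F' a b) k :=
  (h.add (h'.smul (-1))).congr fun _ _ _ _ => by ring

theorem T7O.of_sq {F : Pt B → Pt B → ℂ} {k : ℕ} (h : T7O G sg (fun a b => F a b ^ 2) (2 * k)) :
    T7O G sg F k := by
  obtain ⟨C, ρ, hC, hρ, hρ1, h⟩ := h
  refine ⟨√C, ρ, Real.sqrt_nonneg _, hρ, hρ1, fun χ₁ χ₂ hp => ?_⟩
  have h1 := h _ _ hp
  refine (pow_le_pow_iff_left₀ (norm_nonneg _) (by positivity) two_ne_zero).1 ?_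
  rw [mul_pow, Real.sq_sqrt hC, ← norm_pow, ← pow_mul, mul_comm k 2]
  exact h1

theorem t7o_bdd (b : B) : T7O G sg (fun χ₁ _ => χ₁ b) 0 := by
  obtain ⟨C, hC⟩ := G.bdd b 1
  refine T7O.of (C := C) one_pos fun χ₁ χ₂ hp => ?_
  rw [pow_zero, mul_one]
  exact hC _ (hp.nq_le_one one_pos le_rfl)

theorem t7o_mem {b : B} {k : ℕ} (hb : b ∈ Ideal.span (Set.range G.y) ^ k) :
    T7O G sg (fun χ₁ _ => χ₁ b) k := by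
  obtain ⟨C, _, hC⟩ := G.bdd_pow hb 1
  exact T7O.of (C := C) one_pos fun χ₁ χ₂ hp => hC _ (hp.nq_le_one one_pos le_rfl)

theorem t7_aeval_mem (y : Fin n → B) {p : MvPolynomial (Fin n) ℂ} {k : ℕ}
    (hp : p ∈ idealOfVars (Fin n) ℂ ^ k) : aeval y p ∈ Ideal.span (Set.range y) ^ k := by
  have h1 := Ideal.mem_map_of_mem (aeval y : MvPolynomial (Fin n) ℂ →ₐ[ℂ] B) hp
  rw [Ideal.map_pow, idealOfVars, Ideal.map_span, ← Set.range_comp] at h1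
  have h2 : (aeval y : MvPolynomial (Fin n) ℂ →ₐ[ℂ] B) ∘ X = y := funext fun i => aeval_X y i
  rwa [h2] at h1

theorem t7o_eval {p : MvPolynomial (Fin n) ℂ} {k : ℕ} (hp : p ∈ idealOfVars (Fin n) ℂ ^ k) :
    T7O G sg (fun χ₁ _ => eval (proj G.y χ₁) p) k :=
  (t7o_mem (t7_aeval_mem G.y hp)).congr fun _ χ₁ _ _ => bdd_aeval G.y χ₁ p

theorem t7o_eval0 (p : MvPolynomial (Fin n) ℂ) :
    T7O G sg (fun χ₁ _ => eval (proj G.y χ₁) p) 0 :=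
  (t7o_bdd (aeval G.y p)).congr fun _ χ₁ _ _ => bdd_aeval G.y χ₁ p

theorem t7o_red [IsDomain B] (hm : 1 ≤ m) (h : IsSep G x m sg)
    (hred : IsReductionAt (RingHom.ker x) G.y) {f : B} (hf : x f = 0) :
    T7O G sg (fun χ₁ _ => χ₁ f) 1 := by
  obtain ⟨C, ρ, hρ, hC⟩ := h.red hm hred hf
  refine T7O.of_sq (T7O.of (C := C) hρ fun χ₁ χ₂ hp => ?_)
  rw [norm_pow, mul_one, Real.sq_sqrt (nq_nonneg _)]
  exact hC _ hp.mem₁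

/-- there is exactly one other sheet near `x` -/
theorem t7_pairs (he : IsNum G sg 2) : ∃ ρ₀ : ℝ, 0 < ρ₀ ∧ ρ₀ ≤ 1 ∧ ∀ ρ, 0 < ρ → ρ ≤ ρ₀ →
    (∀ w : Fin n → ℂ, nq w < ρ ^ 2 → eval w G.D ≠ 0 → ∃ χ₁ χ₂, T7Pair G sg ρ χ₁ χ₂ ∧
      proj G.y χ₁ = w) ∧
    (∀ χ ∈ UU G sg ρ, eval (proj G.y χ) G.D ≠ 0 → ∃ χ', T7Pair G sg ρ χ χ') ∧
    (∀ χ₁ χ₂, T7Pair G sg ρ χ₁ χ₂ → ∀ χ, proj G.y χ = proj G.y χ₁ → ‖χ sg - 1‖ < 1 / 2 →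
      χ = χ₁ ∨ χ = χ₂) := by
  obtain ⟨ρ₀, hρ₀, he⟩ := he
  refine ⟨min ρ₀ 1, lt_min hρ₀ one_pos, min_le_right _ _, fun ρ hρ hle => ?_⟩
  have hle2 : ρ ^ 2 ≤ ρ₀ ^ 2 := pow_le_pow_left₀ hρ.le (hle.trans (min_le_left _ _)) 2
  have key : ∀ w : Fin n → ℂ, nq w < ρ ^ 2 → eval w G.D ≠ 0 → ∃ a b : Pt B, a ≠ b ∧
      {χ : Pt B | proj G.y χ = w ∧ ‖χ sg - 1‖ < 1 / 2} = {a, b} := fun w hw hD =>
    Set.ncard_eq_two.1 (he w (hw.trans_le hle2) hD)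
  refine ⟨fun w hw hD => ?_, fun χ hχ hD => ?_, fun χ₁ χ₂ hp χ hχ hs => ?_⟩
  · obtain ⟨a, b, hab, hs⟩ := key w hw hD
    have ha : a ∈ {χ : Pt B | proj G.y χ = w ∧ ‖χ sg - 1‖ < 1 / 2} := by rw [hs]; simp
    have hb : b ∈ {χ : Pt B | proj G.y χ = w ∧ ‖χ sg - 1‖ < 1 / 2} := by rw [hs]; simp
    refine ⟨a, b, ⟨hab, ⟨by rw [ha.1]; exact hw, ha.2⟩, ⟨by rw [hb.1]; exact hw, hb.2⟩,
      by rw [ha.1, hb.1], by rw [ha.1]; exact hD⟩, ha.1⟩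
  · obtain ⟨a, b, hab, hs⟩ := key _ hχ.1 hD
    have ha : a ∈ {χ' : Pt B | proj G.y χ' = proj G.y χ ∧ ‖χ' sg - 1‖ < 1 / 2} := by
      rw [hs]; simp
    have hb : b ∈ {χ' : Pt B | proj G.y χ' = proj G.y χ ∧ ‖χ' sg - 1‖ < 1 / 2} := by
      rw [hs]; simp
    have hc : χ ∈ {χ' : Pt B | proj G.y χ' = proj G.y χ ∧ ‖χ' sg - 1‖ < 1 / 2} := ⟨rfl, hχ.2⟩
    rw [hs] at hc
    rcases hc with rfl | hc
    · exact ⟨b, hab, hχ, ⟨by rw [hb.1]; exact hχ.1, hb.2⟩, hb.1, hD⟩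
    · rw [Set.mem_singleton_iff] at hc
      subst hc
      exact ⟨a, hab.symm, hχ, ⟨by rw [ha.1]; exact hχ.1, ha.2⟩, ha.1, hD⟩
  · obtain ⟨a, b, hab, hs'⟩ := key _ hp.mem₁.1 hp.D_ne
    have h1 : χ₁ ∈ ({a, b} : Set (Pt B)) := by rw [← hs']; exact ⟨rfl, hp.mem₁.2⟩
    have h2 : χ₂ ∈ ({a, b} : Set (Pt B)) := by rw [← hs']; exact ⟨hp.pr, hp.mem₂.2⟩
    have h3 : χ ∈ ({a, b} : Set (Pt B)) := by rw [← hs']; exact ⟨hχ, hs⟩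
    have h4 := hp.ne
    simp only [Set.mem_insert_iff, Set.mem_singleton_iff] at h1 h2 h3
    rcases h1 with rfl | rfl <;> rcases h2 with rfl | rfl <;> rcases h3 with rfl | rfl <;> simp_all

/-- a polynomial which is `O(|y|^k)` is in `(y)^k` -/
theorem t7_mem_of (he : IsNum G sg 2) {p : MvPolynomial (Fin n) ℂ} {k : ℕ}
    (h : T7O G sg (fun χ₁ _ => eval (proj G.y χ₁) p) k) : p ∈ idealOfVars (Fin n) ℂ ^ k := by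
  obtain ⟨l, hl, hl'⟩ := t7_exists_ord G.D_ne
  obtain ⟨C, C', ρ, hC, hC', hρ, hρ1, hb⟩ := h.two (t7o_eval (G := G) (sg := sg) hl)
  obtain ⟨ρ₀, hρ₀, hρ₀1, hpair⟩ := t7_pairs he
  have h0 : 0 < min ρ ρ₀ := lt_min hρ hρ₀
  refine t7_ord_mul hl' (mem_pow_of_le (C := C * C') h0 fun w hw => ?_)
  rw [map_mul, norm_mul]
  by_cases hD : eval w G.D = 0
  · rw [hD, norm_zero, mul_zero]
    positivity
  · obtain ⟨χ₁, χ₂, hp, rfl⟩ := (hpair _ h0 (min_le_right _ _)).1 w hw hD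
    obtain ⟨h1, h2⟩ := hb χ₁ χ₂ (hp.mono h0 (min_le_left _ _))
    calc ‖eval (proj G.y χ₁) p‖ * ‖eval (proj G.y χ₁) G.D‖
        ≤ (C * √(nq (proj G.y χ₁)) ^ k) * (C' * √(nq (proj G.y χ₁)) ^ l) :=
          mul_le_mul h1 h2 (norm_nonneg _) (by positivity)
      _ = C * C' * √(nq (proj G.y χ₁)) ^ (k + l) := by ring

/-- an element which is `O(|y|^k)` on the pairs is `O(|y|^k)` on the sheets near `x` -/
theorem t7_bound_of (he : IsNum G sg 2) {f : B} {k : ℕ}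
    (h : T7O G sg (fun χ₁ _ => χ₁ f) k) : ∃ C ρ : ℝ, 0 < ρ ∧ ∀ χ ∈ UU G sg ρ,
      eval (proj G.y χ) G.D ≠ 0 → ‖χ f‖ ≤ C * √(nq (proj G.y χ)) ^ k := by
  obtain ⟨C, ρ, hC, hρ, hρ1, h⟩ := h
  obtain ⟨ρ₀, hρ₀, hρ₀1, hpair⟩ := t7_pairs he
  have h0 : 0 < min ρ ρ₀ := lt_min hρ hρ₀
  refine ⟨C, min ρ ρ₀, h0, fun χ hχ hD => ?_⟩
  obtain ⟨χ', hp⟩ := (hpair _ h0 (min_le_right _ _)).2.1 χ hχ hD
  exact h _ _ (hp.mono h0 (min_le_left _ _))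

/-- the trace over the two sheets near `x` -/
theorem t7o_tr (hm : 1 ≤ m) (hsg : IsSep G x m sg) (he : IsNum G sg 2) {K : ℕ} (hK : 1 ≤ K)
    {sg' : B} (hsg' : IsSep G x K sg') (g : B) :
    T7O G sg (fun χ₁ χ₂ => eval (proj G.y χ₁) (G.tr (g * sg')) - (χ₁ g + χ₂ g)) K := by
  classical
  obtain ⟨ρ₁, hρ₁, h1⟩ := hsg.tends hm sg' (ε := 1 / 2) (by norm_num)
  obtain ⟨ρ₂, hρ₂, h2⟩ := hsg'.tends hK sg (ε := 1 / 2) (by norm_num)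
  obtain ⟨ρ₃, C, hρ₃, h3⟩ := hsg'.dich hK
  obtain ⟨ρ₀, hρ₀, hρ₀1, hpair⟩ := t7_pairs he
  obtain ⟨Cg, hCg⟩ := G.bdd g 1
  rw [hsg'.x_sg] at h1
  rw [hsg.x_sg] at h2
  set ρ := min (min ρ₁ ρ₂) (min ρ₃ ρ₀) with hρ
  have h0 : 0 < ρ := by positivity
  have l1 : ρ ≤ ρ₁ := (min_le_left _ _).trans (min_le_left _ _)
  have l2 : ρ ≤ ρ₂ := (min_le_left _ _).trans (min_le_right _ _)
  have l3 : ρ ≤ ρ₃ := (min_le_right _ _).trans (min_le_left _ _)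
  have l0 : ρ ≤ ρ₀ := (min_le_right _ _).trans (min_le_right _ _)
  refine T7O.of (C := d * (|Cg| * C)) h0 fun χ₁ χ₂ hp => ?_
  obtain ⟨S, hS, hcard, hsum⟩ := G.sheets_fibre x hp.D_ne
  have hnq1 : nq (proj G.y χ₁) ≤ 1 := hp.nq_le_one h0 (l0.trans hρ₀1)
  have hterm : ∀ χ ∈ S, ‖χ g * (χ sg' - if χ = χ₁ ∨ χ = χ₂ then 1 else 0)‖ ≤
      |Cg| * (C * √(nq (proj G.y χ₁)) ^ K) := by
    intro χ hχ
    have hpr := (hS χ).1 hχ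
    rw [norm_mul]
    refine mul_le_mul ((hCg χ (by rw [hpr]; exact hnq1)).trans (le_abs_self _)) ?_
      (norm_nonneg _) (abs_nonneg _)
    have h4 := h3 χ (by
      rw [hpr]
      exact hp.mem₁.1.trans_le (pow_le_pow_left₀ h0.le l3 2))
    rw [hpr] at h4
    split_ifs with h5
    · have h6 : χ ∈ UU G sg ρ := by
        rcases h5 with rfl | rfl
        · exact hp.mem₁
        · exact hp.mem₂
      have h7 := h1 χ (t7_UU_mono h0 l1 h6)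
      rcases h4 with h4 | h4
      · exact h4.2
      · exfalso
        have h8 : (1 : ℝ) ≤ ‖χ sg'‖ + ‖χ sg' - 1‖ := by
          calc (1 : ℝ) = ‖χ sg' - (χ sg' - 1)‖ := by simp
            _ ≤ _ := norm_sub_le _ _
        linarith [h4.1]
    · rw [sub_zero]
      rcases h4 with h4 | h4
      · exfalso
        have h6 : χ ∈ UU G sg' ρ₂ := ⟨by
          rw [hpr]
          exact hp.mem₁.1.trans_le (pow_le_pow_left₀ h0.le l2 2), by linarith [h4.1]⟩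
        exact h5 ((hpair ρ h0 l0).2.2 χ₁ χ₂ hp χ hpr (h2 χ h6))
      · exact h4.2
  have e1 : eval (proj G.y χ₁) (G.tr (g * sg')) - (χ₁ g + χ₂ g) =
      ∑ χ ∈ S, χ g * (χ sg' - if χ = χ₁ ∨ χ = χ₂ then 1 else 0) := by
    have e2 : ∑ χ ∈ S, χ g * (if χ = χ₁ ∨ χ = χ₂ then (1 : ℂ) else 0) = χ₁ g + χ₂ g := by
      simp only [mul_ite, mul_one, mul_zero]
      rw [← Finset.sum_filter]
      have e3 : S.filter (fun χ => χ = χ₁ ∨ χ = χ₂) = {χ₁, χ₂} := by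
        ext χ
        simp only [Finset.mem_filter, Finset.mem_insert, Finset.mem_singleton, and_iff_right_iff_imp]
        rintro (rfl | rfl)
        · exact (hS _).2 rfl
        · exact (hS _).2 hp.pr
      rw [e3, Finset.sum_pair hp.ne]
    rw [← hsum]
    simp only [mul_sub, Finset.sum_sub_distrib, e2, map_mul]
  rw [e1]
  refine (norm_sum_le _ _).trans ((Finset.sum_le_sum hterm).trans (le_of_eq ?_))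
  rw [Finset.sum_const, hcard, nsmul_eq_mul]
  ring

end Pool.Agent.Odp3
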