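import Mathlib

/-!
# Leading forms of polynomials
-/

open MvPolynomial

namespace Pool.Agent.Odp3

section gr

variable {n : ℕ}

/-- restriction to the generic line through the origin -/
noncomputable def t7gr : MvPolynomial (Fin n) ℂ →ₐ[ℂ] Polynomial (MvPolynomial (Fin n) ℂ) :=
  aeval fun i => Polynomial.C (X i) * Polynomial.X

theorem t7gr_monomial (m : Fin n →₀ ℕ) (a : ℂ) :
    t7gr (monomial m a) = Polynomial.monomial m.degree (monomial m a) := by
  rw [t7gr, aeval_monomial, Finsupp.prod_fintype _ _ fun i => pow_zero _]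
  simp only [mul_pow, Finset.prod_mul_distrib, ← Polynomial.C_pow]
  rw [Finset.prod_pow_eq_pow_sum, ← Finsupp.degree_eq_sum, ← map_prod,
    ← Polynomial.C_mul_X_pow_eq_monomial, monomial_eq, Finsupp.prod_fintype _ _ fun i => pow_zero _,
    map_mul Polynomial.C, mul_assoc]
  rfl

theorem t7gr_coeff (p : MvPolynomial (Fin n) ℂ) (k : ℕ) :
    (t7gr p).coeff k = homogeneousComponent k p := by
  classical
  rw [homogeneousComponent_apply]
  conv_lhs => rw [as_sum p]
  rw [map_sum, Polynomial.finsetSum_coeff, Finset.sum_filter]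
  refine Finset.sum_congr rfl fun m _ => ?_
  rw [t7gr_monomial, Polynomial.coeff_monomial]

theorem t7gr_dvd {p : MvPolynomial (Fin n) ℂ} {k : ℕ} :
    p ∈ idealOfVars (Fin n) ℂ ^ k ↔ Polynomial.X ^ k ∣ t7gr p := by
  rw [mem_pow_idealOfVars_iff', Polynomial.X_pow_dvd_iff]
  constructor
  · intro h d hd
    rw [t7gr_coeff]
    ext m
    rw [coeff_homogeneousComponent, coeff_zero]
    split_ifs with h1
    · exact h m (by rw [h1]; exact hd)
    · rfl
  · intro h m hm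
    have h1 := h _ hm
    rw [t7gr_coeff] at h1
    have h2 := coeff_homogeneousComponent m.degree p m
    rw [if_pos rfl, h1, coeff_zero] at h2
    exact h2.symm

theorem t7_prime_pow {R : Type*} [CommRing R] [IsDomain R] {p a : R} (hp : Prime p) {k : ℕ} :
    ∀ (l : ℕ) (b : R), ¬ p ^ (l + 1) ∣ b → p ^ (k + l) ∣ a * b → p ^ k ∣ a := by
  intro l
  induction l with
  | zero =>
    intro b hb h
    rw [zero_add, pow_one] at hb
    exact hp.pow_dvd_of_dvd_mul_right k hb h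
  | succ l ih =>
    intro b hb h
    by_cases h1 : p ∣ b
    · obtain ⟨c, rfl⟩ := h1
      refine ih c (fun h2 => hb ?_) ?_
      · rw [pow_succ']
        exact mul_dvd_mul_left p h2
      · rw [← add_assoc, pow_succ', mul_left_comm] at h
        exact (mul_dvd_mul_iff_left hp.ne_zero).1 h
    · exact (pow_dvd_pow p (Nat.le_add_right k (l + 1))).trans
        (hp.pow_dvd_of_dvd_mul_right _ h1 h)

/-- the order is additive -/
theorem t7_ord_mul {p q : MvPolynomial (Fin n) ℂ} {k l : ℕ}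
    (hq : q ∉ idealOfVars (Fin n) ℂ ^ (l + 1)) (h : p * q ∈ idealOfVars (Fin n) ℂ ^ (k + l)) :
    p ∈ idealOfVars (Fin n) ℂ ^ k := by
  rw [t7gr_dvd] at hq h ⊢
  rw [map_mul] at h
  exact t7_prime_pow Polynomial.prime_X l _ hq h

theorem t7_exists_ord {p : MvPolynomial (Fin n) ℂ} (hp : p ≠ 0) :
    ∃ l, p ∈ idealOfVars (Fin n) ℂ ^ l ∧ p ∉ idealOfVars (Fin n) ℂ ^ (l + 1) := by
  classical
  have h1 : ∃ l, p ∉ idealOfVars (Fin n) ℂ ^ (l + 1) := by
    by_contra! h
    apply hp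
    ext m
    rw [coeff_zero]
    exact (mem_pow_idealOfVars_iff' _ _).1 (h m.degree) m (Nat.lt_succ_self _)
  refine ⟨Nat.find h1, ?_, Nat.find_spec h1⟩
  rcases Nat.eq_zero_or_pos (Nat.find h1) with h2 | h2
  · rw [h2, pow_zero]
    rw [Ideal.one_eq_top]
    exact Submodule.mem_top
  · have h3 := Nat.find_min h1 (m := Nat.find h1 - 1) (by omega)
    rw [not_not, Nat.sub_add_cancel h2] at h3
    exact h3

theorem t7_hc_mem (p : MvPolynomial (Fin n) ℂ) (k : ℕ) :
    homogeneousComponent k p ∈ idealOfVars (Fin n) ℂ ^ k := by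
  rw [mem_pow_idealOfVars_iff']
  intro m hm
  rw [coeff_homogeneousComponent, if_neg hm.ne]

theorem t7_sub_hc_mem {p : MvPolynomial (Fin n) ℂ} {k : ℕ} (hp : p ∈ idealOfVars (Fin n) ℂ ^ k) :
    p - homogeneousComponent k p ∈ idealOfVars (Fin n) ℂ ^ (k + 1) := by
  rw [mem_pow_idealOfVars_iff'] at hp ⊢
  intro m hm
  rw [coeff_sub, coeff_homogeneousComponent]
  split_ifs with h
  · rw [sub_self]
  · rw [sub_zero]
    exact hp m (by omega)

theorem t7_hc_not_mem {p : MvPolynomial (Fin n) ℂ} {k : ℕ} (hp : homogeneousComponent k p ≠ 0) :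
    homogeneousComponent k p ∉ idealOfVars (Fin n) ℂ ^ (k + 1) := by
  intro h
  apply hp
  rw [mem_pow_idealOfVars_iff'] at h
  ext m
  rw [coeff_zero]
  by_cases h1 : m.degree = k
  · exact h m (by omega)
  · rw [coeff_homogeneousComponent, if_neg h1]

/-- the division of the leading forms -/
theorem t7_divide {P₁ P₂ P₃ : MvPolynomial (Fin n) ℂ} {k : ℕ} (hk : 1 ≤ k)
    (h1 : P₁ ∈ idealOfVars (Fin n) ℂ ^ (k + 1)) (h2 : P₂ ∈ idealOfVars (Fin n) ℂ ^ (2 * k))
    (h3 : P₃ ∈ idealOfVars (Fin n) ℂ ^ 2)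
    (h : P₁ ^ 2 - P₂ * P₃ ∈ idealOfVars (Fin n) ℂ ^ (2 * k + 3))
    (hsq : Squarefree (homogeneousComponent 2 P₃)) :
    ∃ c ∈ idealOfVars (Fin n) ℂ ^ (k - 1), P₁ - c * P₃ ∈ idealOfVars (Fin n) ℂ ^ (k + 2) := by
  have hq0 : homogeneousComponent 2 P₃ ≠ 0 := hsq.ne_zero
  obtain ⟨c, hc⟩ : homogeneousComponent 2 P₃ ∣ homogeneousComponent (k + 1) P₁ := by
    rw [← hsq.dvd_pow_iff_dvd two_ne_zero]
    rw [← t7gr_coeff, ← t7gr_coeff]
    rw [t7gr_dvd] at h1 h2 h3 h
    obtain ⟨a₁, e1⟩ := h1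
    obtain ⟨a₂, e2⟩ := h2
    obtain ⟨a₃, e3⟩ := h3
    have c1 : (t7gr P₁).coeff (k + 1) = a₁.coeff 0 := by
      rw [e1]
      simpa using Polynomial.coeff_X_pow_mul a₁ (k + 1) 0
    have c3 : (t7gr P₃).coeff 2 = a₃.coeff 0 := by
      rw [e3]
      simpa using Polynomial.coeff_X_pow_mul a₃ 2 0
    rw [c1, c3]
    have e4 : t7gr (P₁ ^ 2 - P₂ * P₃) = Polynomial.X ^ (2 * k + 2) * (a₁ ^ 2 - a₂ * a₃) := by
      rw [map_sub, map_pow, map_mul, e1, e2, e3]
      ring
    rw [e4, pow_succ Polynomial.X (2 * k + 2),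
      mul_dvd_mul_iff_left (pow_ne_zero _ Polynomial.X_ne_zero), Polynomial.X_dvd_iff] at h
    simp only [Polynomial.coeff_sub, Polynomial.mul_coeff_zero, pow_two] at h
    exact ⟨a₂.coeff 0, by linear_combination h⟩
  have hc1 : c ∈ idealOfVars (Fin n) ℂ ^ (k - 1) := by
    refine t7_ord_mul (q := homogeneousComponent 2 P₃) (l := 2) (t7_hc_not_mem hq0) ?_
    rw [mul_comm, ← hc]
    have e : k - 1 + 2 = k + 1 := by omega
    rw [e]
    exact t7_hc_mem _ _
  refine ⟨c, hc1, ?_⟩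
  have e : P₁ - c * P₃ = (P₁ - homogeneousComponent (k + 1) P₁) -
      c * (P₃ - homogeneousComponent 2 P₃) := by
    rw [hc]
    ring
  rw [e]
  refine Ideal.sub_mem _ (t7_sub_hc_mem h1) ?_
  have h4 := Ideal.mul_mem_mul hc1 (t7_sub_hc_mem h3)
  rw [← pow_add] at h4
  have e2 : k - 1 + (2 + 1) = k + 2 := by omega
  rwa [e2] at h4

end gr

end Pool.Agent.Odp3
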